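import Pool.Agent.P.MP_56bcbf_an.R.Iface

section

/-! Step QA. -/

namespace Pool.Agent.P.MP_56bcbf_an.R

open Set Metric Filter Topology Complex MeasureTheory Real
open scoped ENNReal

namespace QAa

theorem norm_QQ (n L : ℕ) (m : ℕ → ℕ) (w : ℂ) : ‖QQ n L m w‖ =
    Real.exp (n * w.re) * ∏ l ∈ Finset.range L, ‖ET (rr l) (tau l) (w - I / 2)‖ ^ m l := by
  simp [QQ, Complex.norm_exp]

theorem geo (L : ℕ) : ∑ l ∈ Finset.range L, (1 / 2 : ℝ) ^ (l + 1) ≤ 1 := by
  have : ∑ l ∈ Finset.range L, (1 / 2 : ℝ) ^ (l + 1) = 1 - (1 / 2) ^ L := by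
    induction L with
    | zero => simp
    | succ L ih => rw [Finset.sum_range_succ, ih]; ring
  rw [this]
  exact sub_le_self _ (by positivity)

theorem big {i l : ℕ} (h : i < l) : 64 * 2 ^ l * rr i ≤ rr l := by
  obtain ⟨k, rfl⟩ : ∃ k, l = k + 1 := ⟨l - 1, by omega⟩
  have h1 : rr i ≤ rr k := rr_mono (by omega)
  have h2 : 64 * 2 ^ (k + 1) ≤ rr k := by
    have := sg_ge k
    have := sg_32 k
    rw [rr, pow_succ]
    nlinarith [show (0 : ℝ) < 2 ^ k by positivity]
  rw [rr_succ, sq]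
  exact mul_le_mul h2 h1 (rr_pos i).le (rr_pos k).le

theorem exp_le (k : ℕ) : Real.exp k ≤ 3 ^ k := by
  rw [← Real.exp_one_pow]
  gcongr
  exact Real.exp_one_lt_three.le

theorem nv (w : ℂ) : ‖w - I / 2‖ ≤ ‖w‖ + 1 / 2 ∧ ‖w‖ ≤ ‖w - I / 2‖ + 1 / 2 := by
  have h : ‖(I / 2 : ℂ)‖ = 1 / 2 := by simp
  constructor
  · exact (norm_sub_le _ _).trans (by rw [h])
  · have := norm_add_le (w - I / 2) (I / 2)
    rwa [sub_add_cancel, h] at this

theorem far (hEA : S_EA) (l : ℕ) {w : ℂ} (h0 : 0 < w.re) (hg : w.re ≤ gw w) :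
    ‖ET (rr l) (tau l) (w - I / 2)‖ ≤ Real.exp ((1 / 2) ^ (l + 1)) := by
  have hre : (w - I / 2).re = w.re := by simp
  have H := hEA (rr l) (tau l) (w - I / 2) (rr_pos l) (tau_pos l).le (by rw [hre]; exact h0.le)
    fun h => by rw [h] at hre; exact h0.ne hre
  by_cases hv : ‖w - I / 2‖ ≤ rr l
  · exact (H.2.2.1 hv).2.trans (Real.one_le_exp (by positivity))
  refine H.2.2.2.1.trans (Real.exp_le_exp.2 ?_)
  have h1 : rr l - 1 / 2 ≤ ‖w‖ := by linarith [(nv w).1, not_le.1 hv]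
  have h2 := rr_ge l
  have h3 : π * Real.exp 4 ≤ 32 ^ 2 := by
    have := exp_le 4
    have h4 := Real.pi_le_four
    norm_num at this ⊢
    nlinarith [Real.exp_pos 4]
  have h4 := poly_le l (n := 6) h3 (by norm_num)
  have h5 : sg l ≤ rr l := by rw [rr]; nlinarith [sg_32 l]
  calc tau l * (w - I / 2).re ≤ tau l * gw w := by rw [hre]; gcongr; exact (tau_pos l).le
    _ = π * Real.exp 4 * sg l ^ 6 * Real.exp (-‖w‖ ^ 2) := by
        rw [tau, gw, sub_eq_add_neg, Real.exp_add]; ring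
    _ ≤ Real.exp (rr l) * Real.exp (-‖w‖ ^ 2) := by gcongr
    _ ≤ Real.exp (-sg l) := by
        rw [← Real.exp_add]
        exact Real.exp_le_exp.2 (by nlinarith)
    _ ≤ (1 / 2) ^ (l + 5) := exp_sg_le l
    _ ≤ (1 / 2) ^ (l + 1) := pow_le_pow_of_le_one (by norm_num) (by norm_num) (by omega)

end QAa

open QAa in
theorem p_QA (hEA : S_EA) :
    S_QA := by
  intro i n L m hm h0
  have hr := rr_ge i
  have hn : (0 : ℝ) ≤ n := n.cast_nonneg
  refine ⟨fun w hw => ?_, fun w hw h1 hc => ?_⟩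
  · have hx : 3 * rr i - 1 ≤ w.re := by
      have := (abs_le.1 ((Complex.abs_re_le_norm _).trans hw)).1
      simp at this
      linarith
    have hv : ‖w - I / 2‖ ≤ 4 * rr i := by
      have := norm_add_le (w - 3 * rr i) (3 * rr i)
      rw [sub_add_cancel, norm_mul, Complex.norm_real, Real.norm_of_nonneg (rr_pos i).le,
        Complex.norm_ofNat] at this
      linarith [(nv w).1]
    have hre : (w - I / 2).re = w.re := by simp
    have key : ∀ l ∈ Finset.range L, Real.exp (-(n * (1 / 2) ^ (l + 1))) ≤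
        ‖ET (rr l) (tau l) (w - I / 2)‖ ^ m l := fun l _ => by
      by_cases hl : l ≤ i
      · rw [h0 l hl, pow_zero, Real.exp_le_one_iff, neg_nonpos]
        positivity
      have hb := big (not_le.1 hl)
      have hp : (1 : ℝ) ≤ 2 ^ l := one_le_pow₀ one_le_two
      have H := (hEA (rr l) (tau l) (w - I / 2) (rr_pos l) (tau_pos l).le
        (by rw [hre]; linarith) fun h => by
          rw [h, Complex.zero_re] at hre; linarith).2.2.2.2.2 (by nlinarith)
      refine le_trans ?_ (pow_le_pow_left₀ (Real.exp_pos _).le H _)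
      rw [← Real.exp_nat_mul, Real.exp_le_exp, mul_neg, neg_le_neg_iff]
      have h2 : 4 * ‖w - I / 2‖ / rr l ≤ (1 / 2) ^ (l + 1) / 2 := by
        rw [one_div, inv_pow, inv_eq_one_div, div_div, div_le_div_iff₀ (rr_pos l) (by positivity),
          pow_succ]
        nlinarith
      have h3 : (m l : ℝ) ≤ 2 * n := by exact_mod_cast hm l
      calc (m l : ℝ) * (4 * ‖w - I / 2‖ / rr l) ≤ 2 * n * ((1 / 2) ^ (l + 1) / 2) :=
            mul_le_mul h3 h2 (div_nonneg (by positivity) (rr_pos l).le) (by positivity)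
        _ = _ := by ring
    rw [norm_QQ]
    refine le_trans ?_ (mul_le_mul_of_nonneg_left
      (Finset.prod_le_prod (fun _ _ => (Real.exp_pos _).le) key) (Real.exp_pos _).le)
    rw [← Real.exp_sum, ← Real.exp_add, Real.exp_le_exp, Finset.sum_neg_distrib, ← Finset.mul_sum]
    nlinarith [geo L]
  rw [norm_QQ]
  rcases hc with hc | hc
  · have hre : (w - I / 2).re = w.re := by simp
    have key : ∀ l ∈ Finset.range L, ‖ET (rr l) (tau l) (w - I / 2)‖ ^ m l ≤ 1 := fun l _ => by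
      by_cases hl : l ≤ i
      · rw [h0 l hl, pow_zero]
      have hb := rr_lt (not_le.1 hl)
      exact pow_le_one₀ (norm_nonneg _) ((hEA (rr l) (tau l) (w - I / 2) (rr_pos l)
        (tau_pos l).le (by rw [hre]; exact hw.le) fun h => by
          rw [h] at hre; exact hw.ne hre).2.2.1 (by linarith [(nv w).1])).2
    refine (mul_le_of_le_one_right (Real.exp_pos _).le
      (Finset.prod_le_one (fun _ _ => by positivity) key)).trans (Real.exp_le_exp.2 ?_)
    gcongr
    exact (Complex.re_le_norm w).trans hc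
  · have key : ∀ l ∈ Finset.range L, ‖ET (rr l) (tau l) (w - I / 2)‖ ^ m l ≤
        Real.exp (2 * n * (1 / 2) ^ (l + 1)) := fun l _ => by
      refine (pow_le_pow_left₀ (norm_nonneg _) (far hEA l hw hc) _).trans ?_
      rw [← Real.exp_nat_mul, Real.exp_le_exp]
      gcongr
      exact_mod_cast hm l
    have hx : w.re ≤ rr i := by
      have h3 := exp_le 3
      have : gw w ≤ Real.exp (3 : ℕ) := Real.exp_le_exp.2 (by push_cast; nlinarith)
      linarith
    refine (mul_le_mul_of_nonneg_left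
      (Finset.prod_le_prod (fun _ _ => by positivity) key) (Real.exp_pos _).le).trans ?_
    rw [← Real.exp_sum, ← Real.exp_add, Real.exp_le_exp, ← Finset.mul_sum]
    nlinarith [geo L]

end Pool.Agent.P.MP_56bcbf_an.R

end

section

/-! Step QB. -/

namespace Pool.Agent.P.MP_56bcbf_an.R

open Set Metric Filter Topology Complex MeasureTheory Real
open scoped ENNReal

namespace QBa

/-- A product whose factors are `1` from `L` on and at most `1` after `l`. -/
theorem prod_le (f : ℕ → ℝ) (L l : ℕ) (h0 : ∀ k, 0 ≤ f k) (hL : ∀ k, L ≤ k → f k = 1)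
    (hl : ∀ k, l < k → f k ≤ 1) :
    ∏ k ∈ Finset.range L, f k ≤ (∏ k ∈ Finset.range l, f k) * f l := by
  have e : ∏ k ∈ Finset.range L, f k = ∏ k ∈ Finset.range (l + 1 + L), f k :=
    Finset.prod_subset (Finset.range_subset_range.2 (by omega)) fun k _ hk =>
      hL k (by simpa using hk)
  rw [e, Finset.prod_range_add, Finset.prod_range_succ]
  exact mul_le_of_le_one_right (mul_nonneg (Finset.prod_nonneg fun k _ => h0 k) (h0 l))
    (Finset.prod_le_one (fun k _ => h0 _) fun k _ => hl _ (by omega))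

theorem sg_le_rr (l : ℕ) : sg l ≤ rr l := by
  rw [rr]
  nlinarith [sg_32 l]

theorem rr_le_sq (l : ℕ) : rr l ≤ rr l ^ 2 := by nlinarith [rr_ge l]

theorem c1 (l : ℕ) : 60 * π * sg l ^ 8 ≤ Real.exp (rr l) :=
  poly_le l (a := 2) (by nlinarith [pi_lt_four]) (by norm_num)

theorem c2 (l : ℕ) : 48 * π ^ 2 * sg l ^ 12 ≤ Real.exp (rr l) :=
  poly_le l (a := 2) (by nlinarith [pi_lt_four, pi_pos]) (by norm_num)

theorem rr_sq_le_a (l : ℕ) {a : ℝ} (ha : TT l / 2 ≤ a) : rr l ^ 2 ≤ a * (sg l - 1) := by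
  have hs := sg_32 l
  have h3 : 0 < sg l ^ 3 := pow_pos (sg_pos l) 3
  have h1 : 3 / 2 * sg l ^ 3 ≤ a := by
    refine le_trans ?_ ha
    rw [TT]
    nlinarith [pi_gt_three]
  calc rr l ^ 2 = sg l ^ 3 * sg l := by rw [rr]; ring
    _ ≤ sg l ^ 3 * (3 / 2 * (sg l - 1)) := by gcongr; linarith
    _ = 3 / 2 * sg l ^ 3 * (sg l - 1) := by ring
    _ ≤ a * (sg l - 1) := by gcongr; linarith

end QBa

theorem p_QB (hEA : S_EA) (hEB : S_EB) (hBEAD : S_BEAD) :
    S_QB := by
  rintro t p n L m ⟨l, b, hb0, hbz⟩ w ht hp hm hA hw0 hw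
  obtain ⟨hB1, -, hB3⟩ := hBEAD
  obtain ⟨hbn, hbd, -⟩ := hB1 ⟨l, b, hb0, hbz⟩
  have hsm := (hB3 t fun k => by linarith [ht k]).2 ⟨l, b, hb0, hbz⟩
  simp only at hA hbn hbd hsm ⊢
  have hej : ej t ⟨l, b, hb0, hbz⟩ = Real.exp (-(t l / 2 * TT l * (b.re + sg l))) := rfl
  have hbd' : bd ⟨l, b, hb0, hbz⟩ = b + I / 2 := rfl
  generalize ej t ⟨l, b, hb0, hbz⟩ = ε at *
  generalize hβ : ‖bd ⟨l, b, hb0, hbz⟩‖ = β at *
  have hβ0 : 0 ≤ β := hβ ▸ norm_nonneg _
  set a := t l / 2 * TT l with ha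
  have hr := rr_ge l
  have hτ := tau_ge l
  have hs := sg_32 l
  have hε : 0 < ε := hej ▸ Real.exp_pos _
  have haT : TT l / 2 ≤ a := by
    have := mul_le_mul_of_nonneg_right (ht l) (TT_pos l).le
    rw [ha]; linarith
  have ha0 : 0 ≤ a := by linarith [TT_pos l]
  have har := QBa.rr_sq_le_a l haT
  have hη : 2 * β * ε ≤ 4 * rr l * ε := by
    gcongr ?_ * ε
    linarith [(abs_le.1 hbd).2]
  have hη0 : 0 ≤ 2 * β * ε := by positivity
  have hη3 : 3 * tau l * (2 * β * ε) ≤ 1 := by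
    have := mul_le_mul_of_nonneg_left hη (tau_pos l).le
    linarith
  have hη1 : 2 * β * ε ≤ 1 := by
    have := mul_le_mul_of_nonneg_right hτ hη0
    linarith
  set v := w - I / 2 with hv
  have hvb : ‖v - b‖ ≤ 2 * β * ε := by
    rw [hbd'] at hw
    convert hw using 2
    rw [hv]; ring
  have hvre : v.re = w.re := by simp [hv]
  have hvn : |‖v‖ - rr l| ≤ 1 := by
    rw [← hbn]
    exact (abs_norm_sub_norm_le v b).trans (hvb.trans hη1)
  have hv0 : v ≠ 0 := by
    intro h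
    rw [h, norm_zero] at hvn
    linarith [(abs_le.1 hvn).1]
  have hx : w.re ≤ b.re + 1 := by
    have h1 := (re_le_norm (v - b)).trans (hvb.trans hη1)
    rw [sub_re, hvre] at h1
    linarith
  have hE := fun k => hEA (rr k) (tau k) v (rr_pos k) (tau_pos k).le (hvre ▸ hw0) hv0
  have hmid : ‖ET (rr l) (tau l) v‖ ≤ Real.exp (-(a * (b.re + 1))) := by
    have h1 := (hEB (rr l) (tau l) (by linarith) hτ).1 b v _ hbn hvb hη3
    rw [hbz, sub_zero] at h1
    have h2 := QBa.c1 l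
    calc ‖ET (rr l) (tau l) v‖ ≤ 15 * tau l * (4 * rr l * ε) :=
          ((hE l).2.2.2.2.1.trans h1).trans (by gcongr)
      _ = 60 * π * sg l ^ 8 * ε := by rw [tau, rr]; ring
      _ ≤ Real.exp (rr l) * ε := by gcongr
      _ ≤ _ := by
          rw [hej, ← Real.exp_add, Real.exp_le_exp]
          linarith [QBa.rr_le_sq l]
  have hQ : ‖QQ n L m w‖ ≤ Real.exp (2 / p * a * (b.re + 1)) := by
    have h1 := QBa.prod_le (fun k => ‖ET (rr k) (tau k) v‖ ^ m k) L l (fun k => by positivity)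
      (fun k hk => by simp [hm k hk]) fun k hk =>
        pow_le_one₀ (norm_nonneg _) ((hE k).2.2.1
          (by linarith [(abs_le.1 hvn).2, rr_lt hk])).2
    have h2 : ∏ k ∈ Finset.range l, ‖ET (rr k) (tau k) v‖ ^ m k ≤
        Real.exp ((∑ k ∈ Finset.range l, m k * tau k) * w.re) := by
      rw [Finset.sum_mul, Real.exp_sum]
      refine Finset.prod_le_prod (fun k _ => by positivity) fun k _ => ?_
      rw [mul_assoc, Real.exp_nat_mul, ← hvre]
      gcongr
      exact (hE k).2.2.2.1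
    have h3 : ‖ET (rr l) (tau l) v‖ ^ m l ≤ Real.exp (m l * -(a * (b.re + 1))) := by
      rw [Real.exp_nat_mul]
      gcongr
    have h4 : 0 ≤ (m l + 2 / p) * a := by positivity
    have h5 : (n + ∑ k ∈ Finset.range l, m k * tau k) * w.re ≤ (m l + 2 / p) * a * (b.re + 1) :=
      mul_le_mul (hA.trans_eq (by rw [ha]; ring)) hx hw0 h4
    calc ‖QQ n L m w‖
        = Real.exp (n * w.re) * ∏ k ∈ Finset.range L, ‖ET (rr k) (tau k) v‖ ^ m k := by
          rw [QQ, norm_mul, norm_prod, Complex.norm_exp]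
          simp [hv]
      _ ≤ Real.exp (n * w.re) * (Real.exp ((∑ k ∈ Finset.range l, m k * tau k) * w.re) *
            Real.exp (m l * -(a * (b.re + 1)))) := by
          gcongr
          exact h1.trans (by gcongr)
      _ ≤ _ := by
          rw [← Real.exp_add, ← Real.exp_add, Real.exp_le_exp]
          linarith
  have hQp : ‖QQ n L m w‖ ^ p ≤ Real.exp (2 * a * (b.re + 1)) := by
    refine (Real.rpow_le_rpow (norm_nonneg _) hQ (by linarith)).trans_eq ?_
    rw [← Real.exp_mul]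
    congr 1
    field_simp
  have h6 := QBa.c2 l
  have hτ0 := tau_pos l
  calc ‖QQ n L m w‖ ^ p * (π * (2 * β * ε) ^ 2) * (3 * tau l * rr l)
      ≤ Real.exp (2 * a * (b.re + 1)) * (π * (4 * rr l * ε) ^ 2) * (3 * tau l * rr l) := by
        gcongr
    _ = Real.exp (2 * a * (b.re + 1)) * (48 * π ^ 2 * sg l ^ 12) * (ε * ε) := by
        rw [tau, rr]; ring
    _ ≤ Real.exp (2 * a * (b.re + 1)) * Real.exp (rr l) * (ε * ε) := by gcongr
    _ ≤ Real.exp (-sg l) := by
        rw [hej, ← Real.exp_add, ← Real.exp_add, ← Real.exp_add, Real.exp_le_exp]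
        have h7 : 2 * rr l ≤ rr l ^ 2 := by
          rw [sq]
          exact mul_le_mul_of_nonneg_right (by linarith) (rr_pos l).le
        linarith [QBa.sg_le_rr l]
    _ ≤ (1 / 2) ^ (l + 5) := exp_sg_le l
    _ ≤ (1 / 2) ^ (l + 1) := pow_le_pow_of_le_one (by norm_num) (by norm_num) (by omega)

end Pool.Agent.P.MP_56bcbf_an.R

end

section

/-! Step QC. -/

namespace Pool.Agent.P.MP_56bcbf_an.R

open Set Metric Filter Topology Complex MeasureTheory Real
open scoped ENNReal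

namespace QCa

theorem bnd {f : ℂ → ℂ} {s : Set ℂ} {a : ℂ} {η p c : ℝ} (hp : 0 ≤ p) (hη : 0 < η)
    (hs : s ⊆ closedBall a η) (h : ∀ z ∈ s, ‖f z‖ ^ p * (π * η ^ 2) ≤ c) :
    ∫⁻ z in s, ‖f z‖ₑ ^ p ≤ ENNReal.ofReal c := by
  have h0 : 0 < π * η ^ 2 := by positivity
  have h1 : volume s ≤ ENNReal.ofReal (π * η ^ 2) := (measure_mono hs).trans_eq (by
    rw [Complex.volume_closedBall, mul_comm π, ENNReal.ofReal_mul (by positivity),
      ENNReal.ofReal_pow hη.le, ← NNReal.coe_real_pi, ENNReal.ofReal_coe_nnreal])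
  refine (setLIntegral_mono (g := fun _ => ENNReal.ofReal (c / (π * η ^ 2))) measurable_const
    fun z hz => ?_).trans ?_
  · rw [← ofReal_norm, ENNReal.ofReal_rpow_of_nonneg (norm_nonneg _) hp]
    exact ENNReal.ofReal_le_ofReal ((le_div_iff₀ h0).2 (h z hz))
  · rw [setLIntegral_const]
    refine (mul_le_mul_right h1 _).trans_eq ?_
    rw [← ENNReal.ofReal_mul' h0.le, div_mul_cancel₀ _ h0.ne']

theorem tot (h : ∀ l, (ZZ l).Finite ∧ ((ZZ l).ncard : ℝ) ≤ 3 * tau l * rr l) :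
    ∑' j : JJ, ENNReal.ofReal ((1 / 2) ^ (j.1 + 1) / (3 * tau j.1 * rr j.1)) ≤ 1 := by
  have e := ENNReal.ofReal_tsum_of_nonneg (fun _ => by positivity) (summable_geometric_two' 1)
  rw [tsum_geometric_two', ENNReal.ofReal_one] at e
  rw [ENNReal.tsum_sigma', e]
  refine ENNReal.tsum_le_tsum fun l => ?_
  have h0 : 0 < 3 * tau l * rr l := mul_pos (mul_pos three_pos (tau_pos l)) (rr_pos l)
  simp only
  rw [ENNReal.tsum_set_const, ← (h l).1.cast_ncard_eq, ENat.toENNReal_coe, ← ENNReal.ofReal_natCast,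
    ← ENNReal.ofReal_mul (Nat.cast_nonneg _)]
  refine ENNReal.ofReal_le_ofReal ((mul_le_mul_of_nonneg_right (h l).2 (by positivity)).trans_eq ?_)
  rw [mul_div_cancel₀ _ h0.ne', pow_succ', one_div_pow, mul_one_div]

end QCa

theorem p_QC (hBEAD : S_BEAD) (hQA : S_QA) (hQB : S_QB) :
    S_QC := by
  intro t p i n L m ht hp hm hm0 hs
  have p0 : 0 < p := one_pos.trans_le hp
  obtain ⟨-, b2, b3⟩ := hBEAD
  have hB := (b3 t fun l => by linarith [ht l]).1
  have : ∀ l, Finite (ZZ l) := fun l => (b2 l).1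
  set E := Real.exp (n * (rr i + 2))
  have hE : 1 ≤ E := Real.one_le_exp (mul_nonneg n.cast_nonneg (by linarith [rr_pos i]))
  have hA := QCa.bnd (f := fun z => QQ n L m z⁻¹) (a := 0) (c := E ^ p * π)
    (s := {z | z ∈ DD ∧ (‖z⁻¹‖ ≤ rr i + 2 ∨ (z⁻¹).re ≤ gw z⁻¹)}) p0.le one_pos
    (fun z hz => ball_subset_closedBall (DD_ball hz.1)) fun z hz => by
      rw [one_pow, mul_one]
      exact mul_le_mul_of_nonneg_right (Real.rpow_le_rpow (norm_nonneg _)
        ((hQA i n L m hm fun l h => hm0 l (.inl h)).2 _ (mem_DD.1 hz.1).1 (mem_DD.1 hz.1).2 hz.2)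
        p0.le) pi_pos.le
  have hJ := fun j : JJ => QCa.bnd (f := fun z => QQ n L m z⁻¹) (a := (bd j)⁻¹)
    (c := (1 / 2) ^ (j.1 + 1) / (3 * tau j.1 * rr j.1))
    (s := {z | z ∈ DD ∧ i < j.1 ∧ ‖z⁻¹ - bd j‖ ≤ 2 * ‖bd j‖ * ej t j}) p0.le
    (η := 2 * ‖bd j‖ * ej t j) (mul_pos (by linarith [hB.big j]) (hB.pos j))
    (fun z hz => by
      have a1 := (mem_DD.1 hz.1).2
      have a2 := hB.big j
      rw [mem_closedBall, dist_eq_norm, ← inv_inv z, inv_sub_inv (norm_pos_iff.1 (by linarith))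
        (norm_pos_iff.1 (by linarith)), norm_div, norm_mul, norm_sub_rev]
      exact (div_le_self (norm_nonneg _) (one_le_mul_of_one_le_of_one_le a1.le
        (by linarith))).trans hz.2.2)
    fun z hz => (le_div_iff₀ (mul_pos (mul_pos three_pos (tau_pos _)) (rr_pos _))).2
      (hQB t p n L m j _ ht hp (fun l h => hm0 l (.inr h)) (hs _ hz.2.1) (mem_DD.1 hz.1).1.le hz.2.2)
  rw [eLpNorm_eq_lintegral_rpow_enorm_toReal (ENNReal.ofReal_pos.2 p0).ne' ENNReal.ofReal_ne_top,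
    ENNReal.toReal_ofReal p0.le, one_div, ENNReal.rpow_inv_le_iff p0,
    ENNReal.ofReal_rpow_of_nonneg (by positivity) p0.le]
  refine (lintegral_mono_set fun z hz => ?_).trans ((lintegral_union_le _ _ _).trans
    ((add_le_add hA ((lintegral_iUnion_le _ _).trans ((ENNReal.tsum_le_tsum hJ).trans
      (QCa.tot b2)))).trans ?_))
  · rcases hz with ⟨a, b | b | ⟨j, b⟩⟩
    exacts [.inl ⟨a, .inl b⟩, .inl ⟨a, .inr b⟩, .inr (mem_iUnion.2 ⟨j, a, b⟩)]
  · have c1 : 1 ≤ E ^ p := Real.one_le_rpow hE p0.le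
    have c2 : (5 : ℝ) ≤ 5 ^ p := Real.self_le_rpow_of_one_le (by norm_num) hp
    rw [← ENNReal.ofReal_one, ← ENNReal.ofReal_add (by positivity) zero_le_one,
      Real.mul_rpow (by norm_num) (by positivity)]
    exact ENNReal.ofReal_le_ofReal (by nlinarith [pi_le_four])

end Pool.Agent.P.MP_56bcbf_an.R

end

section

/-! Step COMP. -/

namespace Pool.Agent.P.MP_56bcbf_an.R

open Set Metric Filter Topology Complex MeasureTheory Real
open scoped ENNReal

namespace COMPa

theorem bound {p q : ℝ≥0∞} [p.HolderConjugate q] {g k : ℂ → ℂ} {O S : Set ℂ} {a : ℂ} {ρ B : ℝ}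
    (hg : Measurable g) (hk : MemLp k q volume) (h0 : ∀ w ∉ O, k w = 0) (hS : MeasurableSet S)
    (hO : O ⊆ S) (hρ : 0 < ρ) (h : ∀ w ∈ O, ρ ≤ ‖w - a‖) (hB : 0 ≤ B)
    (hb : eLpNorm g p (volume.restrict S) ≤ ENNReal.ofReal B) :
    ‖cauchy (fun z => g z * k z) a‖ ≤ ρ⁻¹ * (B * (eLpNorm k q volume).toReal) := by
  rw [← ENNReal.ofReal_le_ofReal_iff (by positivity), ofReal_norm,
    ENNReal.ofReal_mul (by positivity), ENNReal.ofReal_mul hB, ENNReal.ofReal_toReal hk.2.ne]
  refine (enorm_integral_le_lintegral_enorm _).trans (le_trans (lintegral_mono (g := fun w =>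
    S.indicator (fun w => ENNReal.ofReal ρ⁻¹ * (‖g w‖ₑ * ‖k w‖ₑ)) w) fun w => ?_) ?_)
  · beta_reduce
    by_cases hw : w ∈ O
    · rw [indicator_of_mem (hO hw), ← enorm_mul, ← ofReal_norm, ← ofReal_norm,
        ← ENNReal.ofReal_mul (by positivity), norm_div, div_eq_inv_mul]
      gcongr
      exact h w hw
    · simp [h0 w hw]
  · rw [lintegral_indicator hS, lintegral_const_mul' _ _ ENNReal.ofReal_ne_top]
    exact mul_le_mul_right ((holder_enorm (p := p) (q := q) hg.aestronglyMeasurable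
      hk.1.restrict).trans (mul_le_mul' hb (eLpNorm_restrict_le _ _ _ _))) _

end COMPa

theorem p_COMP (hMULT : S_MULT) (hTAIL : S_TAIL) (hSCHED : S_SCHED) (hQA : S_QA) (hQC : S_QC) :
    S_COMP := by
  intro t p i U' ht hp hU hc hin k ⟨km, ki, kq, k0, kP⟩
  have := cj_conj hp.1
  have t1 : ∀ l, 1 ≤ t l := fun l => by
    linarith [ht l, pow_le_one₀ (n := l + 2) (show (0 : ℝ) ≤ 1 / 2 by norm_num) (by norm_num)]
  obtain ⟨hS, hT⟩ := hTAIL t i t1
  have hO : OM t i \ U' ⊆ DD := fun _ h => h.1.1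
  have hU' : U' ⊆ (closure (OM t i \ U'))ᶜ :=
    (disjoint_sdiff_left.closure_left hU).symm.subset_compl_right
  have hr := rr_ge i
  have hG : Good (OM t i \ U') k := by
    refine ⟨km, k0, fun τ => IntegrableOn.integrable_of_forall_notMem_eq_zero
      ((hT p τ hp.1).integrable_mul (kq.norm.restrict _)) fun z hz => by
        rw [k0 z fun h => hz h.1, norm_zero, mul_zero],
      cauchy_eq_zero km ki k0 (hO.trans DD_ball) one_pos kP (E := {c | c.re < 0})
        (convex_halfSpace_re_lt 0).isPreconnected (fun c hc h => ?_) (e := -2) (by simp) (by simp)⟩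
    exact not_le.2 (show c.re < 0 from hc) (closure_minimal (t := {c : ℂ | 0 ≤ c.re})
      (fun z hz => (hO hz).1.le) (isClosed_le continuous_const continuous_re) h)
  have key : ∀ a : ℂ, ‖a⁻¹ - 3 * rr i‖ < 1 → cauchy k a = 0 := fun a ha => by
    have a1 : 1 < (a⁻¹).re := by
      have := (abs_lt.1 ((abs_re_le_norm _).trans_lt ha)).1
      simp only [sub_re, mul_re, re_ofNat, ofReal_re, im_ofNat, ofReal_im] at this
      linarith
    have a2 : a ∈ DD := mem_DD.2 ⟨by linarith, a1.trans_le (re_le_norm _)⟩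
    obtain ⟨ρ, hρ, hs⟩ := exists_sep (hU' (hin a ha))
    have a3 : ∀ n : ℕ, ‖cauchy k a‖ ≤
        ρ⁻¹ * (5 * (eLpNorm k (cj p) volume).toReal) * Real.exp (4 - 2 * rr i) ^ n := fun n => by
      obtain ⟨L, m, m1, m2, m3⟩ := hSCHED t p i ht hp n
      have b1 := COMPa.bound (by unfold QQ ET EE gE; fun_prop) kq k0 hS sdiff_subset hρ
        (hs a (mem_ball_self hρ)) (by positivity) (hQC t p i n L m t1 hp.1 m1 m2 m3)
      rw [hMULT _ k a hO a2 (hU' (hin a ha)) hG, norm_mul] at b1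
      have b2 := (mul_le_mul_of_nonneg_right ((hQA i n L m m1 fun l h => m2 l (.inl h)).1 _ ha.le)
        (norm_nonneg _)).trans b1
      refine le_of_mul_le_mul_left (b2.trans_eq ?_) (Real.exp_pos _)
      rw [← Real.exp_nat_mul,
        show n * (rr i + 2) = n * (3 * rr i - 2) + n * (4 - 2 * rr i) by ring, Real.exp_add]
      ring
    have a4 := (tendsto_pow_atTop_nhds_zero_of_lt_one (Real.exp_pos (4 - 2 * rr i)).le
      (Real.exp_lt_one_iff.2 (by linarith))).const_mul (ρ⁻¹ * (5 * (eLpNorm k (cj p) volume).toReal))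
    exact norm_le_zero_iff.1 ((ge_of_tendsto' a4 a3).trans_eq (mul_zero _))
  have h3 : (3 * rr i : ℂ) ≠ 0 := mul_ne_zero three_ne_zero (ofReal_ne_zero.2 (rr_pos i).ne')
  refine (((differentiableOn_cauchy km ki k0).analyticOnNhd isClosed_closure.isOpen_compl).mono
    hU').eqOn_zero_of_preconnected_of_eventuallyEq_zero hc (hin (3 * rr i)⁻¹ (by simp)) ?_
  exact (((continuousAt_inv₀ (inv_ne_zero h3)).sub continuousAt_const).norm.eventually_lt
    continuousAt_const (by simp)).mono key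

end Pool.Agent.P.MP_56bcbf_an.R

end
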