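import Pool.Agent.P.MP_56bcbf_an.R.Iface

section

/-! Step POLES. -/

namespace Pool.Agent.P.MP_56bcbf_an.R

open Set Metric Filter Topology Complex MeasureTheory Real
open scoped ENNReal

namespace POLESa

theorem remove {V : Set ℂ} {S : Finset ℂ} {G : ℂ → ℂ} (hV : IsOpen V) (hS : (S : Set ℂ) ⊆ V)
    (hd : ∀ w ∈ closure V, w ∉ S → DifferentiableAt ℂ G w)
    (h0 : ∀ b ∈ S, Tendsto (fun w => (w - b) * G w) (𝓝[≠] b) (𝓝 0)) :
    ∃ G' : ℂ → ℂ, (∀ w ∉ S, G' w = G w) ∧ ∀ w ∈ closure V, DifferentiableAt ℂ G' w := by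
  classical
  refine ⟨fun w => if w ∈ S then limUnder (𝓝[≠] w) G else G w, fun w hw => if_neg hw,
    fun b hb => ?_⟩
  have hn : ∀ᶠ w in 𝓝 b, w ∉ S.erase b :=
    (S.erase b).finite_toSet.isClosed.isOpen_compl.mem_nhds (by simp)
  by_cases h : b ∈ S
  · have hs : {w | w ∈ V ∧ w ∉ S.erase b} ∈ 𝓝 b := inter_mem (hV.mem_nhds (hS h)) hn
    have h1 : Tendsto (fun w => (w - b) * G b) (𝓝[≠] b) (𝓝 0) :=
      (Continuous.tendsto' (by fun_prop) b 0 (by simp)).mono_left nhdsWithin_le_nhds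
    have h2 := differentiableOn_update_limUnder_of_isLittleO (f := G) hs
      (fun w hw => (hd w (subset_closure hw.1.1) fun k =>
        hw.1.2 (Finset.mem_erase.2 ⟨hw.2, k⟩)).differentiableWithinAt)
      (Asymptotics.isLittleO_of_tendsto (fun w hw => by
        rw [inv_eq_zero, sub_eq_zero] at hw
        rw [hw, sub_self]) (by simpa [mul_sub, mul_comm] using h0 b h |>.sub h1))
    refine (h2.differentiableAt hs).congr_of_eventuallyEq (hn.mono fun w hw => ?_)
    rcases eq_or_ne w b with rfl | k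
    · simp [h]
    · have : w ∉ S := fun k' => hw (Finset.mem_erase.2 ⟨k, k'⟩)
      simp [this, k]
  · rw [Finset.erase_eq_of_notMem h] at hn
    exact (hd b hb h).congr_of_eventuallyEq (hn.mono fun w hw => if_neg hw)

theorem tend {S : Finset ℂ} (c : ℂ → ℂ) {b : ℂ} (hb : b ∈ S) :
    Tendsto (fun w => (w - b) * ∑ b' ∈ S, c b' / (w - b')) (𝓝[≠] b) (𝓝 (c b)) := by
  classical
  have h : ∀ b' ∈ S, Tendsto (fun w => (w - b) * (c b' / (w - b'))) (𝓝[≠] b)
      (𝓝 (if b = b' then c b' else 0)) := fun b' _ => by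
    split_ifs with k
    · subst k
      refine tendsto_const_nhds.congr' (eventually_mem_nhdsWithin.mono fun w hw => ?_)
      exact (mul_div_cancel₀ _ (sub_ne_zero.2 hw)).symm
    · have : ContinuousAt (fun w => (w - b) * (c b' / (w - b'))) b := by
        have := sub_ne_zero.2 k
        fun_prop (disch := assumption)
      simpa using this.tendsto.mono_left nhdsWithin_le_nhds
  simpa [Finset.mul_sum, hb] using tendsto_finsetSum S h

theorem norm_le (S : Finset ℂ) (c : ℂ → ℂ) (w : ℂ) :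
    ‖∑ b ∈ S, c b / (w - b)‖ ≤ ∑ b ∈ S, ‖c b‖ / ‖w - b‖ :=
  (norm_sum_le _ _).trans_eq (Finset.sum_congr rfl fun _ _ => norm_div _ _)

end POLESa

theorem p_POLES :
    S_POLES := by
  intro V S H c M hV hb hS hd ht hM a ha haS
  obtain ⟨G, h1, h2⟩ := POLESa.remove (G := fun w => H w - ∑ b ∈ S, c b / (w - b)) hV hS
    (fun w hw k => (hd w hw k).sub (DifferentiableAt.fun_sum fun b hb =>
      (differentiableAt_const _).div (by fun_prop) (sub_ne_zero.2 fun e => k (e ▸ hb))))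
    fun b hb => by simpa [mul_sub] using (ht b hb).sub (POLESa.tend c hb)
  have h3 : ‖G a‖ ≤ M := norm_le_of_forall_mem_frontier_norm_le hb
    (DifferentiableOn.diffContOnCl fun w hw => (h2 w hw).differentiableWithinAt)
    (fun w hw => by
      rw [h1 w fun k => (hV.frontier_eq ▸ hw).2 (hS k)]
      exact (norm_sub_le_of_le le_rfl (POLESa.norm_le S c w)).trans (hM w hw))
    (subset_closure ha)
  rw [h1 a haS] at h3
  have h4 := norm_le_norm_sub_add (H a) (∑ b ∈ S, c b / (a - b))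
  linarith [POLESa.norm_le S c a]

end Pool.Agent.P.MP_56bcbf_an.R

end

section

/-! Step MV. -/

namespace Pool.Agent.P.MP_56bcbf_an.R

open Set Metric Filter Topology Complex MeasureTheory Real
open scoped ENNReal

namespace MVa

theorem ball_bd {Ω : Set ℂ} {p : ℝ} (P : Polynomial ℂ) {c : ℂ} {e : ℝ} (hp : 1 ≤ p)
    (hb : Bornology.IsBounded Ω) (hm : MeasurableSet Ω) (he : 0 < e) (hs : ball c e ⊆ Ω) :
    ‖P.eval c‖ ≤ e⁻¹ ^ (2 / p) * Np p Ω P := by
  have hp0 : 0 < p := by linarith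
  have hA : 0 < π * e ^ 2 := by positivity
  have hv : volume (ball c e) = ENNReal.ofReal (π * e ^ 2) := by
    rw [Complex.volume_ball, ← ENNReal.ofReal_pow he.le, mul_comm π, ENNReal.ofReal_mul (by positivity),
      ← NNReal.coe_real_pi, ENNReal.ofReal_coe_nnreal]
  have hfin := (memLp_eval hm hb (ENNReal.ofReal p) P.continuous).2.ne
  have h1 := area_mean P.differentiable c he
  have h2 := eLpNorm_le_eLpNorm_mul_rpow_measure_univ (f := fun z => P.eval z)
    (μ := volume.restrict (ball c e)) (ENNReal.one_le_ofReal.2 hp) P.continuous.aestronglyMeasurable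
  rw [eLpNorm_one_eq_lintegral_enorm, Measure.restrict_apply_univ, hv, ENNReal.toReal_one,
    ENNReal.toReal_ofReal hp0.le, ENNReal.ofReal_rpow_of_pos hA] at h2
  have h3 := eLpNorm_mono_measure (p := ENNReal.ofReal p) (fun z => P.eval z)
    (Measure.restrict_mono (μ := volume) (ν := volume) hs le_rfl)
  have h4 := ENNReal.toReal_mono (ENNReal.mul_ne_top hfin ENNReal.ofReal_ne_top)
    (h1.trans (h2.trans (mul_le_mul_left h3 _)))
  rw [ENNReal.toReal_mul, ENNReal.toReal_mul, ENNReal.toReal_ofReal hA.le,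
    ENNReal.toReal_ofReal (by positivity), toReal_enorm, Real.rpow_sub hA, div_one, Real.rpow_one]
    at h4
  have h5 : e ^ (2 / p) ≤ (π * e ^ 2) ^ (1 / p) := by
    rw [show 2 / p = ((2 : ℕ) : ℝ) * (1 / p) by push_cast; ring, Real.rpow_mul he.le,
      Real.rpow_natCast]
    exact Real.rpow_le_rpow (by positivity)
      (le_mul_of_one_le_left (by positivity) (by linarith [Real.pi_gt_three])) (by positivity)
  have h6 : 0 < e ^ (2 / p) := by positivity
  have h7 : 0 ≤ Np p Ω P := ENNReal.toReal_nonneg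
  rw [Real.inv_rpow he.le, inv_mul_eq_div]
  refine le_trans ?_ (div_le_div_of_nonneg_left h7 h6 h5)
  rw [← mul_div_assoc, mul_comm _ (π * e ^ 2), mul_div_assoc] at h4
  exact le_of_mul_le_mul_left h4 hA

end MVa

theorem p_MV :
    S_MV := by
  refine ⟨fun Ω p P w η hp hb hm hη hw hΩ => ?_, fun Ω p a C hp hO hb ha hC hE => ?_⟩
  · have hW : 0 < ‖w‖ := hη.trans_le hw
    have hw0 : w ≠ 0 := norm_pos_iff.1 hW
    have := MVa.ball_bd P (c := w⁻¹) (e := η / (2 * ‖w‖ ^ 2)) hp hb hm (by positivity)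
      fun z hz => hΩ z ?_
    · rwa [inv_div] at this
    rw [mem_ball, dist_eq_norm, lt_div_iff₀ (by positivity)] at hz
    have h1 : ‖z * w - 1‖ = ‖z - w⁻¹‖ * ‖w‖ := by
      rw [← norm_mul, sub_mul, inv_mul_cancel₀ hw0]
    have h2 : 1 - ‖z‖ * ‖w‖ ≤ ‖z * w - 1‖ := by
      rw [norm_sub_rev, ← norm_mul]
      simpa using norm_sub_norm_le 1 (z * w)
    have h3 : ‖z * w - 1‖ * (2 * ‖w‖) < η := by rw [h1]; nlinarith
    have h4 : ‖z * w - 1‖ < 1 / 2 := by nlinarith
    have h5 : 1 / 2 < ‖z‖ * ‖w‖ := by linarith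
    have hz0 : 0 < ‖z‖ := by nlinarith [norm_nonneg z]
    have h6 : z⁻¹ - w = -(z * w - 1) / z := by
      have := norm_pos_iff.1 hz0
      field_simp
      ring
    rw [h6, norm_div, norm_neg, div_lt_iff₀ hz0]
    nlinarith [norm_nonneg (z * w - 1)]
  · obtain ⟨ρ, hρ, hs⟩ := exists_sep ha
    have hs := hs a (mem_ball_self hρ)
    have hne : ∀ z ∈ Ω, z - a ≠ 0 := fun z hz => norm_pos_iff.1 (hρ.trans_le (hs z hz))
    have : IsFiniteMeasure (volume.restrict Ω) := ⟨by simpa using hb.measure_lt_top⟩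
    have hf : (fun z => (z - a)⁻¹) ∈ Lpa (ENNReal.ofReal p) Ω := by
      refine ⟨MemLp.of_bound (Measurable.aestronglyMeasurable (by fun_prop)) ρ⁻¹ ?_, _,
        (differentiableOn_id.sub_const a).inv hne, .of_forall fun _ => rfl⟩
      filter_upwards [ae_restrict_mem hO.measurableSet] with z hz
      rw [norm_inv]
      exact inv_anti₀ hρ (hs z hz)
    rw [← hE] at hf
    obtain ⟨B, hB0, hB⟩ := (hb.sub (Bornology.isBounded_singleton (x := a))).exists_pos_norm_le
    set K := (|C| + 1) * B with hK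
    have hK0 : 0 < K := by positivity
    obtain ⟨P, hP⟩ := hf.2 (ENNReal.ofReal K⁻¹) (by simpa using hK0)
    have h1 := hC (1 - (Polynomial.X - Polynomial.C a) * P)
    have h2 : eLpNorm (fun z => (1 - (Polynomial.X - Polynomial.C a) * P).eval z)
        (ENNReal.ofReal p) (volume.restrict Ω) ≤ ENNReal.ofReal B *
          eLpNorm (fun z => (z - a)⁻¹ - P.eval z) (ENNReal.ofReal p) (volume.restrict Ω) := by
      refine eLpNorm_le_mul_eLpNorm_of_ae_le_mul ?_ _
      filter_upwards [ae_restrict_mem hO.measurableSet] with z hz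
      have e : (1 - (Polynomial.X - Polynomial.C a) * P).eval z = (z - a) * ((z - a)⁻¹ - P.eval z) := by
        rw [mul_sub, mul_inv_cancel₀ (hne z hz)]
        simp
      rw [e, norm_mul]
      exact mul_le_mul_of_nonneg_right (hB _ (sub_mem_sub hz rfl)) (norm_nonneg _)
    have h3 := ENNReal.toReal_mono (ENNReal.mul_ne_top ENNReal.ofReal_ne_top ENNReal.ofReal_ne_top)
      (h2.trans (mul_le_mul_right hP.le _))
    rw [ENNReal.toReal_mul, ENNReal.toReal_ofReal hB0.le, ENNReal.toReal_ofReal (by positivity)]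
      at h3
    have h4 : 0 ≤ Np p Ω (1 - (Polynomial.X - Polynomial.C a) * P) := ENNReal.toReal_nonneg
    have h5 : B * K⁻¹ * (|C| + 1) = 1 := by rw [hK]; field_simp
    have h6 : 0 < B * K⁻¹ := by positivity
    have h7 := mul_le_mul (le_abs_self C) h3 h4 (abs_nonneg C)
    simp only [Polynomial.eval_sub, Polynomial.eval_one, Polynomial.eval_mul, Polynomial.eval_X,
      Polynomial.eval_C, sub_self, zero_mul, sub_zero, norm_one] at h1
    change C * Np p Ω _ ≤ _ at h7
    nlinarith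

end Pool.Agent.P.MP_56bcbf_an.R

end

section

/-! Step INCL. -/

namespace Pool.Agent.P.MP_56bcbf_an.R

open Set Metric Filter Topology Complex MeasureTheory Real
open scoped ENNReal

namespace INCLa

theorem norm_exp_sq (v : ℂ) : ‖cexp (17 * v ^ 2)‖ = Real.exp (34 * v.re ^ 2 - 17 * ‖v‖ ^ 2) := by
  rw [Complex.norm_exp, Complex.sq_norm, normSq_apply]
  congr 1
  simp [pow_two]
  ring

theorem rho_ge {w : ℂ} (h : w.re = gw w / 2) : 3 / 2 ≤ ‖w‖ := by
  by_contra hc
  have h1 := Complex.re_le_norm w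
  have h2 := norm_nonneg w
  have h3 := Real.quadratic_le_exp_of_nonneg (show (0 : ℝ) ≤ 7 / 4 by norm_num)
  have h4 : Real.exp (7 / 4) ≤ gw w := Real.exp_le_exp.2 (by nlinarith)
  linarith

theorem part1 {w w' : ℂ} (h : w.re = gw w / 2) (h' : ‖w' - w‖ < Real.exp (-(3 * ‖w‖ ^ 2))) :
    1 < ‖w'‖ ∧ 0 < w'.re ∧ w'.re < gw w' := by
  have h1 := rho_ge h
  have hg : 0 < gw w := Real.exp_pos _
  have e0 := Real.exp_pos (-(3 * ‖w‖ ^ 2))
  have e1 : Real.exp (-(3 * ‖w‖ ^ 2)) * (8 * ‖w‖) ≤ 1 := by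
    have a1 := Real.quadratic_le_exp_of_nonneg (show 0 ≤ 3 * ‖w‖ ^ 2 by positivity)
    rw [Real.exp_neg, inv_mul_le_iff₀ (Real.exp_pos _)]
    nlinarith [sq_nonneg (‖w‖ ^ 2 - 1), sq_nonneg (‖w‖ - 1)]
  have e2 : Real.exp (-(3 * ‖w‖ ^ 2)) * 8 ≤ gw w := by
    have a1 := Real.add_one_le_exp (4 + 2 * ‖w‖ ^ 2)
    calc _ ≤ Real.exp (-(3 * ‖w‖ ^ 2)) * Real.exp (4 + 2 * ‖w‖ ^ 2) := by
          gcongr
          nlinarith
      _ = _ := by
          rw [← Real.exp_add, gw]
          ring_nf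
  have e3 := abs_le.1 ((abs_norm_sub_norm_le w' w).trans h'.le)
  have e4 := abs_lt.1 ((Complex.abs_re_le_norm (w' - w)).trans_lt h')
  rw [sub_re] at e4
  have e5 : gw w * (5 / 8) ≤ gw w' := by
    have a1 := Real.add_one_le_exp (-(3 / 8))
    calc _ ≤ gw w * Real.exp (-(3 / 8)) := by gcongr; linarith
      _ ≤ _ := by
          rw [gw, ← Real.exp_add, gw]
          have a2 := norm_nonneg w'
          have a3 : ‖w'‖ ^ 2 ≤ (‖w‖ + Real.exp (-(3 * ‖w‖ ^ 2))) ^ 2 := by gcongr; linarith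
          have a4 : Real.exp (-(3 * ‖w‖ ^ 2)) ≤ 1 / 12 := by nlinarith
          exact Real.exp_le_exp.2 (by nlinarith)
  exact ⟨by nlinarith, by linarith, by linarith⟩

theorem tr_le (l : ℕ) : 30 * tau l * rr l ≤ Real.exp (rr l) := by
  have := poly_le l (c := 30 * π) (a := 2) (n := 8) (by linarith [pi_le_four]) (by norm_num)
  rw [tau, rr] at *
  linarith

theorem prod_ge (hEB : S_EB) (hPROD : S_PROD) (L : ℕ) {w : ℂ} (h : w.re = gw w / 2) :
    Real.exp (-‖w - I / 2‖ ^ 2) / 2 ≤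
      ‖∏ k ∈ Finset.range (L + 1), EE (rr k) (tau k) (w - I / 2)‖ := by
  have h1 := rho_ge h
  have hg : 0 < gw w := Real.exp_pos _
  have h2 := abs_le.1 (abs_norm_sub_norm_le (w - I / 2) w)
  have h3 : ‖w - I / 2 - w‖ = 1 / 2 := by simp
  have hre : (w - I / 2).re = gw w / 2 := by simp [h]
  have h0 : w - I / 2 ≠ 0 := norm_pos_iff.1 (by linarith)
  generalize w - I / 2 = v at *
  by_cases hc : ∃ l ∈ Finset.range (L + 1), rr l < 2 * ‖v‖ ∧ ‖v‖ < 2 * rr l
  · obtain ⟨l, hl, a1, a2⟩ := hc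
    have r1 := rr_ge l
    have t1 := tau_ge l
    have a3 := tr_le l
    have a4 : Real.exp (-rr l) ≤ 1 / (30 * tau l * rr l) := by
      rw [Real.exp_neg, one_div]
      gcongr
    have a5 : gw w ≤ Real.exp (-rr l) := Real.exp_le_exp.2 (by nlinarith)
    have a6 : 1 / (30 * tau l * rr l) ≤ 2 * (1 / (60 * tau l)) := by
      rw [mul_one_div, div_le_div_iff₀ (by positivity) (by positivity)]
      nlinarith
    have a7 := (((hEB (rr l) (tau l) (by linarith) t1).2.2.2 (tau_rr l)).1 v h0 (by linarith)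
      (by linarith))
    have a8 := (hPROD v ((Finset.range (L + 1)).erase l) (by linarith) h0).1 fun k hk => by
      have := rr_pos k
      rcases lt_or_gt_of_ne (Finset.ne_of_mem_erase hk) with b | b
      · exact Or.inr (by linarith [rr_lt b])
      · exact Or.inl (by linarith [rr_lt b])
    have a9 : Real.exp (-‖v‖ ^ 2) ≤ Real.exp (-rr l) := Real.exp_le_exp.2 (by nlinarith)
    rw [← Finset.mul_prod_erase _ _ hl, norm_mul, div_eq_mul_one_div]
    gcongr
    linarith
  · push Not at hc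
    refine le_trans ?_ ((hPROD v _ (by linarith) h0).1 fun k hk => ?_)
    · gcongr
      exact Real.exp_le_one_iff.2 (by nlinarith)
    · exact (le_or_gt _ _).imp_right (hc k hk)

end INCLa

open INCLa in
theorem p_INCL (hEA : S_EA) (hEB : S_EB) (hPROD : S_PROD) :
    S_INCL := by
  refine ⟨fun w h => ⟨rho_ge h, fun w' => part1 h⟩,
    ⟨2 * Real.exp (34 * Real.exp 4 ^ 2 + 4), fun L w h => ?_⟩, fun L w h hv => ?_,
    ‖cexp (17 * (4 - I / 2) ^ 2)‖ / 2, half_pos (norm_pos_iff.2 (Complex.exp_ne_zero _)),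
    fun L => ?_⟩
  · have h1 := prod_ge hEB hPROD L h
    have h2 := abs_le.1 (abs_norm_sub_norm_le (w - I / 2) w)
    have h3 : ‖w - I / 2 - w‖ = 1 / 2 := by simp
    have hre : (w - I / 2).re = gw w / 2 := by simp [h]
    have hg : 0 < gw w := Real.exp_pos _
    have hg' : gw w ≤ Real.exp 4 := Real.exp_le_exp.2 (by nlinarith)
    have h4 := Real.quadratic_le_exp_of_nonneg (sq_nonneg ‖w‖)
    have h5 : 2 * ‖w‖ ^ 2 ≤ Real.exp (‖w‖ ^ 2) := by nlinarith [sq_nonneg (‖w‖ ^ 2 - 1)]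
    rw [FL, norm_div, norm_exp_sq, hre]
    generalize w - I / 2 = v at *
    calc _ ≤ Real.exp (34 * (gw w / 2) ^ 2 - 17 * ‖v‖ ^ 2) / (Real.exp (-‖v‖ ^ 2) / 2) *
          (Real.exp (‖w‖ ^ 2) / Real.exp (-(3 * ‖w‖ ^ 2))) ^ 2 := by gcongr
      _ = 2 * Real.exp (34 * (gw w / 2) ^ 2 - 16 * ‖v‖ ^ 2 + 8 * ‖w‖ ^ 2) := by
          rw [div_div_eq_mul_div, mul_div_right_comm, ← Real.exp_sub, ← Real.exp_sub,
            ← Real.exp_nat_mul, mul_right_comm, ← Real.exp_add, mul_comm]
          congr 2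
          push_cast
          ring
      _ ≤ _ := by
          have h6 : ‖w‖ ^ 2 ≤ (‖v‖ + 1 / 2) ^ 2 := by gcongr; linarith
          gcongr 2 * Real.exp ?_
          nlinarith [sq_nonneg (‖v‖ - 1 / 2)]
  · have hre : 0 ≤ (w - I / 2).re := by simpa using h
    have r1 := rr_ge L
    rw [FL, norm_div, norm_exp_sq, Finset.prod_range_succ, norm_mul]
    generalize w - I / 2 = v at *
    have h0 : v ≠ 0 := norm_pos_iff.1 (by linarith)
    have h1 := (hPROD v (Finset.range L) hre h0).1 fun k hk =>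
      Or.inr (by linarith [rr_lt (Finset.mem_range.1 hk), rr_pos k])
    have h2 := (hEA (rr L) (tau L) v (rr_pos L) (tau_pos L).le hre h0).2.1 (by linarith)
    have h3 : rr L ^ 2 / ‖v‖ ^ 2 = 1 / 9 := by
      rw [hv]
      field_simp
      norm_num
    have h4 := Complex.re_le_norm v
    have h5 : 120 * rr L ≤ tau L := by
      have : tau L = π * rr L ^ 2 * rr L := by
        rw [tau, rr]
        ring
      rw [this]
      gcongr
      nlinarith [pi_gt_three]
    rw [h3] at h2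
    calc _ ≤ Real.exp (34 * v.re ^ 2 - 17 * ‖v‖ ^ 2) /
          (1 / 2 * Real.exp (tau L * v.re * (1 - 1 / 9))) := by gcongr
      _ = 2 * Real.exp (34 * v.re ^ 2 - 17 * ‖v‖ ^ 2 - tau L * v.re * (1 - 1 / 9)) := by
          rw [Real.exp_sub _ (_ * _ * _)]
          ring
      _ ≤ Real.exp 1 * Real.exp (-rr L - 1) := by
          gcongr ?_ * Real.exp ?_
          · linarith [Real.add_one_le_exp 1]
          · rw [hv] at h4 ⊢
            nlinarith [mul_le_mul_of_nonneg_right h5 hre, mul_le_mul_of_nonneg_right h4 hre]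
      _ = _ := by
          rw [← Real.exp_add]
          ring_nf
  · have h1 : ‖(4 : ℂ) - I / 2‖ ≤ 5 := (norm_sub_le _ _).trans (by simp; norm_num)
    have h2 := hPROD (4 - I / 2) (Finset.range (L + 1)) (by simp) fun h => by
      simpa using congrArg Complex.re h
    have h3 := h2.1 fun k _ => Or.inl (by linarith [rr_ge k])
    rw [FL, norm_div]
    gcongr
    exact h2.2 h1

end Pool.Agent.P.MP_56bcbf_an.R

end
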