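import Pool.Agent.P.MP_56bcbf_an.R.Iface

section

/-! Step KATO. -/

namespace Pool.Agent.P.MP_56bcbf_an.R

open Set Metric Filter Topology Complex MeasureTheory Real
open scoped ENNReal

namespace KATOa

theorem pointwise {p q : ℝ} (hpq : p.HolderConjugate q) {f : ℂ → ℂ} {R : ℝ}
    (h0 : ∀ w, R ≤ ‖w‖ → f w = 0) (z w : ℂ) :
    ‖f w / (w - z)‖ₑ ≤ (ball (0 : ℂ) R).indicator (fun w => ‖f w‖ₑ ^ p + 1) w +
      (ball z 1).indicator (fun w => ENNReal.ofReal (‖w - z‖ ^ (-q))) w := by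
  by_cases hw : w ∈ ball (0 : ℂ) R
  swap
  · rw [h0 w (by simpa using hw)]
    simp
  have h1 : ‖f w / (w - z)‖ ≤ ‖f w‖ ^ p + ‖w - z‖ ^ (-q) := by
    rw [norm_div, div_eq_mul_inv, Real.rpow_neg (norm_nonneg _), ← Real.inv_rpow (norm_nonneg _)]
    refine (Real.young_inequality_of_nonneg (norm_nonneg _) (by positivity) hpq).trans ?_
    exact add_le_add (div_le_self (by positivity) hpq.lt.le)
      (div_le_self (by positivity) hpq.symm.lt.le)
  have h2 : ‖f w / (w - z)‖ₑ ≤ ‖f w‖ₑ ^ p + ENNReal.ofReal (‖w - z‖ ^ (-q)) := by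
    rw [← ofReal_norm, ← ofReal_norm, ENNReal.ofReal_rpow_of_nonneg (norm_nonneg _) hpq.pos.le,
      ← ENNReal.ofReal_add (by positivity) (by positivity)]
    exact ENNReal.ofReal_le_ofReal h1
  rw [indicator_of_mem hw, add_assoc]
  refine h2.trans (add_le_add le_rfl ?_)
  by_cases hz : w ∈ ball z 1
  · rw [indicator_of_mem hz]
    exact le_add_self
  · refine le_trans ?_ le_self_add
    rw [mem_ball, dist_eq_norm, not_lt] at hz
    exact ENNReal.ofReal_le_one.2
      (Real.rpow_le_one_of_one_le_of_nonpos hz (neg_nonpos.2 hpq.symm.pos.le))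

theorem kato {f : ℂ → ℂ} {R : ℝ} {r : ℝ≥0∞} (hr : 2 < r) (hm : Measurable f)
    (hf : MemLp f r volume) (h0 : ∀ w, R ≤ ‖w‖ → f w = 0) : Kato f := by
  obtain ⟨p, -, h2, hpr⟩ := ENNReal.lt_iff_exists_real_btwn.1 hr
  have hp : 2 < p := by
    rwa [← ENNReal.ofReal_ofNat, ENNReal.ofReal_lt_ofReal_iff_of_nonneg (by norm_num)] at h2
  have hpq := Real.HolderConjugate.conjExponent (show 1 < p by linarith)
  have hq : Real.conjExponent p < 2 := by
    rw [Real.conjExponent, div_lt_iff₀ (by linarith)]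
    linarith
  have : IsFiniteMeasure (volume.restrict (ball (0 : ℂ) R)) :=
    isFiniteMeasure_restrict.2 measure_ball_lt_top.ne
  have h3 := ((hf.restrict (ball (0 : ℂ) R)).mono_exponent hpr.le).eLpNorm_lt_top
  have h4 := lintegral_rpow_enorm_lt_top_of_eLpNorm_lt_top
    (ENNReal.ofReal_pos.2 hpq.pos).ne' ENNReal.ofReal_ne_top h3
  rw [ENNReal.toReal_ofReal hpq.pos.le] at h4
  refine ⟨hm, (∫⁻ w in ball (0 : ℂ) R, ‖f w‖ₑ ^ p) + volume (ball (0 : ℂ) R) +
    ENNReal.ofReal (2 * π / (2 - p.conjExponent) * 1 ^ (2 - p.conjExponent)), ?_, fun z => ?_⟩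
  · exact ENNReal.add_ne_top.2 ⟨ENNReal.add_ne_top.2 ⟨h4.ne, measure_ball_lt_top.ne⟩,
      ENNReal.ofReal_ne_top⟩
  · refine (lintegral_mono (pointwise hpq h0 z)).trans (le_of_eq ?_)
    rw [lintegral_add_left (Measurable.indicator (by fun_prop) measurableSet_ball),
      lintegral_indicator measurableSet_ball, lintegral_indicator measurableSet_ball,
      lintegral_pow_kernel hq one_pos, lintegral_add_right _ measurable_const, setLIntegral_one]

variable {k : ℂ → ℂ} {R : ℝ}

theorem int_mul (hm : Measurable k) (hk : Integrable k) (h0 : ∀ w, R ≤ ‖w‖ → k w = 0) :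
    Integrable fun w => w * k w := by
  refine Integrable.mono' (hk.norm.const_mul R) (Measurable.aestronglyMeasurable (by fun_prop))
    (.of_forall fun w => ?_)
  rcases le_or_gt R ‖w‖ with h | h
  · simp [h0 w h]
  · rw [norm_mul]
    gcongr

theorem bound (h0 : ∀ w, R ≤ ‖w‖ → k w = 0) {z : ℂ} (hz : R < ‖z‖) (w : ℂ) :
    ‖k w / (w - z)‖ ≤ ‖k w‖ / (‖z‖ - R) := by
  rcases le_or_gt R ‖w‖ with h | h
  · simp [h0 w h]
  · rw [norm_div]
    have := norm_sub_norm_le z w
    rw [norm_sub_rev] at this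
    exact div_le_div_of_nonneg_left (norm_nonneg _) (by linarith) (by linarith)

theorem int_div (hm : Measurable k) (hk : Integrable k) (h0 : ∀ w, R ≤ ‖w‖ → k w = 0) {z : ℂ}
    (hz : R < ‖z‖) : Integrable fun w => k w / (w - z) :=
  Integrable.mono' (hk.norm.div_const _) (Measurable.aestronglyMeasurable (by fun_prop))
    (.of_forall (bound h0 hz))

theorem cauchy_mul (hm : Measurable k) (hk : Integrable k) (h0 : ∀ w, R ≤ ‖w‖ → k w = 0) {z : ℂ}
    (hz : R < ‖z‖) : cauchy (fun w => w * k w) z = (∫ w, k w) + z * cauchy k z := by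
  rw [cauchy, cauchy, ← integral_const_mul, ← integral_add hk ((int_div hm hk h0 hz).const_mul z)]
  refine integral_congr_ae (.of_forall fun w => ?_)
  rcases le_or_gt R ‖w‖ with h | h
  · simp [h0 w h]
  · have : w - z ≠ 0 := sub_ne_zero.2 fun e => by
      rw [e] at h
      linarith
    field_simp
    ring

theorem int_zero (hm : Measurable k) (hk : Integrable k) (h0 : ∀ w, R ≤ ‖w‖ → k w = 0)
    (hc : ∀ z, R < ‖z‖ → cauchy k z = 0) : ∫ w, k w = 0 := by
  have h1 : ∀ w, R ≤ ‖w‖ → w * k w = 0 := fun w h => by rw [h0 w h, mul_zero]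
  have hi := int_mul hm hk h0
  have hC : 0 ≤ ∫ w, ‖w * k w‖ := integral_nonneg fun w => norm_nonneg _
  have key : ∀ t : ℝ, 0 < t → ‖∫ w, k w‖ ≤ (∫ w, ‖w * k w‖) / t := by
    intro t ht
    have hn : ‖((|R| + t : ℝ) : ℂ)‖ = |R| + t := by
      rw [Complex.norm_real, Real.norm_of_nonneg (by positivity)]
    have hz : R < ‖((|R| + t : ℝ) : ℂ)‖ := by linarith [le_abs_self R]
    have h2 := cauchy_mul hm hk h0 hz
    rw [hc _ hz, mul_zero, add_zero] at h2
    rw [← h2, cauchy]
    refine (norm_integral_le_of_norm_le (hi.norm.div_const _)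
      (.of_forall (bound h1 hz))).trans ?_
    rw [integral_div]
    exact div_le_div_of_nonneg_left hC ht (by linarith [le_abs_self R])
  by_contra h
  have h3 : 0 < ‖∫ w, k w‖ := norm_pos_iff.2 h
  have h4 := key (((∫ w, ‖w * k w‖) + 1) / ‖∫ w, k w‖) (by positivity)
  rw [le_div_iff₀ (by positivity), mul_div_cancel₀ _ h3.ne'] at h4
  linarith

end KATOa

open KATOa in
theorem p_KATO :
    S_KATO := by
  refine ⟨fun f R r hr hm hf h0 => kato hr hm hf h0, fun k R hm hk h0 hc n => ?_⟩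
  induction n generalizing k with
  | zero => simpa using int_zero hm hk h0 hc
  | succ n ih =>
    have h := ih (fun w => w * k w) (by fun_prop) (int_mul hm hk h0)
      (fun w h => by rw [h0 w h, mul_zero]) fun z hz => by
        rw [cauchy_mul hm hk h0 hz, int_zero hm hk h0 hc, hc z hz, mul_zero, add_zero]
    simpa only [pow_succ, mul_assoc] using h

end Pool.Agent.P.MP_56bcbf_an.R

end

section

/-! Step PRULE. -/

namespace Pool.Agent.P.MP_56bcbf_an.R

open Set Metric Filter Topology Complex MeasureTheory Real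
open scoped ENNReal

namespace PRULEa

variable {f g : ℂ → ℂ}

theorem intg (hf : Kato f) (z : ℂ) : Integrable fun w => f w / (w - z) := by
  obtain ⟨hm, M, hM, h⟩ := hf
  exact ⟨(hm.div (by fun_prop)).aestronglyMeasurable, (h z).trans_lt hM.lt_top⟩

theorem meas (hf : Kato f) : Measurable (cauchy f) := by
  have hm := hf.1
  have : Measurable fun p : ℂ × ℂ => f p.2 / (p.2 - p.1) := by fun_prop
  exact (this.stronglyMeasurable.integral_prod_right' (ν := volume)).measurable

theorem bound (hf : Kato f) : ∃ M : ℝ, ∀ z, ‖cauchy f z‖ ≤ M := by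
  obtain ⟨-, M, hM, h⟩ := hf
  refine ⟨M.toReal, fun z => ?_⟩
  rw [← toReal_enorm]
  exact ENNReal.toReal_mono hM ((enorm_integral_le_lintegral_enorm _).trans (h z))

theorem dom (hf : Kato f) (C : ℝ) (hg : Measurable g) (h : ∀ w, ‖g w‖ ≤ C * ‖f w‖) : Kato g := by
  obtain ⟨-, M, hM, hb⟩ := hf
  refine ⟨hg, ENNReal.ofReal |C| * M, ENNReal.mul_ne_top ENNReal.ofReal_ne_top hM, fun z => ?_⟩
  refine le_trans (lintegral_mono fun w => ?_) ((lintegral_const_mul' _ _
    ENNReal.ofReal_ne_top).le.trans (mul_le_mul' le_rfl (hb z)))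
  rw [← ofReal_norm, ← ofReal_norm, ← ENNReal.ofReal_mul (abs_nonneg C),
    norm_div, norm_div, ← mul_div_assoc]
  exact ENNReal.ofReal_le_ofReal (div_le_div_of_nonneg_right
    ((h w).trans (mul_le_mul_of_nonneg_right (le_abs_self C) (norm_nonneg _))) (norm_nonneg _))

theorem intg2 (hf : Kato f) (hg : Kato g) (z : ℂ) :
    Integrable (fun p : ℂ × ℂ => f p.1 / (p.1 - z) * (g p.2 / (p.2 - p.1)))
      (volume.prod volume) := by
  obtain ⟨hf1, M, hM, h⟩ := hf
  obtain ⟨hg1, N, hN, k⟩ := hg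
  have hm : Measurable fun p : ℂ × ℂ => f p.1 / (p.1 - z) * (g p.2 / (p.2 - p.1)) := by fun_prop
  refine ⟨hm.aestronglyMeasurable, ?_⟩
  rw [hasFiniteIntegral_iff_enorm, lintegral_prod _ hm.enorm.aemeasurable]
  calc ∫⁻ u, ∫⁻ v, ‖f u / (u - z) * (g v / (v - u))‖ₑ
      ≤ ∫⁻ u, ‖f u / (u - z)‖ₑ * N := lintegral_mono fun u => by
        simp only [enorm_mul]
        rw [lintegral_const_mul' _ _ enorm_ne_top]
        exact mul_le_mul' le_rfl (k u)
    _ ≤ M * N := by
        rw [lintegral_mul_const' _ _ hN]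
        exact mul_le_mul' (h z) le_rfl
    _ < ∞ := ENNReal.mul_lt_top hM.lt_top hN.lt_top

theorem ae_ne (z : ℂ) : ∀ᵐ p : ℂ × ℂ ∂(volume.prod volume), p.1 ≠ z ∧ p.2 ≠ z ∧ p.1 ≠ p.2 := by
  rw [Measure.ae_prod_iff_ae_ae]
  · filter_upwards [compl_mem_ae_iff.2 (measure_singleton z)] with u hu
    filter_upwards [compl_mem_ae_iff.2 (measure_singleton z),
      compl_mem_ae_iff.2 (measure_singleton u)] with v h1 h2
    exact ⟨hu, h1, fun e => h2 e.symm⟩
  · exact (measurableSet_eq_fun measurable_fst measurable_const).compl.inter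
      ((measurableSet_eq_fun measurable_snd measurable_const).compl.inter
        (measurableSet_eq_fun measurable_fst measurable_snd).compl)

theorem rule (hf : Kato f) (hg : Kato g) (z : ℂ) :
    cauchy f z * cauchy g z = cauchy (fun w => f w * cauchy g w + g w * cauchy f w) z := by
  have hA := intg2 hf hg z
  have hB : Integrable (fun p : ℂ × ℂ => g p.2 / (p.2 - z) * (f p.1 / (p.1 - p.2)))
      (volume.prod volume) := (intg2 hg hf z).swap
  have e1 : ∀ {f g : ℂ → ℂ} (u : ℂ), ∫ v, f u / (u - z) * (g v / (v - u)) =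
      f u * cauchy g u / (u - z) := fun u => by
    rw [integral_const_mul, cauchy]
    ring
  have iA := hA.integral_prod_left
  have iB := (intg2 hg hf z).integral_prod_left
  simp only [e1] at iA iB
  calc cauchy f z * cauchy g z
      = ∫ p : ℂ × ℂ, f p.1 / (p.1 - z) * (g p.2 / (p.2 - z)) ∂(volume.prod volume) :=
        (integral_prod_mul (fun u => f u / (u - z)) fun v => g v / (v - z)).symm
    _ = ∫ p : ℂ × ℂ, (f p.1 / (p.1 - z) * (g p.2 / (p.2 - p.1)) +
          g p.2 / (p.2 - z) * (f p.1 / (p.1 - p.2))) ∂(volume.prod volume) := by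
        refine integral_congr_ae ?_
        filter_upwards [ae_ne z] with p ⟨h1, h2, h3⟩
        have k1 := sub_ne_zero.2 h1
        have k2 := sub_ne_zero.2 h2
        have k3 := sub_ne_zero.2 h3
        have k4 := sub_ne_zero.2 h3.symm
        field_simp
        ring
    _ = (∫ u, f u * cauchy g u / (u - z)) + ∫ v, g v * cauchy f v / (v - z) := by
        rw [integral_add hA hB, integral_prod _ hA, integral_prod_symm _ hB]
        simp only [e1]
    _ = _ := by
        rw [← integral_add iA iB, cauchy]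
        simp only [add_div]

end PRULEa

theorem p_PRULE :
    S_PRULE :=
  ⟨fun _ hf => ⟨PRULEa.meas hf, PRULEa.bound hf, PRULEa.intg hf,
    fun _ C hg h => PRULEa.dom hf C hg h⟩, fun _ _ hf hg z => PRULEa.rule hf hg z⟩

end Pool.Agent.P.MP_56bcbf_an.R

end

section

/-! Step PEXP. -/

namespace Pool.Agent.P.MP_56bcbf_an.R

open Set Metric Filter Topology Complex MeasureTheory Real
open scoped ENNReal

theorem p_PEXP (hPRULE : S_PRULE) :
    S_PEXP := by
  intro f hf
  obtain ⟨hm, ⟨M, hM⟩, hi, hk⟩ := hPRULE.1 f hf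
  have hfm := hf.1
  have hM0 : 0 ≤ M := (norm_nonneg _).trans (hM 0)
  have pw : ∀ (m : ℕ) z,
      cauchy f z ^ (m + 1) = cauchy (fun w => (m + 1) * cauchy f w ^ m * f w) z := by
    intro m
    induction m with
    | zero => intro z; simp
    | succ m ih =>
      intro z
      have hg : Kato fun w => (m + 1) * cauchy f w ^ m * f w :=
        hk _ (‖((m : ℂ) + 1)‖ * M ^ m) (by fun_prop) fun w => by
          rw [norm_mul, norm_mul, norm_pow]
          gcongr
          exact hM w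
      rw [pow_succ', ih z, hPRULE.2 f _ hf hg z]
      congr 1
      funext w
      rw [← ih w]
      push_cast
      ring
  refine fun z => ⟨fun m => pw m z, ?_⟩
  let F : ℕ → ℂ → ℂ := fun m w => (-cauchy f w) ^ m / m.factorial * -(f w / (w - z))
  have hb : ∀ m w, ‖F m w‖ ≤ M ^ m / m.factorial * ‖f w / (w - z)‖ := fun m w => by
    simp only [F, norm_mul, norm_neg, norm_div _ (m.factorial : ℂ), norm_pow, Complex.norm_natCast]
    gcongr
    exact hM w
  have iF : ∀ m, Integrable (F m) := fun m =>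
    ((hi z).norm.const_mul _).mono' (Measurable.aestronglyMeasurable (by fun_prop))
      (.of_forall (hb m))
  have h1 := hasSum_integral_of_summable_integral_norm iF (Summable.of_nonneg_of_le
    (fun m => integral_nonneg fun w => norm_nonneg _)
    (fun m => (integral_mono (iF m).norm ((hi z).norm.const_mul _) (hb m)).trans_eq
      (integral_const_mul _ _))
    ((Real.summable_pow_div_factorial M).mul_right _))
  have h2 : ∀ m, ∫ w, F m w = (-cauchy f z) ^ (m + 1) / (m + 1).factorial := fun m => by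
    rw [neg_pow, pw m z, cauchy, ← integral_const_mul, ← integral_div]
    congr 1
    funext w
    have a1 : (m.factorial : ℂ) ≠ 0 := Nat.cast_ne_zero.2 m.factorial_ne_zero
    have a2 : (m : ℂ) + 1 ≠ 0 := Nat.cast_add_one_ne_zero m
    simp only [F, Nat.factorial_succ]
    rw [neg_pow]
    push_cast
    field_simp
    ring
  have ex : ∀ x : ℂ, HasSum (fun m : ℕ => x ^ m / m.factorial) (cexp x) := fun x => by
    rw [Complex.exp_eq_exp_ℂ]
    exact NormedSpace.expSeries_div_hasSum_exp x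
  have h3 := (hasSum_nat_add_iff' 1).2 (ex (-cauchy f z))
  simp only [h2] at h1
  rw [Finset.sum_range_one, pow_zero, Nat.factorial_zero, Nat.cast_one, div_one] at h3
  rw [h3.unique h1, cauchy]
  congr 1
  funext w
  rw [((ex (-cauchy f w)).mul_right _).tsum_eq]
  ring

end Pool.Agent.P.MP_56bcbf_an.R

end

section

/-! Step PA. -/

namespace Pool.Agent.P.MP_56bcbf_an.R

open Set Metric Filter Topology Complex MeasureTheory Real
open scoped ENNReal

namespace PAa

theorem expo {q : ℝ≥0∞} (h : 2 < q) (h' : q ≠ ∞) :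
    ∃ s : ℕ, 0 < s ∧ 2 < q / ENNReal.ofReal (1 + (s : ℝ)⁻¹) := by
  have h1 : 2 < q.toReal := by simpa using ENNReal.toReal_strict_mono h' h
  obtain ⟨s, hs⟩ := exists_nat_one_div_lt (show 0 < q.toReal / 2 - 1 by linarith)
  refine ⟨s + 1, s.succ_pos, ?_⟩
  rw [← ENNReal.ofReal_toReal h', ← ENNReal.ofReal_div_of_pos (by positivity),
    ENNReal.ofNat_lt_ofReal, lt_div_iff₀ (by positivity)]
  rw [one_div] at hs
  push_cast
  linarith

theorem bd {a b : ℝ} {s : ℕ} (hs : 0 < s) (ha : 0 ≤ a) (hb : 0 ≤ b) (h : 1 < a * b ^ s) :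
    a / b ≤ a ^ (1 + (s : ℝ)⁻¹) := by
  have h1 : 0 < b ^ s := by
    by_contra h1
    nlinarith [mul_nonneg ha (neg_nonneg.2 (not_lt.1 h1))]
  rw [Real.rpow_add' ha (by positivity), Real.rpow_one, div_eq_mul_inv]
  refine mul_le_mul_of_nonneg_left ?_ ha
  rw [Real.le_rpow_inv_iff_of_pos (inv_nonneg.2 hb) ha (by exact_mod_cast hs), Real.rpow_natCast,
    inv_pow, inv_le_iff_one_le_mul₀ h1]
  exact h.le

end PAa

theorem p_PA (hKATO : S_KATO) (hPRULE : S_PRULE) (hPEXP : S_PEXP) :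
    S_PA := by
  intro Ω q k u hΩ hq hk hu
  by_cases hq' : q = ∞
  · exact ⟨k, hq' ▸ hk, hu⟩
  obtain ⟨km, ki, kq, k0, kP⟩ := hk
  obtain ⟨R, hR0, hR⟩ := hΩ.subset_ball_lt 0 0
  have hO : ∀ w, R ≤ ‖w‖ → w ∉ Ω := fun w h h' => h.not_gt (mem_ball_zero_iff.1 (hR h'))
  have kK := hKATO.1 k R q hq km kq fun w h => k0 w (hO w h)
  obtain ⟨Fm, -, kI, kD⟩ := hPRULE.1 k kK
  obtain ⟨s, hs, hr⟩ := PAa.expo hq hq'
  obtain ⟨B, hB⟩ : ∃ B, B = {w | 1 < ‖k w‖ * ‖cauchy k w‖ ^ s} := ⟨_, rfl⟩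
  have Bm : MeasurableSet B := hB ▸ measurableSet_lt measurable_const (by fun_prop)
  obtain ⟨g, hg⟩ : ∃ g, g = B.indicator fun w => k w / cauchy k w := ⟨_, rfl⟩
  have gm : Measurable g := hg ▸ (km.div Fm).indicator Bm
  have gK : Kato g := by
    refine hKATO.1 g R _ hr gm ((kq.norm_rpow_div _).mono' gm.aestronglyMeasurable
      (.of_forall fun w => ?_)) fun w h => ?_
    · rw [ENNReal.toReal_ofReal (by positivity), hg]
      by_cases hw : w ∈ B
      · rw [indicator_of_mem hw, norm_div]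
        exact PAa.bd hs (norm_nonneg _) (norm_nonneg _) (by rwa [hB] at hw)
      · rw [indicator_of_notMem hw, norm_zero]
        positivity
    · exact hg ▸ indicator_apply_eq_zero.2 fun _ => by rw [k0 w (hO w h), zero_div]
  obtain ⟨ψm, ⟨M, hM⟩, -, gD⟩ := hPRULE.1 g gK
  obtain ⟨e, he⟩ : ∃ e, e = fun w => cexp (-cauchy g w) := ⟨_, rfl⟩
  have em : Measurable e := by rw [he]; fun_prop
  have hE : ∀ w, ‖e w‖ ≤ Real.exp M := fun w =>
    he ▸ (norm_exp_le_exp_norm _).trans (Real.exp_le_exp.2 (by rw [norm_neg]; exact hM w))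
  obtain ⟨k1, h1⟩ : ∃ k1, k1 = Bᶜ.indicator fun w => e w * k w := ⟨_, rfl⟩
  have m1 : Measurable k1 := h1 ▸ (em.mul km).indicator Bm.compl
  have b1 : ∀ w, ‖k1 w‖ ≤ Real.exp M * ‖k w‖ := fun w =>
    h1 ▸ (norm_indicator_le_norm_self _ _).trans (norm_mul_le_of_le (hE w) le_rfl)
  have K1 := kD k1 _ m1 b1
  obtain ⟨Gm, ⟨M1, hM1⟩, I1, -⟩ := hPRULE.1 k1 K1
  have hh : ∀ z, cauchy (fun w => -(e w * g w)) z = e z - 1 := fun z =>
    he ▸ (hPEXP g gK z).2.symm
  have c1 : ∀ z, cauchy k1 z = cauchy k z * e z := fun z => by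
    have := hPRULE.2 k _ kK (gD (fun w => -(e w * g w)) (Real.exp M) (by fun_prop) fun w => by
      rw [norm_neg]; exact norm_mul_le_of_le (hE w) le_rfl) z
    simp only [hh] at this
    have e2 : cauchy (fun w => k w * (e w - 1) + -(e w * g w) * cauchy k w) z =
        cauchy k1 z - cauchy k z := by
      rw [cauchy, cauchy, cauchy, ← integral_sub (I1 z) (kI z)]
      congr 1
      funext w
      rw [← sub_div, h1, hg]
      congr 1
      by_cases hw : w ∈ B
      · have : cauchy k w ≠ 0 := fun h => by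
          rw [hB, mem_ofPred_eq, h, norm_zero, zero_pow hs.ne', mul_zero] at hw
          exact hw.not_gt one_pos
        rw [indicator_of_mem hw, indicator_of_notMem (notMem_compl_iff.2 hw)]
        field_simp
        ring
      · rw [indicator_of_notMem hw, indicator_of_mem (mem_compl hw)]
        ring
    linear_combination -this - e2
  obtain ⟨k', h'⟩ : ∃ k' : ℂ → ℂ, k' = fun w => (s + 1) * cauchy k1 w ^ s * k1 w := ⟨_, rfl⟩
  have c2 : ∀ z, cauchy k' z = (cauchy k z * e z) ^ (s + 1) := fun z => by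
    rw [h', ← (hPEXP k1 K1 z).1, c1]
  have m2 : Measurable k' := by rw [h']; fun_prop
  have z2 : ∀ w ∉ Ω, k' w = 0 := fun w hw => by
    have := b1 w
    rw [k0 w hw, norm_zero, mul_zero, norm_le_zero_iff] at this
    simp only [h', this, mul_zero]
  have i2 : Integrable k' := by
    refine (ki.norm.const_mul (‖(s + 1 : ℂ)‖ * M1 ^ s * Real.exp M)).mono'
      m2.aestronglyMeasurable (.of_forall fun w => ?_)
    rw [h', mul_assoc _ (Real.exp M)]
    exact norm_mul_le_of_le (norm_mul_le_of_le le_rfl ((norm_pow _ _).trans_le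
      (pow_le_pow_left₀ (norm_nonneg _) (hM1 w) s))) (b1 w)
  refine ⟨k', ⟨m2, i2, memLp_top_of_bound m2.aestronglyMeasurable
    (‖(s + 1 : ℂ)‖ * (Real.exp M ^ s * Real.exp M)) (.of_forall fun w => ?_), z2,
    hKATO.2 k' R m2 i2 (fun w h => z2 w (hO w h)) fun z hz => ?_⟩, ?_⟩
  · simp only [h', c1, norm_mul, norm_pow, mul_assoc]
    refine mul_le_mul_of_nonneg_left ?_ (norm_nonneg _)
    by_cases hw : w ∈ B
    · rw [h1, indicator_of_notMem (notMem_compl_iff.2 hw), norm_zero, mul_zero]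
      positivity
    · rw [hB, mem_ofPred_eq, not_lt] at hw
      calc _ ≤ (‖cauchy k w‖ * Real.exp M) ^ s * (Real.exp M * ‖k w‖) := by
            gcongr
            exacts [hE w, b1 w]
        _ = ‖k w‖ * ‖cauchy k w‖ ^ s * (Real.exp M ^ s * Real.exp M) := by ring
        _ ≤ _ := mul_le_of_le_one_left (by positivity) hw
  · rw [c2, cauchy_far km ki k0 hR kP hR0 hz, zero_mul, zero_pow s.succ_ne_zero]
  · rw [c2, he]
    exact pow_ne_zero _ (mul_ne_zero hu (Complex.exp_ne_zero _))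

end Pool.Agent.P.MP_56bcbf_an.R

end

section

/-! Step CLS. -/

namespace Pool.Agent.P.MP_56bcbf_an.R

open Set Metric Filter Topology Complex MeasureTheory Real
open scoped ENNReal

namespace CLSa

theorem adm {I : Set ℝ} (h1 : ∀ p ∈ I, 1 ≤ p) (h2 : ∀ p p', 1 ≤ p → p ≤ p' → p' ∈ I → p ∈ I)
    (h3 : 1 ∈ I → ∀ p, 1 ≤ p → p < 2 → p ∈ I) : Adm I := by
  rcases I.eq_empty_or_nonempty with h | ⟨a, ha⟩
  · exact Or.inl h
  have k := h3 (h2 1 a le_rfl (h1 a ha) ha)
  by_cases hb : BddAbove I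
  · have lt : ∀ p, 1 ≤ p → p < sSup I → p ∈ I := fun p hp hlt => by
      obtain ⟨q, hq, hpq⟩ := exists_lt_of_lt_csSup ⟨a, ha⟩ hlt
      exact h2 p q hp hpq.le hq
    refine Or.inr (Or.inr ⟨sSup I, ?_, ?_⟩)
    · have := csSup_le_csSup hb ⟨1, by simp⟩ (show Ico (1 : ℝ) 2 ⊆ I from fun p hp => k p hp.1 hp.2)
      rwa [csSup_Ico one_lt_two] at this
    · by_cases hs : sSup I ∈ I
      · exact Or.inr (ext fun p => ⟨fun hp => ⟨h1 p hp, le_csSup hb hp⟩,
          fun hp => h2 p _ hp.1 hp.2 hs⟩)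
      · exact Or.inl (ext fun p => ⟨fun hp => ⟨h1 p hp,
          (le_csSup hb hp).lt_of_ne fun e => hs (e ▸ hp)⟩, fun hp => lt p hp.1 hp.2⟩)
  · refine Or.inr (Or.inl (ext fun p => ⟨h1 p, fun hp => ?_⟩))
    obtain ⟨q, hq, hpq⟩ := not_bddAbove_iff.1 hb p
    exact h2 p q hp hpq.le hq

theorem cj_anti {p p' : ℝ} (h : p ≤ p') : cj p' ≤ cj p := by
  unfold cj ENNReal.conjExponent
  gcongr

theorem cj_one : cj 1 = ∞ := by simp [cj, ENNReal.conjExponent]

theorem two_lt_cj {p : ℝ} (h : p < 2) : 2 < cj p := by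
  have a : ENNReal.ofReal p - 1 < 1 := by
    rcases le_total (ENNReal.ofReal p) 1 with k | k
    · rw [tsub_eq_zero_of_le k]; exact one_pos
    · refine ENNReal.sub_lt_of_lt_add k ?_
      rw [one_add_one_eq_two]
      exact ENNReal.ofReal_lt_ofNat.2 h
  unfold cj ENNReal.conjExponent
  rw [← one_add_one_eq_two]
  exact ENNReal.add_lt_add_left ENNReal.one_ne_top (ENNReal.one_lt_inv.2 a)

end CLSa

open CLSa in
theorem p_CLS (hCHAR : S_CHAR) (hPA : S_PA) :
    S_CLS := by
  intro D U hD hU hUD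
  have hb : Bornology.IsBounded (interior (D \ U)) :=
    hD.2.2.1.subset (interior_subset.trans sdiff_subset)
  refine adm (fun p hp => hp.1) (fun p p' hp hpp h => ?_) fun h p hp hp2 => ?_
  · rw [hCHAR.2.2 D U _ hD hU hUD (hp.trans hpp)] at h
    refine (hCHAR.2.2 D U p hD hU hUD hp).2 fun k hk => h k ⟨hk.1, hk.2.1, ?_, hk.2.2.2⟩
    exact hk.2.2.1.mono_exponent_of_measure_support_ne_top hk.2.2.2.1 hb.measure_lt_top.ne
      (cj_anti hpp)
  · rw [hCHAR.2.2 D U _ hD hU hUD le_rfl, cj_one] at h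
    refine (hCHAR.2.2 D U p hD hU hUD hp).2 fun k hk u hu => by_contra fun hne => ?_
    obtain ⟨k', h1, h2⟩ := hPA _ _ k u hb (two_lt_cj hp2) hk hne
    exact h2 (h k' h1 u hu)

end Pool.Agent.P.MP_56bcbf_an.R

end
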