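import Pool.Agent.P.MP_56bcbf_an.R.Iface

section

/-! Step MULT. -/

namespace Pool.Agent.P.MP_56bcbf_an.R

open Set Metric Filter Topology Complex MeasureTheory Real
open scoped ENNReal

namespace MULTa

def Bd (g : ℂ → ℂ) (C τ : ℝ) : Prop := ∀ z ∈ DD, ‖g z‖ ≤ C * Real.exp (τ * ‖z⁻¹‖)

structure Mu (Ω : Set ℂ) (a : ℂ) (g : ℂ → ℂ) : Prop where
  m : Measurable g
  b : ∃ C τ, Bd g C τ
  c : ∀ k, Good Ω k → (∀ c : ℂ, c.re < 0 → cauchy (fun z => g z * k z) c = 0) ∧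
    cauchy (fun z => g z * k z) a = g a * cauchy k a

variable {Ω : Set ℂ} {a : ℂ} {g g' k : ℂ → ℂ} {C τ : ℝ}

theorem left (hΩ : Ω ⊆ DD) {c : ℂ} (hc : c.re < 0) : c ∉ closure Ω := fun h =>
  hc.not_ge (closure_minimal (t := {z : ℂ | 0 ≤ z.re}) (fun _ hz => (hΩ hz).1.le)
    (isClosed_le continuous_const continuous_re) h)

theorem bd (hΩ : Ω ⊆ DD) (hk : Good Ω k) (h : Bd g C τ) (z : ℂ) :
    ‖g z * k z‖ ≤ C * (Real.exp (τ * ‖z⁻¹‖) * ‖k z‖) := by
  by_cases hz : z ∈ Ω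
  · rw [norm_mul, ← mul_assoc]
    exact mul_le_mul_of_nonneg_right (h z (hΩ hz)) (norm_nonneg _)
  · simp [hk.2.1 z hz]

theorem Mu.int (hΩ : Ω ⊆ DD) (h : Mu Ω a g) (hk : Good Ω k) {y : ℂ} (hy : y ∉ closure Ω) :
    Integrable fun z => g z * k z / (z - y) := by
  obtain ⟨C, τ, b⟩ := h.b
  exact integrable_div (h.m.mul hk.1) (((hk.2.2.1 τ).const_mul C).mono'
    (h.m.mul hk.1).aestronglyMeasurable (.of_forall (bd hΩ hk b)))
    (fun w hw => by simp [hk.2.1 w hw]) hy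

theorem Mu.good (hΩ : Ω ⊆ DD) (h : Mu Ω a g) (hk : Good Ω k) : Good Ω fun z => g z * k z := by
  obtain ⟨C, τ, b⟩ := h.b
  refine ⟨h.m.mul hk.1, fun w hw => by simp [hk.2.1 w hw], fun t => ?_, (h.c k hk).1⟩
  have := h.m
  have := hk.1
  refine ((hk.2.2.1 (t + τ)).const_mul C).mono' (Measurable.aestronglyMeasurable (by fun_prop))
    (.of_forall fun z => ?_)
  rw [Real.norm_of_nonneg (by positivity), add_mul, Real.exp_add, mul_assoc, mul_left_comm]
  exact mul_le_mul_of_nonneg_left (bd hΩ hk b z) (Real.exp_pos _).le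

theorem lim (hΩ : Ω ⊆ DD) (hk : Good Ω k) {G : ℕ → ℂ → ℂ} (m : ∀ n, Measurable (G n))
    (b : ∀ n, Bd (G n) C τ) (t : ∀ z ∈ DD, Tendsto (G · z) atTop (𝓝 (g z))) {y : ℂ}
    (hy : y ∉ closure Ω) : Tendsto (fun n => cauchy (fun z => G n z * k z) y) atTop
      (𝓝 (cauchy (fun z => g z * k z) y)) := by
  obtain ⟨ρ, hρ, h⟩ := exists_sep hy
  have := hk.1
  refine tendsto_integral_of_dominated_convergence _
    (fun n => Measurable.aestronglyMeasurable (by have := m n; fun_prop))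
    (((hk.2.2.1 τ).const_mul C).div_const ρ) (fun n => .of_forall fun z => ?_)
    (.of_forall fun z => ?_)
  · by_cases hz : z ∈ Ω
    · rw [norm_div]
      exact div_le_div₀ ((norm_nonneg _).trans (bd hΩ hk (b n) z)) (bd hΩ hk (b n) z) hρ
        (h y (mem_ball_self hρ) z hz)
    · simp [hk.2.1 z hz]
  · by_cases hz : z ∈ Ω
    · exact ((t z (hΩ hz)).mul_const _).div_const _
    · simp [hk.2.1 z hz]

theorem const (c : ℂ) : Mu Ω a fun _ => c :=
  ⟨measurable_const, ⟨‖c‖, 0, fun z _ => by simp⟩, fun k hk => by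
    have : ∀ y, cauchy (fun z => c * k z) y = c * cauchy k y := fun y => by
      simp only [cauchy, mul_div_assoc, integral_const_mul]
    exact ⟨fun y hy => by rw [this, hk.2.2.2 y hy, mul_zero], this a⟩⟩

variable (hΩ : Ω ⊆ DD) (ha : a ∈ DD) (ha' : a ∉ closure Ω)
include hΩ

theorem Mu.mul (h : Mu Ω a g) (h' : Mu Ω a g') : Mu Ω a fun z => g z * g' z := by
  obtain ⟨C, τ, b⟩ := h.b
  obtain ⟨C', τ', b'⟩ := h'.b
  refine ⟨h.m.mul h'.m, ⟨C * C', τ + τ', fun z hz => ?_⟩, fun k hk => ?_⟩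
  · rw [norm_mul, add_mul, Real.exp_add, mul_mul_mul_comm]
    exact mul_le_mul (b z hz) (b' z hz) (norm_nonneg _) ((norm_nonneg _).trans (b z hz))
  · simp only [mul_assoc]
    rw [← (h'.c k hk).2]
    exact h.c _ (h'.good hΩ hk)

theorem Mu.pow (h : Mu Ω a g) (n : ℕ) : Mu Ω a fun z => g z ^ n := by
  induction n with
  | zero => simpa using const 1
  | succ n ih => simpa only [pow_succ] using ih.mul hΩ h

theorem prod {G : ℕ → ℂ → ℂ} (h : ∀ i, Mu Ω a (G i)) (n : ℕ) :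
    Mu Ω a fun z => ∏ i ∈ Finset.range n, G i z := by
  induction n with
  | zero => simpa using const 1
  | succ n ih => simpa only [Finset.prod_range_succ] using ih.mul hΩ (h n)

include ha'

theorem Mu.add (h : Mu Ω a g) (h' : Mu Ω a g') : Mu Ω a fun z => g z + g' z := by
  obtain ⟨C, τ, b⟩ := h.b
  obtain ⟨C', τ', b'⟩ := h'.b
  refine ⟨h.m.add h'.m, ⟨|C| + |C'|, max τ τ', fun z hz => (norm_add_le _ _).trans ?_⟩,
    fun k hk => ?_⟩
  · rw [add_mul]
    refine add_le_add ((b z hz).trans ?_) ((b' z hz).trans ?_) <;> gcongr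
    exacts [le_abs_self _, le_max_left _ _, le_abs_self _, le_max_right _ _]
  · have : ∀ y ∉ closure Ω, cauchy (fun z => (g z + g' z) * k z) y =
        cauchy (fun z => g z * k z) y + cauchy (fun z => g' z * k z) y := fun y hy => by
      simp only [cauchy, add_mul, add_div, integral_add (h.int hΩ hk hy) (h'.int hΩ hk hy)]
    exact ⟨fun y hy => by rw [this y (left hΩ hy), (h.c k hk).1 y hy, (h'.c k hk).1 y hy, add_zero],
      by rw [this a ha', (h.c k hk).2, (h'.c k hk).2, add_mul]⟩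

include ha

theorem limit {G : ℕ → ℂ → ℂ} (h : ∀ n, Mu Ω a (G n)) (b : ∀ n, Bd (G n) C τ) (m : Measurable g)
    (t : ∀ z ∈ DD, Tendsto (G · z) atTop (𝓝 (g z))) : Mu Ω a g :=
  ⟨m, ⟨C, τ, fun z hz => le_of_tendsto' (t z hz).norm fun n => b n z hz⟩, fun k hk =>
    ⟨fun y hy => tendsto_nhds_unique (lim hΩ hk (fun n => (h n).m) b t (left hΩ hy)) (by
      simp only [((h _).c k hk).1 y hy, tendsto_const_nhds]),
    tendsto_nhds_unique (lim hΩ hk (fun n => (h n).m) b t ha') (by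
      simpa only [((h _).c k hk).2] using (t a ha).mul_const _)⟩⟩

theorem Mu.exp (h : Mu Ω a g) (b : ∀ z ∈ DD, ‖g z‖ ≤ C + τ * ‖z⁻¹‖) :
    Mu Ω a fun z => cexp (g z) := by
  refine limit hΩ ha ha' (G := fun n z => ∑ i ∈ Finset.range n, g z ^ i / i.factorial)
    (C := Real.exp C) (τ := τ) (fun n => ?_) (fun n z hz => ?_) h.m.cexp fun z _ => ?_
  · induction n with
    | zero => simpa using const 0
    | succ n ih =>
      simpa only [Finset.sum_range_succ, div_eq_mul_inv] using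
        ih.add hΩ ha' ((h.pow hΩ n).mul hΩ (const _))
  · rw [← Real.exp_add]
    refine (norm_sum_le _ _).trans (le_trans ?_ (Real.exp_le_exp.2 (b z hz)))
    simpa using Real.sum_le_exp_of_nonneg (norm_nonneg (g z)) n
  · rw [Complex.exp_eq_exp_ℂ]
    exact (NormedSpace.expSeries_div_hasSum_exp (g z)).tendsto_sum_nat

theorem gen {c : ℂ} (hc : c.re ≤ 0) (b : Bd (fun z => (z - c)⁻¹) C τ) :
    Mu Ω a fun z => (z - c)⁻¹ := by
  let e : ℕ → ℝ := fun n => 1 / ((n : ℝ) + 1)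
  have e0 : ∀ n, 0 < e n := fun n => Nat.one_div_pos_of_nat
  have n0 : ∀ z ∈ DD, z - c ≠ 0 := fun z hz h => by
    rw [sub_eq_zero.1 h] at hz
    exact hz.1.not_ge hc
  have t0 : Tendsto (fun n => c - (e n : ℂ)) atTop (𝓝 c) := by
    simpa [e] using (tendsto_const_nhds (x := c)).sub
      (continuous_ofReal.tendsto _ |>.comp (tendsto_one_div_add_atTop_nhds_zero_nat (𝕜 := ℝ)))
  have t : ∀ z ∈ DD, Tendsto (fun n => (z - (c - e n))⁻¹) atTop (𝓝 (z - c)⁻¹) := fun z hz =>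
    (t0.const_sub z).inv₀ (n0 z hz)
  have b' : ∀ n, Bd (fun z => (z - (c - e n))⁻¹) C τ := fun n z hz => by
    refine le_trans ?_ (b z hz)
    simp only [norm_inv]
    refine inv_anti₀ (norm_pos_iff.2 (n0 z hz)) (abs_le_of_sq_le_sq' ?_ (norm_nonneg _)).2
    have := hz.1
    simp only [Complex.sq_norm, normSq_apply, sub_re, sub_im, ofReal_re, ofReal_im]
    nlinarith [e0 n]
  refine ⟨by fun_prop, ⟨C, τ, b⟩, fun k hk => ?_⟩
  have i := fun y => (const 1 : Mu Ω a _).int hΩ hk (y := y)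
  have l : ∀ n, (c - e n).re < 0 := fun n => by simpa using hc.trans_lt (e0 n)
  have key : ∀ n, ∀ y ∉ closure Ω, y ≠ c - e n → cauchy (fun z => (z - (c - e n))⁻¹ * k z) y =
      (y - (c - e n))⁻¹ * cauchy k y := fun n y hy hn => by
    rw [← sub_zero (cauchy k y), ← hk.2.2.2 _ (l n), cauchy, cauchy, cauchy, ← integral_sub
      (by simpa using i y hy) (by simpa using i _ (left hΩ (l n))), ← integral_const_mul]
    refine integral_congr_ae (.of_forall fun z => ?_)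
    by_cases hz : z ∈ Ω
    · have a1 : z - y ≠ 0 := sub_ne_zero.2 fun h => hy (h ▸ subset_closure hz)
      have a2 : z - (c - e n) ≠ 0 := sub_ne_zero.2 fun h => left hΩ (l n) (h ▸ subset_closure hz)
      have a3 := sub_ne_zero.2 hn
      field_simp
      ring
    · simp [hk.2.1 z hz]
  have L := fun y => lim hΩ hk (fun n => by fun_prop) b' t (y := y)
  refine ⟨fun y hy => tendsto_nhds_unique (L y (left hΩ hy)) (tendsto_const_nhds.congr' ?_),
    tendsto_nhds_unique (L a ha') (((t a ha).mul_const _).congr fun n =>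
      (key n a ha' fun h => (l n).not_gt (h ▸ ha.1)).symm)⟩
  have : ∀ᶠ n in atTop, y ≠ c - e n := by
    rcases eq_or_ne y c with rfl | h
    · exact .of_forall fun n h => (e0 n).ne' (by simpa using sub_eq_self.1 h.symm)
    · exact (t0.eventually_ne h.symm).mono fun n h => h.symm
  filter_upwards [this] with n hn
  rw [key n y (left hΩ hy) hn, hk.2.2.2 y hy, mul_zero]

theorem inv : Mu Ω a fun z => z⁻¹ := by
  simpa using gen hΩ ha ha' (c := 0) (C := 1) (τ := 1) le_rfl fun z _ => by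
    simpa using (le_add_of_nonneg_right zero_le_one).trans (Real.add_one_le_exp ‖z‖⁻¹)

theorem inv_add {d : ℂ} (h0 : d ≠ 0) (h : 0 ≤ d.re) {δ : ℝ} (hδ : 0 < δ)
    (b : ∀ z ∈ DD, δ ≤ ‖z + d⁻¹‖) : Mu Ω a fun z => (z⁻¹ + d)⁻¹ := by
  have h1 := (const d⁻¹).add hΩ ha' ((const (-d⁻¹ ^ 2)).mul hΩ
    (gen hΩ ha ha' (c := -d⁻¹) (C := δ⁻¹) (τ := 0) (by
      rw [neg_re, inv_re, neg_nonpos]
      exact div_nonneg h (normSq_nonneg _)) fun z hz => by simpa using inv_anti₀ hδ (b z hz)))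
  obtain ⟨C, τ, b1⟩ := h1.b
  refine limit hΩ ha ha' (fun _ => h1) (fun _ => b1) (by fun_prop) fun z hz => ?_
  have z0 : z ≠ 0 := fun e => by simpa [e] using hz.1
  have z1 : z * d + 1 ≠ 0 := fun e => by
    have := b z hz
    rw [show z + d⁻¹ = (z * d + 1) * d⁻¹ by field_simp, e, zero_mul, norm_zero] at this
    exact this.not_gt hδ
  have z2 : 1 + z * d ≠ 0 := by rwa [add_comm]
  rw [show (z⁻¹ + d)⁻¹ = d⁻¹ + -d⁻¹ ^ 2 * (z - -d⁻¹)⁻¹ by
    rw [sub_neg_eq_add]
    field_simp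
    ring]
  exact tendsto_const_nhds

end MULTa

open MULTa in
theorem p_MULT :
    S_MULT := by
  intro Ω k a hΩ ha ha' hk n L m
  have w := inv hΩ ha ha'
  have v := w.add hΩ ha' (const (-(I / 2)))
  have v1 : ∀ z ∈ DD, 1 ≤ ‖z + (-(I / 2))⁻¹‖ := fun z hz => by
    have := norm_sub_le (z + (-(I / 2))⁻¹) z
    rw [add_sub_cancel_left] at this
    norm_num at this ⊢
    linarith [hz.2]
  have v2 := inv_add hΩ ha ha' (d := -(I / 2)) (by simp) (by simp) one_pos v1
  refine (Mu.c (g := fun z => QQ n L m z⁻¹) (Mu.mul hΩ (((const n).mul hΩ w).exp hΩ ha ha' (C := 0)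
    (τ := n) fun z _ => by simp) (prod hΩ (fun l => Mu.pow hΩ ?_ _) L)) k hk).2
  have r0 := rr_pos l
  have t0 := tau_pos l
  have d0 : (rr l : ℂ) - I / 2 ≠ 0 := fun e => by simpa using congrArg im e
  have d1 : 0 < ((rr l : ℂ) - I / 2)⁻¹.re := by
    rw [inv_re]
    exact div_pos (by simpa using r0) (normSq_pos.2 d0)
  have u := inv_add hΩ ha ha' d0 (by simpa using r0.le) d1 fun z hz =>
    le_trans (by simpa using hz.1.le) (re_le_norm _)
  have x := ((const (tau l : ℂ)).mul hΩ (v.add hΩ ha' ((const (-(rr l : ℂ) ^ 2)).mul hΩ v2))).exp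
    hΩ ha ha' (C := tau l * (1 / 2 + rr l ^ 2 * 2)) (τ := tau l) fun z hz => by
      have a1 := norm_add_le z⁻¹ (-(I / 2))
      have a2 := norm_sub_le (z⁻¹ + -(I / 2)) (-(I / 2))
      have a3 := (mem_DD.1 hz).2
      have a4 : ‖-(I / 2)‖ = 1 / 2 := by simp
      rw [add_sub_cancel_right] at a2
      have a5 : ‖z⁻¹ + -(I / 2)‖⁻¹ ≤ 2 := inv_le_of_inv_le₀ two_pos (by linarith)
      rw [norm_mul, norm_real, Real.norm_of_nonneg t0.le, ← mul_add]
      refine mul_le_mul_of_nonneg_left ((norm_add_le _ _).trans ?_) t0.le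
      rw [norm_mul, norm_neg, norm_pow, norm_real, Real.norm_of_nonneg r0.le, norm_inv]
      nlinarith [mul_le_mul_of_nonneg_left a5 (sq_nonneg (rr l))]
  convert ((const 1).add hΩ ha' ((const (-1)).mul hΩ (((v.mul hΩ (const (rr l : ℂ)⁻¹)).pow hΩ 2).mul
    hΩ x))).mul hΩ (((const (rr l : ℂ)).mul hΩ u).pow hΩ 2) using 2 with z
  simp only [ET, EE, gE, div_eq_mul_inv, sub_eq_add_neg, neg_mul, one_mul, add_left_comm z⁻¹]

end Pool.Agent.P.MP_56bcbf_an.R

end

section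

/-! Step TAIL. -/

namespace Pool.Agent.P.MP_56bcbf_an.R

open Set Metric Filter Topology Complex MeasureTheory Real
open scoped ENNReal

namespace TAILa

theorem meas (c : ℝ) : Measurable fun z : ℂ => Real.exp (c * ‖z⁻¹‖) := by fun_prop

theorem m1 (R : ℝ) : MeasurableSet {z : ℂ | ‖z⁻¹‖ ≤ R} :=
  measurableSet_le (by fun_prop) (by fun_prop)

theorem m2 : MeasurableSet {z : ℂ | (z⁻¹).re ≤ gw z⁻¹} :=
  measurableSet_le (by fun_prop) (by unfold gw; fun_prop)

theorem int_re : IntegrableOn (fun z : ℂ => z.re ^ (-(1 / 2) : ℝ)) DD := by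
  have h1 : IntegrableOn (fun x : ℝ => x ^ (-(1 / 2) : ℝ)) (Ioo 0 1) :=
    (intervalIntegral.integrableOn_Ioo_rpow_iff one_pos).2 (by norm_num)
  have h2 : IntegrableOn (fun _ : ℝ => (1 : ℝ)) (Ioo (-1) 1) := integrableOn_const (by simp)
  have h3 : IntegrableOn (fun x : ℝ × ℝ => x.1 ^ (-(1 / 2) : ℝ) * 1) (Ioo 0 1 ×ˢ Ioo (-1) 1) := by
    rw [IntegrableOn, Measure.volume_eq_prod, ← Measure.prod_restrict]
    exact h1.mul_prod h2
  have h4 := (volume_preserving_equiv_real_prod.integrableOn_comp_preimage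
    measurableEquivRealProd.measurableEmbedding).2 h3
  refine (h4.mono_set fun z hz => ?_).congr_fun (fun z _ => by simp) DD_open.measurableSet
  have h5 := abs_lt.1 ((abs_re_le_norm z).trans_lt hz.2)
  have h6 := abs_lt.1 ((abs_im_le_norm z).trans_lt hz.2)
  exact ⟨⟨hz.1, h5.2⟩, h6⟩

theorem layer (c R : ℝ) (hR : 0 ≤ R) : IntegrableOn (fun z : ℂ => Real.exp (c * ‖z⁻¹‖))
    {z | z ∈ DD ∧ (‖z⁻¹‖ ≤ R ∨ (z⁻¹).re ≤ gw z⁻¹)} := by
  have hm : MeasurableSet {z : ℂ | z ∈ DD ∧ (‖z⁻¹‖ ≤ R ∨ (z⁻¹).re ≤ gw z⁻¹)} :=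
    DD_open.measurableSet.inter ((m1 R).union m2)
  refine Integrable.mono' ((int_re.mono_set fun z hz => hz.1).const_mul
    (Real.exp (|c| * R + c ^ 2 / 2 + 2))) (meas c).aestronglyMeasurable
    (ae_restrict_of_forall_mem hm fun z hz => ?_)
  obtain ⟨hD, h⟩ := hz
  have h0 : 0 < z.re := hD.1
  have h1 : z.re ≤ 1 := ((re_le_norm z).trans_lt hD.2).le
  have hc : 0 ≤ |c| * R := by positivity
  rw [Real.norm_of_nonneg (Real.exp_pos _).le, Real.rpow_def_of_pos h0, ← Real.exp_add,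
    Real.exp_le_exp]
  rcases h with h | h
  · have h2 := Real.log_nonpos h0.le h1
    have h3 : c * ‖z⁻¹‖ ≤ |c| * R :=
      (mul_le_mul_of_nonneg_right (le_abs_self c) (norm_nonneg _)).trans (by gcongr)
    nlinarith [sq_nonneg c]
  · have h2 : z.re ≤ (z⁻¹).re := by
      have h4 : normSq z ≤ 1 := by
        rw [normSq_eq_norm_sq]
        nlinarith [hD.2, norm_nonneg z]
      have h5 : 0 < normSq z := normSq_pos.2 fun h => by simp [h] at h0
      rw [inv_re, le_div_iff₀ h5]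
      nlinarith
    have h3 : Real.log z.re ≤ 4 - ‖z⁻¹‖ ^ 2 := (Real.log_le_iff_le_exp h0).2 (h2.trans h)
    nlinarith [sq_nonneg (c - ‖z⁻¹‖)]

/-- One bead. -/
def Bd (t : ℕ → ℝ) (j : JJ) : Set ℂ := {z | z ∈ DD ∧ ‖z⁻¹ - bd j‖ ≤ 2 * ‖bd j‖ * ej t j}

theorem ej_le {t : ℕ → ℝ} (ht : ∀ l, 1 ≤ t l) (j : JJ) :
    ej t j ≤ Real.exp (-(3 / 2 * rr j.1 ^ 2)) := by
  have h1 : 0 < j.2.1.re := j.2.2.1
  have h2 := sg_pos j.1
  have h3 := TT_pos j.1
  have h4 : 3 * rr j.1 ^ 2 ≤ TT j.1 * sg j.1 := by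
    have : 0 < sg j.1 ^ 4 := by positivity
    rw [rr, TT]
    nlinarith [pi_gt_three]
  have h5 : TT j.1 * sg j.1 ≤ t j.1 * (TT j.1 * (j.2.1.re + sg j.1)) :=
    le_trans (by gcongr; linarith) (le_mul_of_one_le_left (by positivity) (ht _))
  rw [ej, ep, Real.exp_le_exp]
  linarith

theorem vol_Bd {t : ℕ → ℝ} (ht : ∀ l, 1 ≤ t l) (j : JJ) (hb : bd j ≠ 0) :
    volume (Bd t j) ≤ ENNReal.ofReal (16 * Real.exp (-(3 * rr j.1 ^ 2))) := by
  set e := Real.exp (-(3 / 2 * rr j.1 ^ 2)) with he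
  have h0 : 0 < e := Real.exp_pos _
  have hs : Bd t j ⊆ closedBall (bd j)⁻¹ (2 * e) := fun z hz => by
    have h1 : 0 < ‖bd j‖ := norm_pos_iff.2 hb
    have hz0 : z ≠ 0 := fun h => by simpa [h, DD] using hz.1.1
    have h2 : z - (bd j)⁻¹ = -(z * (z⁻¹ - bd j) / bd j) := by
      field_simp
      ring
    rw [mem_closedBall, dist_eq_norm, h2, norm_neg, norm_div, norm_mul, div_le_iff₀ h1]
    calc ‖z‖ * ‖z⁻¹ - bd j‖ ≤ 1 * (2 * ‖bd j‖ * e) := by
          gcongr
          · exact hz.1.2.le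
          · exact hz.2.trans (by gcongr; exact ej_le ht j)
      _ = 2 * e * ‖bd j‖ := by ring
  refine (measure_mono hs).trans ?_
  have h3 : Real.exp (-(3 * rr j.1 ^ 2)) = e ^ 2 := by
    rw [he, ← Real.exp_nat_mul]
    congr 1
    push_cast
    ring
  rw [Complex.volume_closedBall, ← ENNReal.ofReal_pow (by positivity), ← ENNReal.ofReal_coe_nnreal,
    ← ENNReal.ofReal_mul (by positivity), h3]
  refine ENNReal.ofReal_le_ofReal ?_
  rw [NNReal.coe_real_pi]
  nlinarith [pi_lt_four, sq_nonneg e]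

theorem beads (hB : S_BEAD) {t : ℕ → ℝ} (ht : ∀ l, 1 ≤ t l) (c : ℝ) :
    IntegrableOn (fun z : ℂ => Real.exp (c * ‖z⁻¹‖)) (⋃ l, ⋃ v : ZZ l, Bd t ⟨l, v⟩) := by
  obtain ⟨h1, h2, h3⟩ := hB
  obtain ⟨h4, h5⟩ := h3 t fun l => by linarith [ht l]
  refine ⟨(meas c).aestronglyMeasurable, ?_⟩
  have hs : Summable fun l : ℕ => Real.exp (c ^ 2) * (1 / 2) ^ (l + 5) :=
    ((summable_nat_add_iff 5).2 summable_geometric_two).mul_left _
  refine (lintegral_iUnion_le _ _).trans_lt (lt_of_le_of_lt (ENNReal.tsum_le_tsum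
    (g := fun l => ENNReal.ofReal (Real.exp (c ^ 2) * (1 / 2) ^ (l + 5))) fun l => ?_) ?_)
  swap
  · rw [← ENNReal.ofReal_tsum_of_nonneg (fun l => by positivity) hs]
    exact ENNReal.ofReal_lt_top
  have hr := rr_ge l
  have hτ := tau_ge l
  have := (h2 l).1.fintype
  have hv : volume (⋃ v : ZZ l, Bd t ⟨l, v⟩) ≤
      ENNReal.ofReal (3 * tau l * rr l * (16 * Real.exp (-(3 * rr l ^ 2)))) := by
    refine (measure_iUnion_fintype_le _ _).trans ((Finset.sum_le_card_nsmul _ _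
      (ENNReal.ofReal (16 * Real.exp (-(3 * rr l ^ 2)))) fun v _ => vol_Bd ht ⟨l, v⟩
        (norm_pos_iff.1 (by linarith [h4.big ⟨l, v⟩]))).trans ?_)
    rw [nsmul_eq_mul, ← ENNReal.ofReal_natCast, ← ENNReal.ofReal_mul (by positivity)]
    refine ENNReal.ofReal_le_ofReal ?_
    gcongr
    rw [Finset.card_univ, ← Nat.card_eq_fintype_card, Nat.card_coe_set_eq]
    exact (h2 l).2
  calc ∫⁻ z in ⋃ v : ZZ l, Bd t ⟨l, v⟩, ‖Real.exp (c * ‖z⁻¹‖)‖ₑ
      ≤ ∫⁻ _ in ⋃ v : ZZ l, Bd t ⟨l, v⟩, ENNReal.ofReal (Real.exp (c ^ 2 + rr l ^ 2)) := by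
        refine setLIntegral_mono measurable_const fun z hz => ?_
        obtain ⟨v, -, hz⟩ := mem_iUnion.1 hz
        have h6 := (abs_le.1 (h1 ⟨l, v⟩).2.1).2
        have h7 := h5 ⟨l, v⟩
        have h8 := h4.pos ⟨l, v⟩
        have h9 : ‖z⁻¹‖ ≤ 2 * rr l := by
          have := norm_sub_norm_le z⁻¹ (bd ⟨l, v⟩)
          have h10 : 0 ≤ (tau l - 1) * (rr l * ej t ⟨l, v⟩) := by
            have : 0 ≤ tau l - 1 := by linarith
            positivity
          have h11 : ‖bd ⟨l, v⟩‖ * ej t ⟨l, v⟩ ≤ 2 * rr l * ej t ⟨l, v⟩ := by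
            gcongr
            linarith
          dsimp only at h6 h7
          nlinarith
        rw [Real.enorm_eq_ofReal (Real.exp_pos _).le]
        refine ENNReal.ofReal_le_ofReal (Real.exp_le_exp.2 ?_)
        nlinarith [sq_nonneg (c - ‖z⁻¹‖ / 2), norm_nonneg z⁻¹]
    _ ≤ ENNReal.ofReal (Real.exp (c ^ 2 + rr l ^ 2)) *
        ENNReal.ofReal (3 * tau l * rr l * (16 * Real.exp (-(3 * rr l ^ 2)))) := by
        rw [setLIntegral_const]
        gcongr
    _ ≤ _ := by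
        rw [← ENNReal.ofReal_mul (by positivity)]
        refine ENNReal.ofReal_le_ofReal ?_
        have h6 : 3 * tau l * rr l * 16 ≤ Real.exp (rr l) := by
          refine le_trans (le_of_eq ?_) (poly_le l (c := 48 * π) (a := 2) (n := 8)
            (by linarith [pi_lt_four]) (by norm_num))
          rw [tau, rr]
          ring
        have h7 : sg l ≤ rr l := by
          rw [rr]
          nlinarith [sg_32 l]
        calc _ ≤ Real.exp (c ^ 2 + rr l ^ 2) * (Real.exp (rr l) * Real.exp (-(3 * rr l ^ 2))) := by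
              rw [← mul_assoc (3 * tau l * rr l)]
              gcongr
          _ ≤ Real.exp (c ^ 2) * Real.exp (-sg l) := by
              rw [← Real.exp_add, ← Real.exp_add, ← Real.exp_add, Real.exp_le_exp]
              nlinarith
          _ ≤ _ := by
              gcongr
              exact exp_sg_le l

end TAILa

open TAILa in
theorem p_TAIL (hBEAD : S_BEAD) :
    S_TAIL := by
  intro t i ht
  constructor
  · have : ∀ l, Countable (ZZ l) := fun l => (hBEAD.2.1 l).1.countable.to_subtype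
    refine DD_open.measurableSet.inter ((m1 _).union (m2.union ?_))
    change MeasurableSet {z : ℂ | ∃ j : JJ, i < j.1 ∧ ‖z⁻¹ - bd j‖ ≤ 2 * ‖bd j‖ * ej t j}
    rw [ofPred_exists]
    refine MeasurableSet.iUnion fun j => (MeasurableSet.const _).inter ?_
    change MeasurableSet {z : ℂ | ‖z⁻¹ - bd j‖ ≤ 2 * ‖bd j‖ * ej t j}
    exact measurableSet_le (by fun_prop) (by fun_prop)
  · intro p τ hp
    refine (integrable_norm_rpow_iff (meas τ).aestronglyMeasurable (by simpa using by linarith)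
      ENNReal.ofReal_ne_top).1 ?_
    have h1 := ((layer (τ * p) (rr i + 2) (by linarith [rr_pos i])).union
      (beads hBEAD ht (τ * p))).mono_set (s := OM t i) fun z hz => by
        obtain ⟨hD, h | h | ⟨j, -, h⟩⟩ := hz
        · exact Or.inl ⟨hD, Or.inl h⟩
        · exact Or.inl ⟨hD, Or.inr h⟩
        · exact Or.inr (mem_iUnion₂.2 ⟨j.1, j.2, hD, h⟩)
    refine h1.congr (Eventually.of_forall fun z => ?_)
    dsimp only
    rw [Real.norm_of_nonneg (Real.exp_pos _).le, ENNReal.toReal_ofReal (by linarith),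
      ← Real.exp_mul]
    congr 1
    ring

end Pool.Agent.P.MP_56bcbf_an.R

end

section

/-! Step SCHED. -/

namespace Pool.Agent.P.MP_56bcbf_an.R

open Set Metric Filter Topology Complex MeasureTheory Real
open scoped ENNReal

namespace SCHEDa

theorem sum_tau (d : ℕ) : ∑ k ∈ Finset.range d, tau k ≤ 2 * TT d := by
  induction d with
  | zero => simpa using (TT_pos 0).le
  | succ d ih =>
    rw [Finset.sum_range_succ, TT_succ]
    have h1 := sg_32 d
    have h2 : (2 : ℝ) ≤ sg d ^ 3 := le_trans (by norm_num) (pow_le_pow_left₀ (by norm_num) h1 3)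
    have h3 : tau d = sg d ^ 3 * TT d := by rw [tau, TT]; ring
    nlinarith [TT_pos d]

theorem small (d : ℕ) : 1 + 4 * TT d ≤ 1 / sg (d + 1) * TT (d + 1) := by
  have h1 := sg_32 d
  have h2 : (1 : ℝ) ≤ TT d :=
    one_le_mul_of_one_le_of_one_le (by linarith [pi_gt_three]) (one_le_pow₀ (by linarith))
  have h3 : 1 / sg (d + 1) * TT (d + 1) = sg d * TT d := by
    rw [TT_succ, tau, TT, sg_succ]
    field_simp [(sg_pos d).ne']
  rw [h3]
  nlinarith

theorem lam_le {t : ℕ → ℝ} (ht : ∀ l, 2 - (1 / 2) ^ (l + 2) ≤ t l) (l : ℕ) :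
    1 / sg l + max (2 - t l) 0 ≤ (1 / 2) ^ (l + 1) := by
  have h0 : (0 : ℝ) < (1 / 2) ^ (l + 2) := by positivity
  have h1 : max (2 - t l) 0 ≤ (1 / 2) ^ (l + 2) := max_le (by linarith [ht l]) h0.le
  have h2 : 1 / sg l ≤ (1 / 2) ^ (l + 2) := by
    rw [one_div_pow]
    refine one_div_le_one_div_of_le (by positivity) ?_
    have : (0 : ℝ) < 2 ^ l := by positivity
    rw [pow_add]
    linarith [sg_ge l]
  rw [pow_succ _ (l + 1)] at h1 h2
  linarith

theorem reduce {t p : ℝ} {n d : ℕ} {m : ℕ → ℕ} (hm : ∀ l, m l ≤ 2 * n)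
    (h : m d + n * (1 / sg (d + 1) + max (2 - t) 0) ≤ m (d + 1) + t / p) :
    n + ∑ k ∈ Finset.range (d + 1), m k * tau k ≤ (m (d + 1) + 2 / p) * (t / 2) * TT (d + 1) := by
  have hm' : ∀ l, (m l : ℝ) ≤ 2 * n := fun l => by exact_mod_cast hm l
  have hn : (0 : ℝ) ≤ n := n.cast_nonneg
  have h1 : ∑ k ∈ Finset.range d, m k * tau k ≤ 2 * n * (2 * TT d) := by
    refine le_trans ?_ (mul_le_mul_of_nonneg_left (sum_tau d) (by positivity))
    rw [Finset.mul_sum]
    exact Finset.sum_le_sum fun k _ => mul_le_mul_of_nonneg_right (hm' k) (tau_pos k).le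
  have h2 := mul_le_mul_of_nonneg_left (small d) hn
  have h3 : (m (d + 1) : ℝ) * (2 - t) ≤ 2 * n * max (2 - t) 0 :=
    (mul_le_mul_of_nonneg_left (le_max_left _ _) (Nat.cast_nonneg _)).trans
      (mul_le_mul_of_nonneg_right (hm' _) (le_max_right _ _))
  have h4 : m d + n * (1 / sg (d + 1)) ≤ (m (d + 1) + 2 / p) * (t / 2) := by
    have : (m (d + 1) + 2 / p) * (t / 2) = m (d + 1) * (t / 2) + t / p := by ring
    linarith
  have h5 := mul_le_mul_of_nonneg_right h4 (TT_pos (d + 1)).le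
  rw [Finset.sum_range_succ, ← TT_succ]
  linarith

end SCHEDa

open SCHEDa in
theorem p_SCHED :
    S_SCHED := by
  intro t p i ht hp n
  obtain ⟨l1, hl⟩ := eventually_atTop.1 (hp.2.2 n)
  have hn : (0 : ℝ) ≤ n := n.cast_nonneg
  let nu : ℕ → ℝ := fun l => n * (3 / 2 - (1 / 2) ^ (l + 1))
  have a0 : ∀ l, 0 ≤ nu l := fun l => mul_nonneg hn (by
    linarith [pow_le_one₀ (show (0 : ℝ) ≤ 1 / 2 by norm_num) (by norm_num) (n := l + 1)])
  have a1 : ∀ l, ⌈nu l⌉₊ ≤ 2 * n := fun l => Nat.ceil_le.2 (by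
    have : (0 : ℝ) ≤ n * (1 / 2) ^ (l + 1) := by positivity
    simp only [nu]
    push_cast
    linarith)
  have a2 : ∀ l, nu (l + 1) = nu l + n * (1 / 2) ^ (l + 2) := fun l => by
    simp only [nu]
    ring
  let m : ℕ → ℕ := fun l => if l ≤ i then 0 else ⌈nu (min l l1)⌉₊ - (l - l1)
  have hm : ∀ l, m l ≤ 2 * n := fun l => by
    have := a1 (min l l1)
    simp only [m]
    split_ifs <;> omega
  refine ⟨l1 + 2 * n, m, hm, fun l h => ?_, fun l h => ?_⟩
  · have := a1 (min l l1)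
    simp only [m]
    split_ifs <;> omega
  obtain ⟨d, rfl⟩ : ∃ d, l = d + 1 := ⟨l - 1, by omega⟩
  refine reduce hm ?_
  by_cases c : d + 1 ≤ l1
  · have b1 : m d ≤ ⌈nu d⌉₊ := by
      simp only [m, min_eq_left (show d ≤ l1 by omega)]
      split_ifs <;> omega
    have b2 : m (d + 1) = ⌈nu (d + 1)⌉₊ := by
      simp only [m, min_eq_left c]
      split_ifs <;> omega
    have b3 : (m d : ℝ) ≤ ⌈nu d⌉₊ := by exact_mod_cast b1
    have b4 := mul_le_mul_of_nonneg_left (lam_le ht (d + 1)) hn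
    have b5 : 1 ≤ t (d + 1) / p := (one_le_div (by linarith [hp.1])).2 (hp.2.1 _ h)
    rw [b2]
    linarith [Nat.ceil_lt_add_one (a0 d), Nat.le_ceil (nu (d + 1)), a2 d]
  · have b1 : m d ≤ m (d + 1) + 1 := by
      simp only [m, min_eq_right (show l1 ≤ d by omega), min_eq_right (show l1 ≤ d + 1 by omega)]
      split_ifs <;> omega
    have b3 : (m d : ℝ) ≤ m (d + 1) + 1 := by exact_mod_cast b1
    linarith [hl (d + 1) (by omega)]

end Pool.Agent.P.MP_56bcbf_an.R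

end
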