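import Pool.Agent.P.MP_56bcbf_an.R.Iface

section

/-! Step PINR. -/

namespace Pool.Agent.P.MP_56bcbf_an.R

open Set Metric Filter Topology Complex MeasureTheory Real
open scoped ENNReal

namespace PINRa

theorem fs {ι X : Type} [TopologicalSpace X] {ρ h : ι → ℝ} {q : X → ℝ} (hq : Continuous q)
    (hh : ∀ j, h j ≤ 1 / 2) (sep : ∀ j k, j ≠ k → h j + h k < |ρ j - ρ k|)
    (fin : ∀ R : ℝ, {j | ρ j ≤ R}.Finite) {e : ι → X → ℝ} (he : ∀ j, Continuous (e j))
    (h0 : ∀ j x, h j < |q x - ρ j| → e j x = 0) :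
    ∃ F : X → ℝ, Continuous F ∧ (∀ x j, |q x - ρ j| ≤ h j → F x = e j x) ∧
      ∀ x, (∀ j, h j < |q x - ρ j|) → F x = 0 := by
  refine ⟨fun x => ∑ᶠ j, e j x, continuous_finsum he fun x => ⟨{y | q y < q x + 1},
    (isOpen_lt hq continuous_const).mem_nhds (by simp), (fin (q x + 2)).subset ?_⟩,
    fun x j hj => finsum_eq_single _ j fun k hk => h0 k x ?_,
    fun x hx => finsum_eq_zero_of_forall_eq_zero fun j => h0 j x (hx j)⟩
  · rintro j ⟨y, h1, h2⟩
    have := abs_le.1 (not_lt.1 fun h => h1 (h0 j y h))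
    have h3 : q y < q x + 1 := h2
    show ρ j ≤ q x + 2
    linarith [hh j]
  · have := sep k j hk
    have h2 := abs_sub_le (ρ k) (q x) (ρ j)
    rw [abs_sub_comm (ρ k) (q x)] at h2
    linarith

theorem tent {ι : Type} {θ ρ h : ι → ℝ} {α : ℝ → ℝ} (hα : Continuous α)
    (hh : ∀ j, h j ≤ 1 / 2) (sep : ∀ j k, j ≠ k → h j + h k < |ρ j - ρ k|)
    (fin : ∀ R : ℝ, {j | ρ j ≤ R}.Finite) (ha : ∀ s, 3 ≤ s → 0 < α s ∧ α s ≤ π / 2)
    (hρ : ∀ j, 4 ≤ ρ j) (hθ : ∀ j s, |s - ρ j| ≤ h j → -α s < θ j) (h0 : ∀ j, 0 ≤ h j)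
    (f K : ι → ℝ) (hK : ∀ j, 0 ≤ K j) (hf : ∀ j, π ≤ K j * (h j - f j)) :
    ∃ Z : ℝ → ℝ, Continuous Z ∧ (∀ s, 3 ≤ s → -α s < Z s ∧ Z s ≤ α s) ∧
      (∀ s, (∀ j, h j < |s - ρ j|) → Z s = α s) ∧
      ∀ s j, |s - ρ j| ≤ h j → Z s = min (α s) (θ j + K j * max (|s - ρ j| - f j) 0) := by
  obtain ⟨F, h1, h2, h3⟩ := fs (q := id) continuous_id hh sep fin
    (e := fun j s => max 0 (min (α s) (π / 2) - θ j - K j * max (|s - ρ j| - f j) 0))
    (fun j => by fun_prop) fun j s hs => max_eq_left (by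
      have h4 := hθ j (ρ j) (by simpa using h0 j)
      have h5 := (ha (ρ j) (by linarith [hρ j])).2
      have h6 : K j * (h j - f j) ≤ K j * max (|s - ρ j| - f j) 0 :=
        mul_le_mul_of_nonneg_left (le_max_of_le_left (by linarith [show h j < |s - ρ j| from hs]))
          (hK j)
      linarith [hf j, min_le_right (α s) (π / 2)])
  have h4 : ∀ s j, |s - ρ j| ≤ h j →
      α s - F s = min (α s) (θ j + K j * max (|s - ρ j| - f j) 0) := fun s j hs => by
    have := abs_le.1 hs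
    rw [h2 s j hs, min_eq_left (ha s (by linarith [hρ j, hh j])).2]
    rcases le_total (α s) (θ j + K j * max (|s - ρ j| - f j) 0) with h | h
    · rw [min_eq_left h, max_eq_left (by linarith), sub_zero]
    · rw [min_eq_right h, max_eq_right (by linarith)]
      ring
  refine ⟨fun s => α s - F s, hα.sub h1, fun s hs => ?_, fun s hs => by simp [h3 s hs], h4⟩
  have h5 := (ha s hs).1
  by_cases hj : ∃ j, |s - ρ j| ≤ h j
  · obtain ⟨j, hj⟩ := hj
    simp only [h4 s j hj]
    have := mul_nonneg (hK j) (le_max_right (|s - ρ j| - f j) 0)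
    exact ⟨lt_min (by linarith) (by linarith [hθ j s hj]), min_le_left _ _⟩
  · push Not at hj
    simp only [h3 s hj]
    constructor <;> linarith

/-- The clamp. -/
noncomputable def cl (u : ℝ) : ℝ := max (-1) (min 1 u)

/-- The push away from the needle. -/
noncomputable def kap (c h u : ℝ) : ℝ := cl (u / c) - cl (u / h)

theorem cl_one {c u : ℝ} (hc : 0 < c) (h : c ≤ u) : cl (u / c) = 1 := by
  rw [cl, min_eq_left ((one_le_div hc).2 h), max_eq_right (by norm_num)]

theorem cl_neg (u : ℝ) : cl (-u) = -cl u := by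
  unfold cl
  grind

theorem kap_neg (c h u : ℝ) : kap c h (-u) = -kap c h u := by
  rw [kap, kap, neg_div, neg_div, cl_neg, cl_neg]
  ring

variable {c h u v β : ℝ}

theorem kap_zero (hc : 0 < c) (hh : c ≤ h) (hu : h ≤ |u|) : kap c h u = 0 := by
  have : ∀ u, h ≤ u → kap c h u = 0 := fun u hu => by
    rw [kap, cl_one hc (hh.trans hu), cl_one (hc.trans_le hh) hu, sub_self]
  rcases le_abs.1 hu with h1 | h1
  · exact this u h1
  · rw [← neg_eq_zero, ← kap_neg, this _ h1]

theorem kap_abs (hc : 0 < c) (hh : c ≤ h) : |kap c h u| ≤ 1 := by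
  have : ∀ u, 0 ≤ u → |kap c h u| ≤ 1 := fun u hu => by
    have h1 := div_nonneg hu hc.le
    have h2 := div_nonneg hu (hc.le.trans hh)
    unfold kap cl
    grind
  rcases le_total 0 u with h1 | h1
  · exact this u h1
  · rw [← abs_neg, ← kap_neg]
    exact this _ (by linarith)

theorem kap_mono (hc : 0 < c) (hh : 0 < h) (h0 : 0 ≤ β) (hβ : β < h) (huv : u < v) :
    u + β * kap c h u < v + β * kap c h v := by
  have h1 : u / c ≤ v / c := by gcongr
  have h2 : u / h ≤ v / h := by gcongr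
  have h3 : cl (u / c) ≤ cl (v / c) := by
    unfold cl
    gcongr
  have h4 : cl (v / h) - cl (u / h) ≤ v / h - u / h := by
    unfold cl
    grind
  have h5 : β * (v / h - u / h) < v - u := by
    rw [← sub_div, ← mul_div_assoc, div_lt_iff₀ hh]
    nlinarith
  unfold kap
  nlinarith [mul_le_mul_of_nonneg_left h3 h0, mul_le_mul_of_nonneg_left h4 h0]

theorem kap_far (hc : 0 < c) (hβ : β < h) (h1 : c ≤ |u|) (h2 : |u| ≤ h) :
    β < |u + β * kap c h u| := by
  have : ∀ u, c ≤ u → u ≤ h → β < |u + β * kap c h u| := fun u h1 h2 => by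
    have hh : 0 < h := by linarith
    have h3 : u / h ≤ 1 := (div_le_one hh).2 h2
    have h4 : 0 < u / h := div_pos (by linarith) hh
    have h5 : u = u / h * h := by field_simp
    rw [kap, cl_one hc h1, cl, min_eq_right h3, max_eq_right (by linarith)]
    refine lt_of_lt_of_le ?_ (le_abs_self _)
    nlinarith
  rcases le_total 0 u with h3 | h3
  · rw [abs_of_nonneg h3] at h1 h2
    exact this u h1 h2
  · rw [abs_of_nonpos h3] at h1 h2
    have := this _ h1 h2
    rwa [kap_neg, mul_neg, ← neg_add, abs_neg] at this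

end PINRa

open PINRa in
theorem p_PINR :
    S_PINR := by
  intro ι θ ρ ε h α hα ha hp sep fin haw
  have hh : ∀ j, h j ≤ 1 / 2 := fun j => (hp j).2.2.1
  have hρ : ∀ j, 4 ≤ ρ j := fun j => (hp j).2.2.2
  have h0 : ∀ j, 0 < h j := fun j => by linarith [(hp j).1, (hp j).2.1]
  have hθ : ∀ j s, |s - ρ j| ≤ h j → -α s < θ j - 2 * ε j := fun j s hs => by
    linarith [haw j s hs, neg_abs_le (θ j)]
  have hπ : ∀ j, -(π / 2) < θ j - 2 * ε j := fun j => by
    linarith [hθ j (ρ j) (by simpa using (h0 j).le), (ha (ρ j) (by linarith [hρ j])).2]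
  obtain ⟨Z', c1, b1, o1, i1⟩ := tent hα hh sep fin ha hρ hθ (fun j => (h0 j).le)
    (fun j => h j / 2) (fun j => 2 * π / h j) (fun j => by have := h0 j; positivity)
    fun j => by have := h0 j; apply le_of_eq; field_simp; ring
  refine ⟨Z', c1, b1, o1, fun ω hω => ?_⟩
  have hωh : ∀ j, 4 * ω j ≤ h j := fun j => by linarith [(hω j).2, (hp j).2.1]
  obtain ⟨Z, c2, b2, o2, i2⟩ := tent hα hh sep fin ha hρ hθ (fun j => (h0 j).le)
    (fun _ => 0) (fun j => π / ω j) (fun j => by have := (hω j).1; positivity)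
    fun j => by
      have := (hω j).1
      rw [div_mul_eq_mul_div, le_div_iff₀ this]
      nlinarith [hωh j, pi_pos]
  simp only [sub_zero, fun x : ℝ => max_eq_left (abs_nonneg x)] at i2
  set β : ι → ℝ → ℝ := fun j φ => max 0 (ε j - |φ - θ j|) with hβ
  set c : ι → ℝ := fun j => ε j * ω j / π with hc
  have c0 : ∀ j, 0 < c j := fun j => by have := (hω j).1; have := (hp j).1; positivity
  have ch : ∀ j, c j ≤ h j := fun j => by
    rw [hc, div_le_iff₀ pi_pos]
    nlinarith [(hω j).1, (hp j).1, (hp j).2.1, hωh j, hh j, pi_gt_three]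
  have β0 : ∀ j φ, 0 ≤ β j φ := fun j φ => le_max_left _ _
  have βε : ∀ j φ, β j φ ≤ ε j := fun j φ => max_le (hp j).1.le (by linarith [abs_nonneg (φ - θ j)])
  have βh : ∀ j φ, β j φ < h j := fun j φ => by linarith [βε j φ, (hp j).1, (hp j).2.1]
  obtain ⟨F, c3, i3, o3⟩ := fs (X := ℝ × ℝ) continuous_snd hh sep fin
    (e := fun j x => β j x.1 * kap (c j) (h j) (x.2 - ρ j))
    (fun j => by simp only [hβ, kap, cl]; fun_prop)
    fun j x hx => by rw [kap_zero (c0 j) (ch j) hx.le, mul_zero]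
  set ψ : ℝ → ℝ → ℝ := fun φ s => s + F (φ, s) with hψ
  have pin : ∀ φ s j, |s - ρ j| ≤ h j →
      ψ φ s - ρ j = s - ρ j + β j φ * kap (c j) (h j) (s - ρ j) := fun φ s j hs => by
    rw [← i3 (φ, s) j hs]
    simp only [hψ]
    ring
  have pout : ∀ φ s, (∀ j, h j < |s - ρ j|) → ψ φ s = s := fun φ s hs => by
    simp only [hψ, o3 (φ, s) hs, add_zero]
  have pabs : ∀ φ s j, |s - ρ j| ≤ h j → |ψ φ s - s| ≤ β j φ := fun φ s j hs => by
    rw [show ψ φ s - s = β j φ * kap (c j) (h j) (s - ρ j) by linarith [pin φ s j hs], abs_mul,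
      abs_of_nonneg (β0 j φ)]
    exact mul_le_of_le_one_right (β0 j φ) (kap_abs (c0 j) (ch j))
  have pst : ∀ φ s j, |s - ρ j| ≤ h j → |ψ φ s - ρ j| ≤ h j := fun φ s j hs => by
    have m : Monotone fun u => u + β j φ * kap (c j) (h j) u :=
      StrictMono.monotone fun u v huv => kap_mono (c0 j) (h0 j) (β0 j φ) (βh j φ) huv
    have h1 := m (abs_le.1 hs).1
    have h2 := m (abs_le.1 hs).2
    simp only [kap_zero (c0 j) (ch j) (le_abs_self _),
      kap_zero (c0 j) (ch j) (show h j ≤ |-h j| by rw [abs_neg]; exact le_abs_self _)] at h1 h2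
    rw [pin φ s j hs, abs_le]
    constructor <;> linarith
  have cases : ∀ s, (∃ j, |s - ρ j| ≤ h j) ∨ ∀ j, h j < |s - ρ j| := fun s => by
    by_contra! hc
    obtain ⟨h1, j, h2⟩ := hc
    exact (h1 j).not_ge h2
  have uniq : ∀ s j k, |s - ρ j| ≤ h j → |s - ρ k| ≤ h k → j = k := fun s j k h1 h2 => by
    by_contra hne
    have h3 := abs_sub_le (ρ j) s (ρ k)
    rw [abs_sub_comm (ρ j) s] at h3
    linarith [sep j k hne]
  have pback : ∀ φ s j, |ψ φ s - ρ j| ≤ h j → |s - ρ j| ≤ h j := fun φ s j hs => by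
    rcases cases s with ⟨k, hk⟩ | hk
    · rwa [uniq _ j k hs (pst φ s k hk)]
    · rwa [pout φ s hk] at hs
  have side : ∀ φ s j, ρ j + h j < s → ρ j + h j < ψ φ s := fun φ s j hs => by
    rcases cases s with ⟨k, hk⟩ | hk
    · have hne : j ≠ k := by
        rintro rfl
        linarith [(abs_le.1 hk).2]
      have h1 := abs_le.1 hk
      have h2 := abs_le.1 (pst φ s k hk)
      rcases lt_abs.1 (sep j k hne) with h3 | h3 <;> linarith [h0 j]
    · rwa [pout φ s hk]
  have mono : ∀ φ, StrictMono (ψ φ) := fun φ s s' hs => by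
    rcases cases s with ⟨j, hj⟩ | hj
    · by_cases hj' : |s' - ρ j| ≤ h j
      · have := kap_mono (c0 j) (h0 j) (β0 j φ) (βh j φ) (sub_lt_sub_right hs (ρ j))
        linarith [pin φ s j hj, pin φ s' j hj']
      · have h1 := abs_le.1 hj
        have h2 := side φ s' j (by rcases lt_abs.1 (not_le.1 hj') with h | h <;> linarith)
        linarith [(abs_le.1 (pst φ s j hj)).2]
    · rw [pout φ s hj]
      rcases cases s' with ⟨k, hk⟩ | hk
      · have h1 := abs_le.1 hk
        have h2 := abs_le.1 (pst φ s' k hk)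
        rcases lt_abs.1 (hj k) with h | h <;> linarith
      · rwa [pout φ s' hk]
  have near : ∀ φ s, |ψ φ s - s| ≤ 1 := fun φ s => by
    rcases cases s with ⟨j, hj⟩ | hj
    · linarith [pabs φ s j hj, βh j φ, hh j]
    · simp [pout φ s hj]
  have cψ : Continuous (Function.uncurry ψ) := continuous_snd.add c3
  have p3 : ∀ φ, ψ φ 3 = 3 := fun φ => pout φ 3 fun j =>
    lt_abs.2 (Or.inr (by linarith [hρ j, hh j]))
  have surj : ∀ φ r, 3 < r → ∃ s, 3 < s ∧ ψ φ s = r := fun φ r hr => by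
    obtain ⟨s, -, hs⟩ := intermediate_value_Icc (show r - 1 ≤ r + 1 by linarith)
      (cψ.comp (Continuous.prodMk_right φ)).continuousOn
      (show r ∈ Icc (ψ φ (r - 1)) (ψ φ (r + 1)) from
        ⟨by linarith [(abs_le.1 (near φ (r - 1))).2], by linarith [(abs_le.1 (near φ (r + 1))).1]⟩)
    have hs' : ψ φ s = r := hs
    exact ⟨s, (mono φ).lt_iff_lt.1 (by rwa [p3, hs']), hs'⟩
  have dich : ∀ φ s j, |s - ρ j| ≤ h j → ψ φ s = s ∨ |φ - θ j| < ε j := fun φ s j hs => by
    by_cases h1 : |φ - θ j| < ε j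
    · exact Or.inr h1
    · have h2 := pabs φ s j hs
      rw [show β j φ = 0 from max_eq_left (by linarith)] at h2
      exact Or.inl (sub_eq_zero.1 (abs_nonpos_iff.1 h2))
  have ang : ∀ φ s j, |s - ρ j| ≤ h j → |φ - θ j| < ε j → |φ| < α s := fun φ s j h1 h2 => by
    linarith [haw j s h1, abs_sub_abs_le_abs_sub φ (θ j), (hp j).1]
  have steep : ∀ φ s j, φ < π / 2 → ω j ≤ |s - ρ j| → φ < θ j - 2 * ε j + π / ω j * |s - ρ j| :=
    fun φ s j h1 h2 => by
      have h3 : π / ω j * ω j ≤ π / ω j * |s - ρ j| :=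
        mul_le_mul_of_nonneg_left h2 (div_pos pi_pos (hω j).1).le
      rw [div_mul_cancel₀ _ (hω j).1.ne'] at h3
      linarith [hπ j]
  refine ⟨Z, ψ, c2, cψ, mono, fun φ s => by linarith [(abs_le.1 (near φ s)).1], b2,
    fun φ r hr h1 h2 => ?_, fun φ s hs h1 h2 => ⟨?_, ?_, fun j => ?_⟩, fun φ r hr h1 => ?_⟩
  · obtain ⟨s, hs, rfl⟩ := surj φ r hr
    have h3 := h2.trans_le (b1 _ hr.le).2
    have h4 := h3.trans_le (ha _ hr.le).2
    rcases cases s with ⟨j, hj⟩ | hj
    · rw [i1 _ j (pst φ s j hj)] at h2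
      have h5 := h2.trans_le (min_le_right _ _)
      have h6 : φ < θ j - 2 * ε j ∨ h j / 2 < |ψ φ s - ρ j| := by
        by_contra! hc
        rw [max_eq_right (by linarith [hc.2])] at h5
        linarith [hc.1]
      have h7 : |φ| < α s := by
        rcases dich φ s j hj with e | e
        · rw [e] at h1 h3
          exact abs_lt.2 ⟨h1, h3⟩
        · exact ang φ s j hj e
      refine ⟨s, hs, (abs_lt.1 h7).1, ?_, rfl⟩
      rw [i2 s j hj]
      refine lt_min (abs_lt.1 h7).2 ?_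
      rcases h6 with h6 | h6
      · exact h6.trans_le (le_add_of_nonneg_right (by have := (hω j).1; positivity))
      · refine steep φ s j h4 ?_
        have := abs_sub_le (ψ φ s) s (ρ j)
        linarith [pabs φ s j hj, βε j φ, (hp j).2.1, (hω j).2]
    · rw [pout φ s hj] at h1 h3
      exact ⟨s, hs, h1, by rwa [o2 s hj], rfl⟩
  · exact (p3 φ).ge.trans_lt (mono φ hs)
  · have h3 := abs_lt.2 ⟨h1, h2.trans_le (b2 s hs.le).2⟩
    rcases cases s with ⟨j, hj⟩ | hj
    · rcases dich φ s j hj with e | e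
      · rwa [e]
      · exact ang φ _ j (pst φ s j hj) e
    · rwa [pout φ s hj]
  · by_contra! hc
    have h3 := pback φ s j (by linarith [hc.2, (hp j).1, (hp j).2.1])
    rw [i2 s j h3] at h2
    have h4 := h2.trans_le (min_le_right _ _)
    have h5 : c j ≤ |s - ρ j| := by
      have h6 : ε j ≤ π / ω j * |s - ρ j| := by linarith [(abs_le.1 hc.1).1, (hp j).1]
      rw [div_mul_eq_mul_div, le_div_iff₀ (hω j).1] at h6
      rw [div_le_iff₀ pi_pos]
      linarith
    have h6 := kap_far (c0 j) (βh j φ) h5 h3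
    rw [← pin φ s j h3] at h6
    linarith [hc.1, hc.2, show ε j - |φ - θ j| ≤ β j φ from le_max_right _ _]
  · obtain ⟨s, hs, rfl⟩ := surj φ r hr
    rcases cases s with ⟨j, hj⟩ | hj
    · have h7 : |φ| < α s := by
        rcases dich φ s j hj with e | e
        · rwa [e] at h1
        · exact ang φ s j hj e
      by_cases h2 : ω j ≤ |s - ρ j|
      · refine Or.inl ⟨s, hs, (abs_lt.1 h7).1, ?_, rfl⟩
        rw [i2 s j hj]
        exact lt_min (abs_lt.1 h7).2 (steep φ s j ((abs_lt.1 h7).2.trans_le (ha s hs.le).2) h2)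
      · refine Or.inr ⟨j, ?_⟩
        rcases dich φ s j hj with e | e
        · exact Or.inr (by rw [e]; exact (not_le.1 h2).le)
        · have := abs_sub_le (ψ φ s) s (ρ j)
          exact Or.inl ⟨e.le, by linarith [pabs φ s j hj, βε j φ, (hω j).2]⟩
    · rw [pout φ s hj] at h1
      exact Or.inl ⟨s, hs, (abs_lt.1 h1).1, by rw [o2 s hj]; exact (abs_lt.1 h1).2, rfl⟩

end Pool.Agent.P.MP_56bcbf_an.R

end
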