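import Pool.Agent.P.MP_56bcbf_an.R.Iface

section

/-! Step INCB. -/

namespace Pool.Agent.P.MP_56bcbf_an.R

open Set Metric Filter Topology Complex MeasureTheory Real
open scoped ENNReal

namespace INCBa

theorem norm_exp_sq (v : ℂ) : ‖cexp (17 * v ^ 2)‖ = Real.exp (34 * v.re ^ 2 - 17 * ‖v‖ ^ 2) := by
  rw [Complex.norm_exp, Complex.sq_norm, normSq_apply]
  congr 1
  simp [pow_two]
  ring

/-- The gain from the row before. -/
noncomputable def gn : ℕ → ℂ → ℝ
  | 0, _ => 0
  | k + 1, v => tau k * v.re * (1 - rr k ^ 2 / ‖v‖ ^ 2)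

theorem prod_ge (hEA : S_EA) (hPROD : S_PROD) {L l : ℕ} (hl : l ≤ L) {v : ℂ} (h0 : 0 < v.re)
    (hv : ‖v‖ = rr l) :
    Real.exp (gn l v) * (1 / 2) ≤ ‖∏ k ∈ (Finset.range (L + 1)).erase l, EE (rr k) (tau k) v‖ := by
  have h1 : v ≠ 0 := norm_pos_iff.1 (hv ▸ rr_pos l)
  have h2 : ∀ A : Finset ℕ, l ∉ A → 1 / 2 ≤ ‖∏ k ∈ A, EE (rr k) (tau k) v‖ := fun A hA =>
    (hPROD v A h0.le h1).1 fun k hk => by
      have := rr_pos k
      rcases lt_or_gt_of_ne (show k ≠ l from fun e => hA (e ▸ hk)) with b | b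
      · exact Or.inr (by linarith [rr_lt b])
      · exact Or.inl (by linarith [rr_lt b, rr_pos l])
  cases l with
  | zero => simpa [gn] using h2 _ (Finset.notMem_erase _ _)
  | succ k =>
    have hk : k ∈ (Finset.range (L + 1)).erase (k + 1) := by simp; omega
    rw [← Finset.mul_prod_erase _ _ hk, norm_mul]
    gcongr
    · exact (hEA (rr k) (tau k) v (rr_pos k) (tau_pos k).le h0.le h1).2.1
        (by linarith [rr_lt (lt_add_one k), rr_pos k])
    · exact h2 _ (by simp)

/-- The bound of one term. -/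
noncomputable def q (t : ℕ → ℝ) (p : ℝ) (l : ℕ) (v : ℂ) : ℝ :=
  rr l * Real.exp (34 * v.re ^ 2 - 17 * rr l ^ 2 - gn l v) *
    (2 * ‖v + I / 2‖ ^ 2 / (ep t l v / 2)) ^ (2 / p) * (120 * tau l)

theorem q_nonneg (t : ℕ → ℝ) (p : ℝ) (l : ℕ) (v : ℂ) : 0 ≤ q t p l v := by
  have := rr_pos l
  have := tau_pos l
  unfold q ep
  positivity

theorem q_le {t : ℕ → ℝ} {p : ℝ} (hp : 1 ≤ p) {k : ℕ} (ht : t (k + 1) / p ≤ 1 - 12 / sg (k + 1))
    {v : ℂ} (h0 : 0 < v.re) (hv : ‖v‖ = rr (k + 1)) :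
    3 * tau (k + 1) * rr (k + 1) * q t p (k + 1) v ≤ (1 / 2) ^ (k + 1 + 5) := by
  have h1 : gn (k + 1) v = π * sg (k + 1) * v.re * (sg (k + 1) ^ 2 - 1) := by
    have := sg_pos (k + 1)
    rw [gn, hv, ← TT_succ, rr_eq k, rr, TT]
    field_simp
  rw [q, h1]
  generalize k + 1 = l at *
  have r1 := rr_ge l
  have s1 := sg_32 l
  have t1 := tau_pos l
  have h2 : ‖v + I / 2‖ ≤ 2 * rr l := (norm_add_le _ _).trans (by simp; linarith)
  have h3 : (2 * ‖v + I / 2‖ ^ 2 / (ep t l v / 2)) ^ (2 / p) ≤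
      (16 * rr l ^ 2) ^ 2 * Real.exp ((sg l - 12) * (π * sg l ^ 2 * (v.re + sg l))) := by
    calc _ ≤ (16 * rr l ^ 2 * Real.exp (t l / 2 * TT l * (v.re + sg l))) ^ (2 / p) := by
          unfold ep
          gcongr
          rw [Real.exp_neg, div_div_eq_mul_div, div_inv_eq_mul]
          gcongr ?_ * _
          nlinarith [norm_nonneg (v + I / 2)]
      _ = (16 * rr l ^ 2) ^ (2 / p) *
          Real.exp (t l / p * sg l * (π * sg l ^ 2 * (v.re + sg l))) := by
          rw [Real.mul_rpow (by positivity) (by positivity), ← Real.exp_mul, TT]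
          congr 2
          ring
      _ ≤ _ := by
          rw [← Real.rpow_two (16 * _)]
          gcongr
          · nlinarith
          · exact div_le_self two_pos.le hp
          · calc _ ≤ (1 - 12 / sg l) * sg l := by gcongr
              _ = _ := by field_simp
  have h4 := poly_le l (c := 92160 * π ^ 2) (a := 5) (n := 24)
    (by nlinarith [pi_le_four, pi_pos]) (by norm_num)
  have h5 : v.re ≤ sg l ^ 2 := (Complex.re_le_norm v).trans hv.le
  calc _ ≤ 3 * tau l * rr l * (rr l * Real.exp (34 * v.re ^ 2 - 17 * rr l ^ 2 -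
          π * sg l * v.re * (sg l ^ 2 - 1)) * ((16 * rr l ^ 2) ^ 2 *
          Real.exp ((sg l - 12) * (π * sg l ^ 2 * (v.re + sg l)))) * (120 * tau l)) := by gcongr
    _ = 92160 * π ^ 2 * sg l ^ 24 * Real.exp (34 * v.re ^ 2 - 17 * rr l ^ 2 -
          π * sg l * v.re * (sg l ^ 2 - 1) + (sg l - 12) * (π * sg l ^ 2 * (v.re + sg l))) := by
        rw [Real.exp_add]
        generalize Real.exp _ = a
        generalize Real.exp _ = b
        rw [tau, rr]
        ring
    _ ≤ Real.exp (rr l) * Real.exp (-sg l - rr l) := by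
        gcongr ?_ * Real.exp ?_
        rw [rr] at *
        have a1 : 34 * v.re + π * sg l ≤ 12 * π * sg l ^ 2 := by
          nlinarith [pi_gt_d2, mul_le_mul_of_nonneg_left s1 (mul_pos pi_pos (sg_pos l)).le]
        have a2 : π * (sg l ^ 2) ^ 2 ≤ 4 * (sg l ^ 2) ^ 2 := by gcongr; exact pi_le_four
        have a3 : 0 ≤ π * sg l ^ 3 := by positivity
        nlinarith [mul_le_mul_of_nonneg_right a1 h0.le]
    _ ≤ _ := by
        rw [← Real.exp_add]
        convert exp_sg_le l using 2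
        ring

end INCBa

open INCBa in
theorem p_INCB (hEA : S_EA) (hEB : S_EB) (hPROD : S_PROD) (hBEAD : S_BEAD) :
    S_INCB := by
  have hB := fun l => hEB (rr l) (tau l) (by linarith [rr_ge l]) (tau_ge l)
  refine ⟨fun L l v hl hv => ?_, fun t p hp ht =>
    ⟨fun l => ∑ v ∈ (hBEAD.2.1 l).1.toFinset, q t p l v, ?_, fun L l S hl hS => ?_⟩⟩
  · obtain ⟨h1, h2⟩ := (hB l).2.2.1 v hv.1 hv.2
    have r1 := rr_pos l
    have h0 : v ≠ 0 := norm_pos_iff.1 (h1 ▸ r1)
    have h3 := prod_ge hEA hPROD hl hv.1 h1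
    have h4 := hasDerivAt_iff_tendsto_slope.1 ((hB l).2.1 v h0).hasDerivAt
    have h5 : Tendsto (fun u => ∏ k ∈ (Finset.range (L + 1)).erase l, EE (rr k) (tau k) u)
        (𝓝[≠] v) (𝓝 _) :=
      (tendsto_finsetProd _ fun k _ => ((hB k).2.1 v h0).continuousAt).mono_left nhdsWithin_le_nhds
    have h6 : Tendsto (fun u : ℂ => cexp (17 * u ^ 2)) (𝓝[≠] v) (𝓝 _) :=
      (Continuous.tendsto (by fun_prop) v).mono_left nhdsWithin_le_nhds
    have h7 : Tendsto (fun w : ℂ => w - I / 2) (𝓝[≠] (v + I / 2)) (𝓝[≠] v) :=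
      tendsto_nhdsWithin_iff.2 ⟨(Continuous.tendsto' (by fun_prop) _ _ (by ring)).mono_left
        nhdsWithin_le_nhds, eventually_mem_nhdsWithin.mono fun w hw e =>
          hw (eq_add_of_sub_eq e)⟩
    refine ((h6.div (h4.mul h5) (mul_ne_zero (norm_pos_iff.1 (lt_of_lt_of_le (by positivity) h2))
      (norm_pos_iff.1 (lt_of_lt_of_le (by positivity) h3)))).comp h7).congr fun w => ?_
    simp only [Function.comp, Pi.div_apply, slope_def_field, hv.2, FL, sub_zero,
      ← Finset.mul_prod_erase _ _ (Finset.mem_range.2 (Nat.lt_succ_of_le hl)), div_eq_mul_inv,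
      mul_inv, inv_inv]
    ring
  · refine Summable.of_norm_bounded_eventually_nat
      ((summable_nat_add_iff 5).2 summable_geometric_two) ?_
    filter_upwards [ht, eventually_gt_atTop 0] with l h1 h2
    obtain ⟨k, rfl⟩ := Nat.exists_eq_add_one.2 h2
    have h3 := mul_pos (mul_pos three_pos (tau_pos (k + 1))) (rr_pos (k + 1))
    rw [Real.norm_of_nonneg (Finset.sum_nonneg fun v _ => q_nonneg _ _ _ _)]
    refine (Finset.sum_le_card_nsmul _ _
      ((1 / 2) ^ (k + 1 + 5) / (3 * tau (k + 1) * rr (k + 1))) fun v hv => ?_).trans ?_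
    · rw [Set.Finite.mem_toFinset] at hv
      exact (le_div_iff₀' h3).2 (q_le hp h1 hv.1 ((hB _).2.2.1 v hv.1 hv.2).1)
    · rw [nsmul_eq_mul, ← Set.ncard_eq_toFinset_card _ (hBEAD.2.1 _).1, mul_div_assoc',
        div_le_iff₀' h3]
      gcongr
      exact (hBEAD.2.1 _).2
  · refine le_trans (Finset.sum_le_sum fun v hv => ?_) (Finset.sum_le_sum_of_subset_of_nonneg
      (fun v hv => (Set.Finite.mem_toFinset _).2 (hS hv)) fun v _ _ => q_nonneg t p l v)
    obtain ⟨h1, h2⟩ := (hB l).2.2.1 v (hS hv).1 (hS hv).2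
    have h3 := prod_ge hEA hPROD hl (hS hv).1 h1
    have r1 := rr_pos l
    have t1 := tau_pos l
    unfold q ep
    gcongr
    rw [res, norm_div, norm_mul, norm_exp_sq, h1]
    calc _ ≤ Real.exp (34 * v.re ^ 2 - 17 * rr l ^ 2) /
          (2 / rr l * (Real.exp (gn l v) * (1 / 2))) := by gcongr
      _ = _ := by
          rw [Real.exp_sub _ (gn l v)]
          field_simp

end Pool.Agent.P.MP_56bcbf_an.R

end

section

/-! Step INC. -/

namespace Pool.Agent.P.MP_56bcbf_an.R

open Set Metric Filter Topology Complex MeasureTheory Real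
open scoped ENNReal

namespace INCa

theorem gw_cont : Continuous gw := by unfold gw; fun_prop

theorem gw_pos (w : ℂ) : 0 < gw w := Real.exp_pos _

theorem gw_le {w b : ℂ} (hb : 1 ≤ ‖b‖) (h : ‖b‖ - 1 ≤ ‖w‖) :
    gw w ≤ Real.exp (4 - (‖b‖ - 1) ^ 2) := by
  unfold gw
  gcongr

theorem inv_le (l : ℕ) : 1 / (120 * tau l) ≤ 1 := by
  rw [div_le_one (by linarith [tau_ge l])]
  linarith [tau_ge l]

theorem sum_le {S : Finset ℕ} {T : ℕ → Finset ℂ} {f : ℂ → ℝ} (hf : ∀ b, 0 ≤ f b) :
    ∑ b ∈ S.biUnion T, f b ≤ ∑ l ∈ S, ∑ b ∈ T l, f b := by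
  induction S using Finset.induction_on with
  | empty => simp
  | insert a S ha ih =>
    rw [Finset.biUnion_insert, Finset.sum_insert ha]
    have := Finset.sum_union_inter (s₁ := T a) (s₂ := S.biUnion T) (f := f)
    have h2 := Finset.sum_nonneg (s := T a ∩ S.biUnion T) fun b _ => hf b
    linarith

theorem rr_tendsto : Tendsto (fun L => Real.exp (-rr L)) atTop (𝓝 0) :=
  Real.tendsto_exp_neg_atTop_nhds_zero.comp
    ((sg_tendsto.comp (tendsto_add_atTop_nat 1)).congr fun l => (rr_eq l).symm)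

end INCa

open INCa in
theorem p_INC (hEB : S_EB) (hBEAD : S_BEAD) (hPOLES : S_POLES) (hMV : S_MV) (hINCL : S_INCL) (hINCB : S_INCB) :
    S_INC := by
  intro t p Ω ht hp hev hΩ hD hlay hbead
  obtain ⟨hb1, hb2, hb3⟩ := hBEAD
  obtain ⟨hB, -⟩ := hb3 t ht
  obtain ⟨hl1, ⟨C, hC⟩, hl3, c, hc, hl4⟩ := hINCL
  obtain ⟨s, hs, hs2⟩ := hINCB.2 t p hp hev
  have hs0 : ∀ l, 0 ≤ s l := fun l => by simpa using hs2 l l ∅ le_rfl (by simp)
  refine ⟨(|C| + 2 * ∑' l, s l) / c, fun P => ?_⟩
  have hN : 0 ≤ Np p Ω P := ENNReal.toReal_nonneg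
  have mv := fun w η => hMV.1 Ω p P w η hp (DD_bdd.subset hD) hΩ.measurableSet
  generalize Np p Ω P = N at hN mv ⊢
  obtain ⟨B, hB1⟩ := (isCompact_closedBall (0 : ℂ) 1).exists_bound_of_continuousOn
    (f := fun z => P.eval z) (by fun_prop)
  have hB0 : 0 ≤ B := (norm_nonneg _).trans (hB1 0 (by simp))
  rw [div_mul_eq_mul_div, le_div_iff₀ hc]
  have key : ∀ L, ‖P.eval (4 : ℂ)⁻¹‖ * c ≤
      (|C| + 2 * ∑' l, s l) * N + B * Real.exp (-rr L) := by
    intro L
    set V : Set ℂ := {w | gw w / 2 < w.re ∧ ‖w - I / 2‖ < 3 * rr L} with hV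
    set S : Finset ℂ := (Finset.range (L + 1)).biUnion fun l =>
      (hb2 l).1.toFinset.image (· + I / 2) with hS
    set H : ℂ → ℂ := fun w => P.eval w⁻¹ * FL L w with hH
    set cc : ℂ → ℂ := fun b => limUnder (𝓝[≠] b) fun w => (w - b) * H w with hcc
    have mS : ∀ b, b ∈ S ↔ ∃ j : JJ, j.1 ≤ L ∧ bd j = b := fun b => by
      simp only [hS, Finset.mem_biUnion, Finset.mem_image, Finset.mem_range, Finite.mem_toFinset]
      exact ⟨fun ⟨l, h1, v, h2, h3⟩ => ⟨⟨l, v, h2⟩, Nat.le_of_lt_succ h1, h3⟩,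
        fun ⟨j, h1, h2⟩ => ⟨j.1, by omega, j.2.1, j.2.2, h2⟩⟩
    have hcl : ∀ w ∈ closure V, gw w / 2 ≤ w.re ∧ ‖w - I / 2‖ ≤ 3 * rr L :=
      closure_minimal (t := {w | gw w / 2 ≤ w.re ∧ ‖w - I / 2‖ ≤ 3 * rr L})
        (fun w h => ⟨h.1.le, h.2.le⟩) ((isClosed_le (gw_cont.div_const 2) continuous_re).inter
          (isClosed_le (continuous_id.sub continuous_const).norm continuous_const))
    have hVo : IsOpen V := (isOpen_lt (gw_cont.div_const 2) continuous_re).inter
      (isOpen_lt (continuous_id.sub continuous_const).norm continuous_const)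
    have hj0 : ∀ j : JJ, ‖bd j - I / 2‖ = rr j.1 := fun j => by
      rw [bd, add_sub_cancel_right, (hb1 j).1]
    have hT : ∀ j : JJ, j.1 ≤ L → Tendsto (fun w => (w - bd j) * H w) (𝓝[≠] (bd j))
        (𝓝 (P.eval (bd j)⁻¹ * res L j.1 j.2.1)) := fun j hj => by
      have h0 : bd j ≠ 0 := norm_pos_iff.1 (by linarith [hB.big j])
      have h1 : ContinuousAt (fun w : ℂ => P.eval w⁻¹) (bd j) :=
        P.continuous.continuousAt.comp (continuousAt_inv₀ h0)
      refine ((h1.tendsto.mono_left nhdsWithin_le_nhds).mul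
        (hINCB.1 L j.1 j.2.1 hj j.2.2)).congr fun w => ?_
      simp only [hH, bd]
      ring
    have hsum : ∀ w, (∀ j : JJ, j.1 ≤ L → 1 / (120 * tau j.1) ≤ ‖w - bd j‖) →
        ∑ b ∈ S, ‖cc b‖ / ‖w - b‖ ≤ (∑' l, s l) * N := fun w hw => by
      refine (sum_le fun b => by positivity).trans ?_
      refine le_trans ?_ (mul_le_mul_of_nonneg_right
        (hs.sum_le_tsum (Finset.range (L + 1)) fun l _ => hs0 l) hN)
      rw [Finset.sum_mul]
      refine Finset.sum_le_sum fun l hl => ?_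
      have hl' : l ≤ L := by simpa [Nat.lt_succ_iff] using hl
      rw [Finset.sum_image fun _ _ _ _ h => add_right_cancel h]
      refine le_trans ?_ (mul_le_mul_of_nonneg_right
        (hs2 L l (hb2 l).1.toFinset hl' (by simp)) hN)
      rw [Finset.sum_mul]
      refine Finset.sum_le_sum fun v hv => ?_
      let j : JJ := ⟨l, v, by simpa using hv⟩
      have e : cc (v + I / 2) = P.eval (bd j)⁻¹ * res L l v := (hT j hl').limUnder_eq
      have h1 := mv (bd j) (ej t j / 2) (half_pos (hB.pos j))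
        (by linarith [hB.pos j, hB.le j, hB.hle j, hB.big j]) (hbead j)
      have h2 : 1 / (120 * tau l) ≤ ‖w - (v + I / 2)‖ := hw j hl'
      have h3 := tau_pos l
      have h4 : ‖w - (v + I / 2)‖⁻¹ ≤ 120 * tau l :=
        inv_le_of_inv_le₀ (by positivity) (by rwa [one_div] at h2)
      rw [e, norm_mul, div_eq_mul_inv]
      refine (mul_le_mul (mul_le_mul_of_nonneg_right h1 (norm_nonneg _)) h4 (by positivity)
        (mul_nonneg ((norm_nonneg _).trans h1) (norm_nonneg _))).trans_eq ?_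
      simp only [bd, ej, j]
      ring
    have h4 : ∀ j : JJ, 1 ≤ ‖(4 : ℂ) - bd j‖ := fun j => by
      have h1 := abs_le.1 (hb1 j).2.1
      have h2 := norm_sub_norm_le (bd j) 4
      rw [norm_sub_rev]
      simp only [Complex.norm_ofNat] at h2
      linarith [rr_ge j.1]
    have hI : ‖I / 2‖ = 1 / 2 := by simp
    have := hPOLES V S H cc (|C| * N + B * Real.exp (-rr L) + (∑' l, s l) * N) hVo
      (isBounded_ball.subset fun w h => mem_ball_iff_norm.2 h.2) ?_ ?_ ?_ ?_ 4 ?_ ?_
    · have h1 := hsum 4 fun j _ => (inv_le _).trans (h4 j)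
      have h2 : ‖P.eval (4 : ℂ)⁻¹‖ * c ≤ ‖H 4‖ := by
        simp only [hH, norm_mul]
        gcongr
        exact hl4 L
      linarith
    · intro b hb
      obtain ⟨j, h1, rfl⟩ := (mS b).1 hb
      have h2 := hB.away j
      have h3 := gw_le (w := bd j) (b := bd j) (by linarith [hB.big j]) (by linarith)
      have h5 := mul_pos (norm_pos_iff.2 (norm_pos_iff.1 (by linarith [hB.big j] : 0 < ‖bd j‖)))
        (hB.pos j)
      exact ⟨by linarith [gw_pos (bd j)], by linarith [hj0 j, rr_mono h1, rr_pos L]⟩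
    · intro w hw hwS
      have h1 : 0 < w.re := by linarith [(hcl w hw).1, gw_pos w]
      have h2 : 0 < (w - I / 2).re := by simpa using h1
      have h3 : w ≠ 0 := fun h => by simp [h] at h1
      have h5 : w - I / 2 ≠ 0 := fun h => by simp [h] at h2
      refine (P.differentiableAt.comp w (differentiableAt_inv h3)).mul
        (DifferentiableAt.div (by fun_prop) (DifferentiableAt.fun_finsetProd fun k _ => ?_)
          (Finset.prod_ne_zero_iff.2 fun k hk h => hwS ((mS w).2
            ⟨⟨k, w - I / 2, h2, h⟩, by simpa [Nat.lt_succ_iff] using hk, by simp [bd]⟩)))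
      exact ((hEB (rr k) _ (by linarith [rr_ge k]) (tau_ge k)).2.1 _ h5).comp
        (f := fun w => w - I / 2) w (by fun_prop)
    · intro b hb
      obtain ⟨j, h1, rfl⟩ := (mS b).1 hb
      exact tendsto_nhds_limUnder ⟨_, hT j h1⟩
    · intro w hw
      rw [hVo.frontier_eq] at hw
      obtain ⟨h1, h2⟩ := hcl w hw.1
      have hE := mul_nonneg hB0 (Real.exp_pos (-rr L)).le
      by_cases h : w.re = gw w / 2
      · obtain ⟨a1, a2⟩ := hl1 w h
        have a3 : Real.exp (-(3 * ‖w‖ ^ 2)) ≤ 1 :=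
          Real.exp_le_one_iff.2 (neg_nonpos.2 (by positivity))
        have a4 := mv w _ (Real.exp_pos _) (by linarith)
          fun z hz => hlay z (a2 _ hz).1 (a2 _ hz).2.1 (a2 _ hz).2.2
        have a5 : 1 ≤ 2 * ‖w‖ ^ 2 / Real.exp (-(3 * ‖w‖ ^ 2)) := by
          rw [le_div_iff₀ (Real.exp_pos _)]
          nlinarith
        have a6 := Real.rpow_le_rpow_of_exponent_le a5 (show 2 / p ≤ (2 : ℕ) by
          rw [div_le_iff₀ (by linarith)]
          push_cast
          linarith)
        rw [Real.rpow_natCast] at a6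
        have a7 : ‖H w‖ ≤ |C| * N := by
          have a8 := mul_le_mul_of_nonneg_right ((hC L w h).trans (le_abs_self C)) hN
          have a9 := mul_le_mul_of_nonneg_right (a4.trans (mul_le_mul_of_nonneg_right a6 hN))
            (norm_nonneg (FL L w))
          simp only [hH, norm_mul]
          linarith
        have := hsum w fun j _ => by
          by_cases hd : 1 ≤ ‖w - bd j‖
          · exact (inv_le _).trans hd
          have b1 := norm_sub_norm_le (bd j) w
          rw [norm_sub_rev] at b1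
          have b2 := gw_le (w := w) (b := bd j) (by linarith [hB.big j]) (by linarith)
          have b3 := hB.away j
          have b4 := mul_nonneg (norm_nonneg (bd j)) (hB.pos j).le
          have b5 := (hb1 j).2.2
          have b6 := (neg_le_abs _).trans (Complex.abs_re_le_norm (w - bd j))
          have b7 : 1 / (120 * tau j.1) = 1 / (60 * tau j.1) / 2 := by ring
          have b8 : 0 < 1 / (60 * tau j.1) := by have := tau_pos j.1; positivity
          rw [sub_re] at b6
          linarith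
        linarith
      · have a1 : ‖w - I / 2‖ = 3 * rr L :=
          h2.antisymm (not_lt.1 fun h' => hw.2 ⟨lt_of_le_of_ne h1 (Ne.symm h), h'⟩)
        have a2 := norm_sub_le w (I / 2)
        have a3 : ‖H w‖ ≤ B * Real.exp (-rr L) := by
          simp only [hH, norm_mul]
          refine mul_le_mul (hB1 _ ?_) (hl3 L w (by linarith [gw_pos w]) a1) (norm_nonneg _) hB0
          rw [mem_closedBall_zero_iff, norm_inv]
          exact inv_le_one_of_one_le₀ (by linarith [rr_ge L])
        have := hsum w fun j hj => (inv_le _).trans (by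
          have b1 := norm_sub_norm_le (w - I / 2) (bd j - I / 2)
          rw [sub_sub_sub_cancel_right] at b1
          linarith [hj0 j, rr_mono hj, rr_ge L])
        linarith [mul_nonneg (abs_nonneg C) hN]
    · have h1 := norm_sub_le (4 : ℂ) (I / 2)
      have h2 : gw 4 ≤ 1 := Real.exp_le_one_iff.2 (by norm_num)
      simp only [Complex.norm_ofNat] at h1
      exact ⟨by simp only [re_ofNat]; linarith, by linarith [rr_ge L]⟩
    · intro hb
      obtain ⟨j, -, h1⟩ := (mS _).1 hb
      have := h4 j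
      rw [h1] at this
      norm_num at this
  simpa using ge_of_tendsto' ((rr_tendsto.const_mul B).const_add _) key

end Pool.Agent.P.MP_56bcbf_an.R

end
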