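import Pool.Agent.P.MP_56bcbf_an.R.Iface

section

/-! Step WID. -/

namespace Pool.Agent.P.MP_56bcbf_an.R

open Set Metric Filter Topology Complex MeasureTheory Real
open scoped ENNReal

namespace WIDa

theorem needle {ρ ω : ℝ} (hρ : 11 ≤ ρ) (h0 : 0 < ω) (h1 : ω ≤ 1) :
    volume {z : ℂ | |‖z⁻¹‖ - ρ| ≤ ω} ≤ ENNReal.ofReal ω := by
  have ha : 0 < ρ - ω := by linarith
  have hb : 0 < ρ + ω := by linarith
  have hs : {z : ℂ | |‖z⁻¹‖ - ρ| ≤ ω} ⊆ closedBall 0 (ρ - ω)⁻¹ \ ball 0 (ρ + ω)⁻¹ := by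
    intro z hz
    obtain ⟨h2, h3⟩ := abs_le.1 (mem_ofPred.1 hz)
    rw [norm_inv] at h2 h3
    have h4 : 0 < ‖z‖ := inv_pos.1 (by linarith)
    rw [Set.mem_sdiff, mem_closedBall_zero_iff, mem_ball_zero_iff, not_lt]
    exact ⟨(le_inv_comm₀ h4 ha).2 (by linarith), (inv_le_comm₀ hb h4).2 (by linarith)⟩
  refine (measure_mono hs).trans ?_
  have hxy : (ρ + ω)⁻¹ ≤ (ρ - ω)⁻¹ := inv_anti₀ ha (by linarith)
  have hy := inv_pos.2 hb
  have hx : (ρ - ω)⁻¹ ≤ 1 / 10 := by rw [one_div]; exact inv_anti₀ (by norm_num) (by linarith)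
  have e : (ρ - ω)⁻¹ - (ρ + ω)⁻¹ = 2 * ω * ((ρ - ω)⁻¹ * (ρ + ω)⁻¹) := by field_simp; ring
  rw [measure_sdiff (ball_subset_closedBall.trans (closedBall_subset_closedBall hxy))
    measurableSet_ball.nullMeasurableSet measure_ball_lt_top.ne, Complex.volume_closedBall,
    Complex.volume_ball, tsub_le_iff_right, ← ENNReal.ofReal_coe_nnreal, NNReal.coe_real_pi,
    ← ENNReal.ofReal_pow hy.le, ← ENNReal.ofReal_pow (hy.le.trans hxy),
    ← ENNReal.ofReal_mul (by positivity), ← ENNReal.ofReal_mul (by positivity),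
    ← ENNReal.ofReal_add h0.le (by positivity)]
  refine ENNReal.ofReal_le_ofReal ?_
  generalize (ρ - ω)⁻¹ = x, (ρ + ω)⁻¹ = y at hxy hy hx e
  have h2 : x * y ≤ 1 / 10 := by nlinarith
  have h3 : x ^ 2 - y ^ 2 ≤ ω / 4 := by
    rw [sq_sub_sq, e]
    have : (x + y) * (x * y) ≤ 1 / 8 := by nlinarith
    nlinarith
  nlinarith [pi_le_four, pi_pos]

theorem split {F : ℂ → ℂ} (hF : Measurable F) {A N Ω : Set ℂ} (hA : MeasurableSet A)
    (h : Ω ⊆ A ∪ N) {p : ℝ≥0∞} (hp : 1 ≤ p) : eLpNorm F p (volume.restrict Ω) ≤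
      eLpNorm F p (volume.restrict A) + eLpNorm F p (volume.restrict N) := by
  conv_lhs => rw [← indicator_self_add_compl A F]
  refine (eLpNorm_add_le (hF.indicator hA).aestronglyMeasurable
    (hF.indicator hA.compl).aestronglyMeasurable hp).trans ?_
  rw [eLpNorm_indicator_eq_eLpNorm_restrict hA, eLpNorm_indicator_eq_eLpNorm_restrict hA.compl,
    Measure.restrict_restrict hA, Measure.restrict_restrict hA.compl]
  exact add_le_add (eLpNorm_mono_measure _ (Measure.restrict_mono inter_subset_left le_rfl))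
    (eLpNorm_mono_measure _ (Measure.restrict_mono (fun z hz => (h hz.2).resolve_left hz.1) le_rfl))

theorem am_ne (m : ℕ) {z : ℂ} (hz : z ∈ closedBall (0 : ℂ) (1 / 10)) : z - am m ≠ 0 := by
  rw [sub_ne_zero]
  rintro rfl
  have h1 : (4 + 1 / ((m : ℂ) + 1)) = ((4 + 1 / ((m : ℝ) + 1) : ℝ) : ℂ) := by push_cast; rfl
  have h2 : 0 < 1 / ((m : ℝ) + 1) := by positivity
  have h3 : 1 / ((m : ℝ) + 1) ≤ 1 := by
    rw [div_le_one (by positivity)]
    linarith [m.cast_nonneg (α := ℝ)]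
  rw [mem_closedBall_zero_iff, am, norm_inv, h1, Complex.norm_of_nonneg (by linarith), one_div 10,
    inv_le_inv₀ (by linarith) (by norm_num)] at hz
  linarith

theorem small {δ : ℕ → ℝ} (h : ∀ i, 0 < δ i) (l : ℕ) : ∃ d, 0 < d ∧ ∀ i < l, d ≤ δ i := by
  induction l with
  | zero => exact ⟨1, one_pos, by simp⟩
  | succ l ih =>
    obtain ⟨d, h1, h2⟩ := ih
    refine ⟨min d (δ l), lt_min h1 (h l), fun i hi => ?_⟩
    rcases Nat.lt_succ_iff_lt_or_eq.1 hi with h3 | rfl
    exacts [(min_le_left _ _).trans (h2 i h3), min_le_right _ _]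

end WIDa

open WIDa in
theorem p_WID (hBEAD : S_BEAD) (hTAIL : S_TAIL) :
    S_WID := by
  intro t P U' ht hP hU hH
  obtain ⟨hb1, hb2, hb3⟩ := hBEAD
  obtain ⟨hB, hb4⟩ := hb3 t fun l => by linarith [ht l]
  have e0 : ∀ i : ℕ, (0 : ℝ) < 1 / (i + 1) := fun i => by positivity
  choose Q hQ using fun i => (hH i i.unpair.1).2 _ (ENNReal.ofReal_pos.2 (e0 i))
  set F : ℕ → ℂ → ℂ := fun i z => (z - am i.unpair.1)⁻¹ - (Q i).eval z with hF
  have hFm : ∀ i, Measurable (F i) := fun i =>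
    (measurable_id.sub_const _).inv.sub (Q i).continuous.measurable
  have hP1 : ∀ i, 1 ≤ ENNReal.ofReal (P i) := fun i => ENNReal.one_le_ofReal.2 (hP i)
  have hK : ∀ i, MemLp (F i) (ENNReal.ofReal (P i)) (volume.restrict (closedBall 0 (1 / 10))) := by
    intro i
    have : IsFiniteMeasure (volume.restrict (closedBall (0 : ℂ) (1 / 10))) :=
      ⟨by simpa only [Measure.restrict_apply_univ] using measure_closedBall_lt_top⟩
    obtain ⟨M, hM⟩ := (isCompact_closedBall (0 : ℂ) (1 / 10)).exists_bound_of_continuousOn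
      (f := F i) (((continuousOn_id.sub continuousOn_const).inv₀ fun z => am_ne _).sub
        (Q i).continuous.continuousOn)
    exact MemLp.of_bound (hFm i).aestronglyMeasurable M
      ((ae_restrict_mem measurableSet_closedBall).mono hM)
  choose δ hδ0 hδ using fun i => (hK i).eLpNorm_indicator_le (hP1 i) ENNReal.ofReal_ne_top (e0 i)
  choose d hd0 hd using small hδ0
  have : ∀ l, Countable (ZZ l) := fun l => (hb2 l).1.countable.to_subtype
  obtain ⟨a, ha0, ha⟩ := ENNReal.exists_pos_sum_of_countable one_ne_zero JJ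
  set ω : JJ → ℝ := fun j => min (ej t j) (a j * d j.1) with hω
  have hω0 : ∀ j, 0 < ω j := fun j => lt_min (hB.pos j) (mul_pos (ha0 j) (hd0 _))
  have hω1 : ∀ j, ω j ≤ ej t j := fun j => min_le_left _ _
  have hr : ∀ j : JJ, rr j.1 * ej t j ≤ 1 / 12 ∧ ej t j ≤ 1 / 12 := fun j => by
    have h1 := mul_le_mul_of_nonneg_right (tau_ge j.1) (mul_pos (rr_pos j.1) (hB.pos j)).le
    have h2 := mul_le_mul_of_nonneg_right (rr_ge j.1) (hB.pos j).le
    constructor <;> linarith [hb4 j, hB.pos j]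
  refine ⟨ω, fun j => ⟨hω0 j, hω1 j⟩, fun Ω hΩ hD hc p hp hev m ε hε => ?_⟩
  have hN : ∀ i, eLpNorm (F i) (ENNReal.ofReal (P i)) (volume.restrict Ω) ≤
      ENNReal.ofReal (1 / (i + 1)) + ENNReal.ofReal (1 / (i + 1)) := by
    intro i
    set N : Set ℂ := ⋃ j : JJ, ⋃ _ : i < j.1, {z | |‖z⁻¹‖ - ‖bd j‖| ≤ ω j} with hN
    have hm : MeasurableSet N := .iUnion fun j => .iUnion fun _ =>
      measurableSet_le (by fun_prop) measurable_const
    have hsub : N ⊆ closedBall 0 (1 / 10) := iUnion₂_subset fun j _ z hz => by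
      have h1 := (abs_le.1 (mem_ofPred.1 hz)).1
      have h2 := (abs_le.1 (hb1 j).2.1).1
      rw [mem_closedBall_zero_iff, one_div]
      rw [norm_inv] at h1
      exact le_inv_of_le_inv₀ (by norm_num) (by linarith [rr_ge j.1, hω1 j, (hr j).2])
    have hv : volume N ≤ ENNReal.ofReal (δ i) := by
      refine (measure_iUnion_le _).trans ((ENNReal.tsum_le_tsum (g := fun j =>
        a j * ENNReal.ofReal (δ i)) fun j => ?_).trans ?_)
      · by_cases h : i < j.1
        · rw [iUnion_eq_if, if_pos h]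
          refine (needle (by linarith [(abs_le.1 (hb1 j).2.1).1, rr_ge j.1]) (hω0 j)
            (by linarith [hω1 j, (hr j).2])).trans ?_
          rw [← ENNReal.ofReal_coe_nnreal, ← ENNReal.ofReal_mul (a j).coe_nonneg]
          exact ENNReal.ofReal_le_ofReal ((min_le_right _ _).trans
            (mul_le_mul_of_nonneg_left (hd _ _ h) (a j).coe_nonneg))
        · simp [h]
      · rw [ENNReal.tsum_mul_right]
        exact mul_le_of_le_one_left' ha.le
    refine (split (hFm i) ((hTAIL t i ht).1.diff hU.measurableSet) (N := N) (fun z hz => ?_)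
      (hP1 i)).trans (add_le_add (hQ i).le ?_)
    · have old : ‖z⁻¹‖ ≤ rr i + 2 → z ∈ OM t i \ U' ∪ N := fun h =>
        Or.inl ⟨⟨(hD hz).1, Or.inl h⟩, (hD hz).2⟩
      rcases hc z hz with h | h | ⟨j, h⟩
      · exact old (by linarith [rr_ge i])
      · exact Or.inl ⟨⟨(hD hz).1, Or.inr (Or.inl h)⟩, (hD hz).2⟩
      rcases lt_or_ge i j.1 with hj | hj
      · rcases h with h | h
        · exact Or.inl ⟨⟨(hD hz).1, Or.inr (Or.inr ⟨j, hj, h⟩)⟩, (hD hz).2⟩
        · exact Or.inr (mem_iUnion₂.2 ⟨j, hj, h⟩)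
      have h1 := (abs_le.1 (hb1 j).2.1).2
      have h2 := norm_sub_norm_le z⁻¹ (bd j)
      have h3 := mul_le_mul_of_nonneg_right h1 (hB.pos j).le
      refine old ?_
      rcases h with h | h
      · linarith [rr_mono hj, (hr j).1, (hr j).2]
      · linarith [rr_mono hj, (hr j).2, (abs_le.1 h).2, hω1 j]
    · have := hδ i N hm ((Measure.restrict_le_self N).trans hv)
      rwa [eLpNorm_indicator_eq_eLpNorm_restrict hm, Measure.restrict_restrict hm,
        inter_eq_left.2 hsub] at this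
  have hfin : max 1 (volume Ω) ≠ ∞ := (max_lt ENNReal.one_lt_top
    (DD_bdd.subset fun z hz => (hD hz).1).measure_lt_top).ne
  have h0 := ENNReal.tendsto_ofReal tendsto_one_div_add_atTop_nhds_zero_nat
  have h1 := ENNReal.Tendsto.mul_const (h0.add h0) (Or.inr hfin)
  simp only [ENNReal.ofReal_zero, add_zero, zero_mul] at h1
  obtain ⟨n, hn⟩ := eventually_atTop.1 (hev.and (h1.eventually (gt_mem_nhds hε)))
  obtain ⟨h2, h3⟩ := hn (m.pair n) (Nat.right_le_pair m n)
  refine ⟨Q (m.pair n), lt_of_le_of_lt ?_ h3⟩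
  have h4 := eLpNorm_le_eLpNorm_mul_rpow_measure_univ (μ := volume.restrict Ω)
    (ENNReal.ofReal_le_ofReal h2) (hFm (m.pair n)).aestronglyMeasurable
  simp only [hF, Nat.unpair_pair] at h4 hN
  refine h4.trans (mul_le_mul' (by simpa only [Nat.unpair_pair] using hN (m.pair n)) ?_)
  rw [Measure.restrict_apply_univ, ENNReal.toReal_ofReal (by linarith),
    ENNReal.toReal_ofReal (by linarith)]
  have h5 := one_div_le_one_div_of_le (by linarith) h2
  have h6 : 1 / p ≤ 1 := (div_le_one (by linarith)).2 hp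
  have h7 : 0 < 1 / P (m.pair n) := one_div_pos.2 (by linarith)
  exact (ENNReal.rpow_le_rpow (le_max_right 1 _) (by linarith)).trans
    ((ENNReal.rpow_le_rpow_of_exponent_le (le_max_left _ _) (by linarith)).trans_eq
      (ENNReal.rpow_one _))

end Pool.Agent.P.MP_56bcbf_an.R

end

section

/-! Step CHAR. -/

namespace Pool.Agent.P.MP_56bcbf_an.R

open Set Metric Filter Topology Complex MeasureTheory Real
open scoped ENNReal

namespace CHARa

theorem mem {Ω : Set ℂ} (p : ℝ≥0∞) {a : ℂ} (hΩ : MeasurableSet Ω) (hb : Bornology.IsBounded Ω)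
    (ha : a ∉ closure Ω) : MemLp (fun z => (z - a)⁻¹) p (volume.restrict Ω) := by
  have : IsFiniteMeasure (volume.restrict Ω) := ⟨by simpa using hb.measure_lt_top⟩
  obtain ⟨ρ, h0, h⟩ := exists_sep ha
  refine MemLp.of_bound (Measurable.aestronglyMeasurable (by fun_prop)) ρ⁻¹ ?_
  filter_upwards [ae_restrict_mem hΩ] with z hz
  rw [norm_inv]
  exact inv_anti₀ h0 (h a (mem_ball_self h0) z hz)

theorem van {Ω : Set ℂ} {p : ℝ} {a : ℂ} {k : ℂ → ℂ} (hp : 1 ≤ p) (hΩ : MeasurableSet Ω)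
    (hb : Bornology.IsBounded Ω) (h : (fun z => (z - a)⁻¹) ∈ Hp (ENNReal.ofReal p) Ω)
    (hk : Ann (cj p) Ω k) : cauchy k a = 0 := by
  obtain ⟨-, -, hq, h0, hP⟩ := hk
  have := cj_conj hp
  have hq' := hq.restrict Ω
  have e : ∀ f : ℂ → ℂ, ∫ w in Ω, f w * k w = ∫ w, f w * k w := fun f =>
    setIntegral_eq_integral_of_forall_compl_eq_zero fun w hw => by simp [h0 w hw]
  have hi : ∀ P : Polynomial ℂ, Integrable (fun w => P.eval w * k w) (volume.restrict Ω) :=
    fun P => (memLp_eval hΩ hb (ENNReal.ofReal p) P.continuous).integrable_mul hq'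
  have hz : ∀ P : Polynomial ℂ, ∫ w in Ω, P.eval w * k w = 0 := fun P => by
    induction P using Polynomial.induction_on' with
    | add P Q h1 h2 =>
      simp only [Polynomial.eval_add, add_mul]
      rw [integral_add (hi P) (hi Q), h1, h2, add_zero]
    | monomial n c =>
      simp only [Polynomial.eval_monomial, mul_assoc]
      rw [integral_const_mul, e, hP, mul_zero]
  have key : ∀ ε : ℝ≥0∞, 0 < ε →
      ‖cauchy k a‖ₑ ≤ ε * eLpNorm k (cj p) (volume.restrict Ω) := fun ε hε => by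
    obtain ⟨P, h1⟩ := h.2 ε hε
    have h2 : cauchy k a = ∫ w in Ω, ((w - a)⁻¹ - P.eval w) * k w := by
      simp only [sub_mul]
      rw [integral_sub (f := fun w => (w - a)⁻¹ * k w) (h.1.integrable_mul hq') (hi P), hz,
        sub_zero, e, cauchy]
      simp only [div_eq_inv_mul]
    rw [h2]
    refine (enorm_integral_le_lintegral_enorm _).trans ?_
    simp only [enorm_mul]
    exact (holder_enorm (h.1.1.sub P.continuous.aestronglyMeasurable) hq'.1).trans
      (mul_le_mul_left h1.le _)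
  have t := ENNReal.Tendsto.mul_const (f := 𝓝[>] (0 : ℝ≥0∞)) (m := id) (a := 0)
    (tendsto_id.mono_left nhdsWithin_le_nhds) (Or.inr hq'.2.ne)
  rw [zero_mul] at t
  simpa using ge_of_tendsto t (eventually_nhdsWithin_of_forall key)

theorem core {D : Set ℂ} (hD : IsOpen D) (hb : Bornology.IsBounded D) {γ : Circle → ℂ}
    (hγ : Continuous γ) (hγi : Function.Injective γ) (hfr : frontier D = range γ) {U : Set ℂ}
    (hUo : IsOpen U) (hUc : IsConnected U) (hUD : U ⊆ D) {p : ℝ≥0∞} (hp1 : 1 ≤ p) (hp : p ≠ ∞)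
    (hA : ∀ k, Ann p.conjExponent (interior (D \ U)) k → ∀ u ∈ U, cauchy k u = 0) {f g : ℂ → ℂ}
    (hf : MemLp f p (volume.restrict (interior (D \ U))))
    (hg : DifferentiableOn ℂ g (interior (D \ U)))
    (hfg : f =ᵐ[volume.restrict (interior (D \ U))] g) {ε : ℝ≥0∞} (hε : 0 < ε) :
    ∃ P : Polynomial ℂ,
      eLpNorm (fun z => f z - P.eval z) p (volume.restrict (interior (D \ U))) < ε := by
  classical
  set Ω := interior (D \ U) with hΩd
  have hΩ : IsOpen Ω := isOpen_interior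
  have hΩm := hΩ.measurableSet
  have hΩD : Ω ⊆ D := interior_subset.trans sdiff_subset
  have := ENNReal.HolderConjugate.conjExponent hp1
  refine approx_of_annihilate (q := p.conjExponent) hΩm (hb.subset hΩD) hp hf
    (fun k hm hk hkq h0 hP => ?_) hε
  obtain ⟨R, hR0, hR⟩ := hb.subset_ball_lt 0 0
  obtain ⟨u0, h00⟩ := hUc.nonempty
  obtain ⟨u1, h01, hne⟩ : ∃ u1 ∈ U, u1 ≠ u0 := by
    simpa using (infinite_of_mem_nhds u0 (hUo.mem_nhds h00)).exists_notMem_finset {u0}
  replace hUc := hUc.isPreconnected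
  obtain ⟨E, hE, hED, hEu, hfE⟩ := exists_outer hD ⟨_, hUD h00⟩ hb hγ hγi hfr
  have hEΩ : E ⊆ (closure Ω)ᶜ := hED.trans (compl_subset_compl.2 (closure_mono hΩD))
  have hUΩ : U ⊆ (closure Ω)ᶜ := fun z hz h => by
    obtain ⟨w, hw, hw'⟩ := mem_closure_iff.1 h U hUo hz
    exact (interior_subset hw').2 hw
  have hout : (R : ℂ) ∈ Dᶜ := fun h => by simpa [abs_of_pos hR0] using hR h
  obtain ⟨e, he, heR⟩ := hEu (R + 1)
  have hE0 := cauchy_eq_zero hm hk h0 (hΩD.trans hR) hR0 hP hE hEΩ he (by linarith)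
  have hU0 : ∀ u ∈ U, cauchy k u = 0 := hA k ⟨hm, hk, hkq, h0, hP⟩
  set g' := Ω.piecewise g 0 with hg'
  have hge : EqOn g' g Ω := piecewise_eqOn _ _ _
  have hfg' : f =ᵐ[volume.restrict Ω] g' := by
    filter_upwards [hfg, ae_restrict_mem hΩm] with z h1 h2
    rw [h1, hge h2]
  have hg0 : ∀ w ∉ Ω, g' w = 0 := fun w hw => piecewise_eq_of_notMem _ _ _ hw
  have key := annihilate hΩ (hΩD.trans hR) hR0 hp hm hk hkq h0 (g := g')
    (hg.continuousOn.measurable_piecewise continuousOn_const hΩm) hg0 (hg.congr hge)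
    (by
      rw [← indicator_eq_self.2 (show Function.support g' ⊆ Ω from fun w hw => by
        by_contra h
        exact hw (hg0 w h)), memLp_indicator_iff_restrict hΩm]
      exact hf.ae_eq hfg')
    (d0 := ‖u1 - u0‖ / 6) (by have := norm_pos_iff.2 (sub_ne_zero.2 hne); positivity)
    fun z hz hzd => by
      have hne' : Ωᶜ.Nonempty := ⟨_, fun h => hout (hΩD h)⟩
      obtain ⟨x, hx, hxz, h1⟩ := exists_near (E := U) hΩ hne' hz
      by_cases hxU : x ∈ closure U
      · refine ⟨U, hUc, hUΩ, hU0, h1 hxU, ?_⟩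
        by_contra! hc
        have := norm_sub_le_norm_sub_add_norm_sub u1 z u0
        rw [norm_sub_rev z] at this
        linarith [hc _ h00, hc _ h01]
      have hxE : x ∈ closure E := by
        rw [hΩ.frontier_eq] at hx
        refine hfE ?_
        rw [hD.frontier_eq]
        refine ⟨closure_mono hΩD hx.1, fun hxD => hx.2 ?_⟩
        exact interior_maximal (s := D \ U) (t := D \ closure U)
          (fun y hy => ⟨hy.1, fun h => hy.2 (subset_closure h)⟩)
          (hD.sdiff isClosed_closure) ⟨hxD, hxU⟩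
      obtain ⟨e1, he1, hed⟩ := Metric.mem_closure_iff.1 hxE _
        ((hΩ.isClosed_compl.notMem_iff_infDist_pos hne').1 (fun h => h hz))
      obtain ⟨e2, he2, hfar⟩ := hEu (‖z‖ + 3 * infDist z Ωᶜ)
      refine ⟨E, hE, hEΩ, hE0, ⟨e1, he1, ?_⟩, e2, he2, ?_⟩
      · rw [dist_comm, dist_eq_norm] at hed
        linarith [norm_sub_le_norm_sub_add_norm_sub e1 x z]
      · linarith [norm_sub_norm_le e2 z]
  rw [← key, ← setIntegral_eq_integral_of_forall_compl_eq_zero (s := Ω) fun w hw => by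
    simp [h0 w hw], ← setIntegral_eq_integral_of_forall_compl_eq_zero (s := Ω)
      (f := fun w => g' w * k w) fun w hw => by simp [h0 w hw]]
  refine integral_congr_ae ?_
  filter_upwards [hfg'] with z hz
  rw [hz]

end CHARa

theorem p_CHAR :
    S_CHAR := by
  refine ⟨fun Ω p a => CHARa.mem p, fun Ω p a k => CHARa.van, ?_⟩
  rintro D U p ⟨hD, -, hb, γ, hγ, hγi, hfr⟩ ⟨hUo, hUc, -⟩ hUD hp
  have hb' : Bornology.IsBounded (interior (D \ U)) :=
    hb.subset (interior_subset.trans sdiff_subset)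
  have hm := (isOpen_interior (s := D \ U)).measurableSet
  refine ⟨fun h k hk u hu => CHARa.van hp hm hb' ?_ hk, fun h => ⟨hp, ?_⟩⟩
  · rw [h.2]
    refine ⟨CHARa.mem _ hm hb' (sub_compl hUo hu), _, ?_, .of_forall fun _ => rfl⟩
    exact (differentiableOn_id.sub_const u).inv fun z hz e =>
      (interior_subset hz).2 ((show z = u from sub_eq_zero.1 e) ▸ hu)
  have hp1 := ENNReal.one_le_ofReal.2 hp
  ext f
  refine and_congr_right fun hf => ⟨fun h => ?_, fun ⟨g, hg, hfg⟩ ε hε => ?_⟩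
  · refine analytic_of_limit isOpen_interior hb'.measure_lt_top.ne hp1 hf.1 fun ε hε => ?_
    obtain ⟨P, hP⟩ := h ε hε
    exact ⟨_, P.differentiable, hP⟩
  · exact CHARa.core hD hb hγ hγi hfr hUo hUc hUD hp1 ENNReal.ofReal_ne_top h hf hg hfg hε

end Pool.Agent.P.MP_56bcbf_an.R

end

section

/-! Step CON. -/

namespace Pool.Agent.P.MP_56bcbf_an.R

open Set Metric Filter Topology Complex MeasureTheory Real
open scoped ENNReal

namespace CONa

theorem open_inv {W : Set ℂ} (hW : IsOpen W) (h0 : 0 ∉ W) : IsOpen {z : ℂ | z⁻¹ ∈ W} :=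
  isOpen_iff_mem_nhds.2 fun z hz => (continuousAt_inv₀ (by
    rintro rfl
    exact h0 (by simpa using hz))).preimage_mem_nhds (hW.mem_nhds hz)

theorem gw_lt {w : ℂ} (h : 3 < ‖w‖) : gw w < 1 := Real.exp_lt_one_iff.2 (by nlinarith)

theorem am_inv (m : ℕ) : (am m)⁻¹ = ((4 + 1 / ((m : ℝ) + 1) : ℝ) : ℂ) := by
  rw [am, inv_inv]
  push_cast
  rfl

theorem am_tendsto : Tendsto am atTop (𝓝[≠] (4 : ℂ)⁻¹) := by
  refine tendsto_nhdsWithin_iff.2 ⟨?_, .of_forall fun m h => ?_⟩
  · have := ((tendsto_one_div_add_atTop_nhds_zero_nat (𝕜 := ℂ)).const_add 4).inv₀ (by norm_num)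
    rwa [add_zero] at this
  · have h1 : (4 : ℂ) + 1 / ((m : ℂ) + 1) = 4 := inv_injective h
    have h2 : (m : ℂ) + 1 ≠ 0 := Nat.cast_add_one_ne_zero m
    simp [h2] at h1

end CONa

open CONa in
theorem p_CON (hPOL : S_POL) (hPIN : S_PIN) (hBEAD : S_BEAD) (hMV : S_MV) (hINC : S_INC)
    (hTAIL : S_TAIL) (hCOMP : S_COMP) (hWID : S_WID) (hCHAR : S_CHAR) :
    S_CON := by
  intro t P ht
  obtain ⟨hB, -⟩ := hBEAD.2.2 t ht
  obtain ⟨U', ho, hc, hin, hU⟩ := hPIN JJ bd (ej t) hj hB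
  have hρ : ∀ j, |‖bd j‖ - rr j.1| ≤ 1 / 2 := fun j => (hBEAD.1 j).2.1
  have hlow : ∀ x : ℝ, 4 ≤ x → x ≤ 5 → ∀ z : ℂ, z⁻¹ = x → z ∈ U' := fun x h4 h5 z hz => by
    have h1 : ‖z⁻¹‖ = x := by rw [hz, norm_real, Real.norm_of_nonneg (by linarith)]
    refine hin z (by linarith) ((gw_lt (by linarith)).trans_le (by rw [hz, ofReal_re]; linarith))
      fun j => lt_abs.2 (Or.inr ?_)
    linarith [hB.hle j, (abs_le.1 (hρ j)).1, rr_ge j.1]
  have h4 : (4 : ℂ)⁻¹ ∈ U' := hlow 4 le_rfl (by norm_num) _ (by simp)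
  have ham : ∀ m, am m ∈ U' := fun m => by
    have h1 : (0 : ℝ) < 1 / ((m : ℝ) + 1) := by positivity
    have h2 : 1 / ((m : ℝ) + 1) ≤ 1 := by
      rw [div_le_one (by positivity)]
      linarith [m.cast_nonneg (α := ℝ)]
    exact hlow _ (by linarith) (by linarith) _ (am_inv m)
  have inc : ∀ U : Set ℂ, IsOpen U → U' ⊆ U →
      (∀ z ∈ U, gw z⁻¹ < (z⁻¹).re ∧ ∀ j, ej t j / 2 ≤ ‖z⁻¹ - bd j‖) →
      ∀ p : ℝ, (∀ᶠ l in atTop, t l / p ≤ 1 - 12 / sg l) → p ∉ CRange DD U := by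
    rintro U hUo hUU hUp p hp ⟨hp1, hp2⟩
    have hD : interior (DD \ U) ⊆ DD := interior_subset.trans sdiff_subset
    refine (hINC t p _ ht hp1 hp isOpen_interior hD (fun z h1 h2 h3 => ?_)
      fun j z hz => ?_).elim fun C hC =>
        hMV.2 _ p _ C hp1 isOpen_interior (DD_bdd.subset hD) (sub_compl hUo (hUU h4)) hC hp2
    · refine interior_maximal (t := {z : ℂ | z⁻¹ ∈ {w : ℂ | 1 < ‖w‖ ∧ 0 < w.re ∧ w.re < gw w}})
        (s := DD \ U) (fun y hy => ⟨mem_DD.2 ⟨hy.2.1, hy.1⟩, fun h => (hUp y h).1.not_gt hy.2.2⟩)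
        (open_inv ((isOpen_lt continuous_const continuous_norm).inter
          ((isOpen_lt continuous_const continuous_re).inter
            (isOpen_lt continuous_re (by unfold gw; fun_prop)))) fun h => by
              simpa using h.2.1) ⟨h1, h2, h3⟩
    · have h1 := hB.big j
      have h2 := hB.pos j
      have h3 : ej t j ≤ 1 / 8 := by linarith [hB.le j, hB.hle j]
      refine interior_maximal (t := {z : ℂ | z⁻¹ ∈ ball (bd j) (ej t j / 2)})
        (s := DD \ U) (fun y hy => ?_) (open_inv isOpen_ball fun h => ?_) (mem_ball_iff_norm.2 hz)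
      · have h5 := mem_ball_iff_norm.1 hy
        have h6 := (abs_le.1 ((abs_re_le_norm _).trans h5.le)).1
        have h7 := hB.away j
        rw [sub_re] at h6
        refine ⟨mem_DD.2 ⟨?_, ?_⟩, fun h => ((hUp y h).2 j).not_gt h5⟩
        · nlinarith [Real.exp_pos (4 - (‖bd j‖ - 1) ^ 2)]
        · linarith [(abs_le.1 ((abs_norm_sub_norm_le _ _).trans h5.le)).1]
      · rw [mem_ball, dist_comm, dist_zero_right] at h
        linarith
  by_cases hg : (∀ l, 2 - (1 / 2) ^ (l + 2) ≤ t l) ∧ ∀ i, GoodP t (P i) i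
  swap
  · obtain ⟨U, h1, h2, h3, h5, h6, -⟩ := hU (ej t) fun j => ⟨hB.pos j, le_rfl⟩
    exact ⟨U, h1, h3, h5, inc U h1.1 h2 h6, fun a b => absurd ⟨a, b⟩ hg⟩
  have ht1 : ∀ l, 1 ≤ t l := fun l => by
    linarith [hg.1 l, pow_le_one₀ (n := l + 2) (show (0 : ℝ) ≤ 1 / 2 by norm_num) (by norm_num)]
  obtain ⟨ω, hω, hW⟩ := hWID t P U' ht1 (fun i => (hg.2 i).1) ho fun i m => by
    have hm := (hTAIL t i ht1).1.diff ho.measurableSet
    have hb : Bornology.IsBounded (OM t i \ U') := DD_bdd.subset fun z hz => hz.1.1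
    have ha : am m ∉ closure (OM t i \ U') := fun h => by
      obtain ⟨w, hw, hw'⟩ := mem_closure_iff.1 h U' ho (ham m)
      exact hw'.2 hw
    have hf := hCHAR.1 _ (ENNReal.ofReal (P i)) _ hm hb ha
    have := cj_conj (hg.2 i).1
    refine ⟨hf, fun ε hε => approx_of_annihilate (q := cj (P i)) hm hb ENNReal.ofReal_ne_top hf
      (fun k a1 a2 a3 a4 a5 => ?_) hε⟩
    rw [← hCOMP t (P i) i U' hg.1 (hg.2 i) ho hc (fun z hz => ?_) k ⟨a1, a2, a3, a4, a5⟩ _ (ham m)]
    · simp only [cauchy, div_eq_inv_mul]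
    have h1 := rr_ge i
    have h2 := abs_lt.1 ((abs_norm_sub_norm_le _ _).trans_lt hz)
    have h3 := (abs_lt.1 ((abs_re_le_norm _).trans_lt hz)).1
    have h5 : ‖3 * (rr i : ℂ)‖ = 3 * rr i := by simp [abs_of_pos (rr_pos i)]
    have h6 : (z⁻¹ - 3 * rr i).re = (z⁻¹).re - 3 * rr i := by simp
    rw [h5] at h2
    refine hin z (by linarith) ((gw_lt (by linarith)).trans (by linarith)) fun j => ?_
    have h7 := abs_le.1 (hρ j)
    have h8 := hB.hle j
    rcases le_or_gt j.1 i with h | h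
    · exact lt_abs.2 (Or.inl (by linarith [rr_mono h]))
    · exact lt_abs.2 (Or.inr (by linarith [rr_lt h]))
  obtain ⟨U, h1, h2, h3, h5, h6, h7⟩ := hU ω hω
  refine ⟨U, h1, h3, h5, inc U h1.1 h2 h6, fun _ _ p hp hP => ?_⟩
  have hD : interior (DD \ U) ⊆ DD := interior_subset.trans sdiff_subset
  have hm : MeasurableSet (interior (DD \ U)) := isOpen_interior.measurableSet
  refine (hCHAR.2.2 DD U p hPOL.2.1 h1 h3 hp).2 fun k hk => ?_
  refine (((differentiableOn_cauchy hk.1 hk.2.1 hk.2.2.2.1).mono (sub_compl h1.1)).analyticOnNhd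
    h1.1).eqOn_zero_of_preconnected_of_frequently_eq_zero h1.2.1.isPreconnected (h2 h4)
    (am_tendsto.frequently (.of_forall fun m => ?_))
  exact hCHAR.2.1 _ p _ k hp hm (DD_bdd.subset hD)
    ⟨hCHAR.1 _ _ _ hm (DD_bdd.subset hD) (sub_compl h1.1 (h2 (ham m))),
      hW _ hm (fun z hz => ⟨hD hz, fun h => (interior_subset hz).2 (h2 h)⟩)
        (fun z hz => h7 z (hD hz) (interior_subset hz).2) p hp hP m⟩ hk

end Pool.Agent.P.MP_56bcbf_an.R

end

section

/-! Step CASE. -/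

namespace Pool.Agent.P.MP_56bcbf_an.R

open Set Metric Filter Topology Complex MeasureTheory Real
open scoped ENNReal

namespace CASEa

theorem small (c : ℝ) : ∀ᶠ l in atTop, c / sg l ≤ (1 / 2) ^ (l + 2) := by
  filter_upwards [(tendsto_pow_atTop_atTop_of_one_lt (r := (16 : ℝ))
    (by norm_num)).eventually_ge_atTop c] with l hl
  rw [one_div, inv_pow, ← one_div, div_le_div_iff₀ (sg_pos l) (by positivity), one_mul]
  refine le_trans ?_ (sg_pow l)
  have e : (32 : ℝ) ^ (l + 1) = 16 ^ l * (2 ^ (l + 2) * 8) := by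
    rw [show (32 : ℝ) = 16 * 2 by norm_num, mul_pow]
    ring
  have p : (0 : ℝ) < 2 ^ (l + 2) := by positivity
  have q : (0 : ℝ) < 16 ^ l := by positivity
  rw [e]
  nlinarith

theorem half : Tendsto (fun l : ℕ => (1 / 2 : ℝ) ^ (l + 2)) atTop (𝓝 0) :=
  (tendsto_pow_atTop_nhds_zero_of_lt_one (by norm_num) (by norm_num)).comp
    (tendsto_add_atTop_nat 2)

theorem half_le (l : ℕ) : (1 / 2 : ℝ) ^ (l + 2) ≤ 1 :=
  pow_le_one₀ (by norm_num) (by norm_num)

theorem quot (c : ℝ) : Tendsto (fun l => c / sg l) atTop (𝓝 0) := sg_tendsto.const_div_atTop c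

end CASEa

open CASEa in
theorem p_CASE (hCON : S_CON) :
    S_CASE := by
  have hp : ∀ l : ℕ, (0 : ℝ) < (1 / 2) ^ (l + 2) := fun l => by positivity
  rintro S (rfl | rfl | ⟨p₀, h2, rfl | rfl⟩)
  · obtain ⟨U, h1, h2, h3, h4, -⟩ := hCON (fun _ => 1 / 2) (fun _ => 1) fun _ => le_rfl
    refine ⟨U, h1, h2, h3, eq_empty_of_forall_notMem fun p hp =>
      h4 p (Eventually.of_forall fun l => ?_) hp⟩
    have k1 : 1 / 2 / p ≤ 1 / 2 := div_le_self (by norm_num) hp.1
    have k2 : 12 / sg l ≤ 12 / 32 := div_le_div_of_nonneg_left (by norm_num) (by norm_num) (sg_32 l)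
    linarith
  · have h0 : ∀ l : ℕ, (0 : ℝ) ≤ l := Nat.cast_nonneg
    obtain ⟨U, h1, h2, h3, -, h5⟩ := hCON (fun l => l + 2) (fun l => l + 2) fun l => by
      linarith [h0 l]
    refine ⟨U, h1, h2, h3, Subset.antisymm (fun p hp => hp.1) fun p hp' =>
      h5 (fun l => by linarith [h0 l, hp l]) (fun i => ⟨by linarith [h0 i], fun l hl => by
        have : (i : ℝ) ≤ l := by exact_mod_cast hl.le
        linarith, fun n => ?_⟩) p hp' ?_⟩
    · filter_upwards [tendsto_natCast_atTop_atTop.eventually_ge_atTop ((n + 1 : ℝ) * (i + 2))]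
        with l hl
      have k1 : 1 / sg l ≤ 1 := (div_le_one (sg_pos l)).2 (by linarith [sg_32 l])
      rw [max_eq_right (by linarith [h0 l]), add_zero, le_sub_iff_add_le,
        le_div_iff₀ (by linarith [h0 i])]
      nlinarith [mul_le_mul_of_nonneg_left k1 (h0 n), h0 i]
    · filter_upwards [tendsto_natCast_atTop_atTop.eventually_ge_atTop p] with l hl
      linarith
  · have ht : Tendsto (fun l : ℕ => p₀ - (1 / 2 : ℝ) ^ (l + 2)) atTop (𝓝 p₀) := by
      simpa using half.const_sub p₀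
    obtain ⟨U, h1, h2', h3, h4, h5⟩ := hCON (fun l => p₀ - (1 / 2) ^ (l + 2))
      (fun l => p₀ - (1 / 2) ^ (l + 2)) fun l => by linarith [half_le l]
    refine ⟨U, h1, h2', h3, Subset.antisymm (fun p hp' => ⟨hp'.1, not_le.1 fun k =>
      h4 p ((small (12 * p)).mono fun l hl => ?_) hp'⟩) fun p hp' =>
      h5 (fun l => by linarith) (fun i => ⟨by linarith [half_le i], fun l hl => ?_, fun n => ?_⟩)
        p hp'.1 (ht.eventually_const_le hp'.2)⟩
    · rw [div_le_iff₀ (by linarith), sub_mul, div_mul_eq_mul_div]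
      linarith
    · exact sub_le_sub_left (pow_le_pow_of_le_one (by norm_num) (by norm_num) (by omega)) _
    · have k1 := ((quot 1).add ((ht.const_sub 2).max (tendsto_const_nhds (x := 0)))).const_mul
        (n : ℝ)
      have k2 := (ht.div_const (p₀ - (1 / 2) ^ (i + 2))).sub_const 1
      refine (k1.eventually_lt k2 ?_).mono fun l hl => hl.le
      rw [max_eq_right (by linarith), add_zero, mul_zero, sub_pos,
        one_lt_div (by linarith [half_le i])]
      linarith [hp i]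
  · obtain ⟨U, h1, h2', h3, h4, h5⟩ := hCON (fun l => p₀ + (1 / 2) ^ (l + 2)) (fun _ => p₀)
      fun l => by linarith [hp l]
    refine ⟨U, h1, h2', h3, Subset.antisymm (fun p hp' => ⟨hp'.1, not_lt.1 fun k =>
      h4 p ?_ hp'⟩) fun p hp' =>
      h5 (fun l => by linarith [hp l]) (fun i => ⟨by linarith, fun l _ => by linarith [hp l],
        fun n => (small (n * p₀)).mono fun l hl => ?_⟩) p hp'.1 (.of_forall fun _ => hp'.2)⟩
    · refine (((half.const_add p₀).div_const p).eventually_lt ((quot 12).const_sub 1) ?_).mono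
        fun l hl => hl.le
      rwa [add_zero, sub_zero, div_lt_one (by linarith)]
    · rw [max_eq_right (by linarith [hp l]), add_zero, le_sub_iff_add_le,
        le_div_iff₀ (by linarith), add_mul, mul_one_div, div_mul_eq_mul_div]
      linarith

end Pool.Agent.P.MP_56bcbf_an.R

end
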