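import Pool.Agent.P.MP_56bcbf_an.R.Iface

section

/-! Step EA. -/

namespace Pool.Agent.P.MP_56bcbf_an.R

open Set Metric Filter Topology Complex MeasureTheory Real
open scoped ENNReal

namespace EAa

theorem norm_gE (r τ : ℝ) (v : ℂ) (hr : 0 < r) :
    ‖gE r τ v‖ = ‖v‖ ^ 2 / r ^ 2 * Real.exp (τ * v.re * (1 - r ^ 2 / ‖v‖ ^ 2)) := by
  have h1 : ((τ : ℂ) * (v - (r : ℂ) ^ 2 / v)).re = τ * v.re * (1 - r ^ 2 / ‖v‖ ^ 2) := by
    rw [re_ofReal_mul, sub_re, div_eq_mul_inv, ← ofReal_pow, re_ofReal_mul, inv_re,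
      Complex.normSq_eq_norm_sq]
    ring
  rw [gE, norm_mul, Complex.norm_exp, h1, norm_pow, norm_div, Complex.norm_real,
    Real.norm_of_nonneg hr.le, div_pow]

theorem norm_ET (r τ : ℝ) (v : ℂ) (hr : 0 < r) :
    ‖ET r τ v‖ = ‖EE r τ v‖ * (r ^ 2 / ‖(r : ℂ) + v‖ ^ 2) := by
  rw [ET, norm_mul, norm_pow, norm_div, Complex.norm_real, Real.norm_of_nonneg hr.le, div_pow]

theorem sq_le (r : ℝ) (v : ℂ) (hr : 0 < r) (hv : 0 ≤ v.re) :
    r ^ 2 + ‖v‖ ^ 2 ≤ ‖(r : ℂ) + v‖ ^ 2 := by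
  rw [← Complex.normSq_eq_norm_sq, ← Complex.normSq_eq_norm_sq, normSq_apply, normSq_apply]
  simp only [add_re, ofReal_re, add_im, ofReal_im, zero_add]
  nlinarith [mul_nonneg hr.le hv]

end EAa

theorem p_EA :
    S_EA := by
  intro r τ v hr hτ hv hv0
  have hn : 0 < ‖v‖ := norm_pos_iff.2 hv0
  have hg := EAa.norm_gE r τ v hr
  have hT := EAa.norm_ET r τ v hr
  have hs := EAa.sq_le r v hr hv
  have hx : 0 ≤ τ * v.re := mul_nonneg hτ hv
  have hlo : |1 - ‖gE r τ v‖| ≤ ‖EE r τ v‖ := by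
    simpa [EE] using abs_norm_sub_norm_le (1 : ℂ) (gE r τ v)
  have hhi : ‖EE r τ v‖ ≤ 1 + ‖gE r τ v‖ := by
    simpa [EE] using norm_sub_le (1 : ℂ) (gE r τ v)
  have htri : ‖(r : ℂ) + v‖ ≤ r + ‖v‖ := by
    simpa [abs_of_pos hr] using norm_add_le (r : ℂ) v
  generalize ‖gE r τ v‖ = g at hg hlo hhi
  generalize ‖ET r τ v‖ = T at hT ⊢
  have hE0 : 0 ≤ ‖EE r τ v‖ := norm_nonneg _
  generalize ‖EE r τ v‖ = E at hT hlo hhi hE0 ⊢
  have hm0 : 0 ≤ ‖(r : ℂ) + v‖ := norm_nonneg _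
  generalize ‖(r : ℂ) + v‖ = m at hT hs htri hm0
  generalize ‖v‖ = n at hn hg hs htri ⊢
  generalize τ * v.re = x at hx hg ⊢
  have hr2 : 0 < r ^ 2 := by positivity
  have hn2 : 0 < n ^ 2 := by positivity
  have hm2 : 0 < m ^ 2 := by linarith
  have ha0 : 0 < n ^ 2 / r ^ 2 := by positivity
  have hρ : r ^ 2 / m ^ 2 * (1 + n ^ 2 / r ^ 2) ≤ 1 := by
    have : r ^ 2 / m ^ 2 * (1 + n ^ 2 / r ^ 2) = (r ^ 2 + n ^ 2) / m ^ 2 := by field_simp
    rw [this, div_le_one hm2]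
    exact hs
  have hρ0 : 0 < r ^ 2 / m ^ 2 := by positivity
  have hsmall : n ≤ r → Real.exp (x * (1 - r ^ 2 / n ^ 2)) ≤ 1 ∧ n ^ 2 / r ^ 2 ≤ 1 := fun h => by
    have h1 : n ^ 2 ≤ r ^ 2 := by gcongr
    refine ⟨Real.exp_le_one_iff.2 (mul_nonpos_of_nonneg_of_nonpos hx ?_), (div_le_one hr2).2 h1⟩
    have := (one_le_div hn2).2 h1
    linarith
  have hbig : r ≤ n → 1 ≤ Real.exp (x * (1 - r ^ 2 / n ^ 2)) ∧ 1 ≤ n ^ 2 / r ^ 2 := fun h => by
    have h1 : r ^ 2 ≤ n ^ 2 := by gcongr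
    refine ⟨Real.one_le_exp (mul_nonneg hx ?_), (one_le_div hr2).2 h1⟩
    have := (div_le_one hn2).2 h1
    linarith
  have hy : Real.exp (x * (1 - r ^ 2 / n ^ 2)) ≤ Real.exp x := by
    have : 0 ≤ x * (r ^ 2 / n ^ 2) := by positivity
    exact Real.exp_le_exp.2 (by linarith)
  have hx1 : 1 ≤ Real.exp x := Real.one_le_exp hx
  have hy0 := Real.exp_pos (x * (1 - r ^ 2 / n ^ 2))
  have h1 : |1 - n ^ 2 / r ^ 2| ≤ E := by
    refine le_trans ?_ hlo
    rcases le_total n r with h | h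
    · obtain ⟨h2, h3⟩ := hsmall h
      rw [abs_of_nonneg (by linarith)]
      exact le_trans (by nlinarith) (le_abs_self _)
    · obtain ⟨h2, h3⟩ := hbig h
      rw [abs_of_nonpos (by linarith)]
      exact le_trans (by nlinarith) (neg_le_abs _)
  generalize Real.exp (x * (1 - r ^ 2 / n ^ 2)) = y at hg hsmall hbig hy hy0 ⊢
  refine ⟨h1, fun h => ?_, fun h => ?_, ?_, ?_, fun h => ?_⟩
  · have h2 := (hbig (by linarith)).1
    have h3 : 4 ≤ n ^ 2 / r ^ 2 := by
      rw [le_div_iff₀ hr2]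
      nlinarith
    have h4 := neg_le_abs (1 - g)
    nlinarith
  · have h2 := (hsmall h).1
    have h3 : E ≤ 1 + n ^ 2 / r ^ 2 := by nlinarith
    exact ⟨h3, by nlinarith⟩
  · have h3 : E ≤ (1 + n ^ 2 / r ^ 2) * Real.exp x := by nlinarith
    have h4 := mul_le_mul_of_nonneg_right h3 hρ0.le
    nlinarith
  · have h3 : r ^ 2 / m ^ 2 ≤ 1 := by nlinarith
    nlinarith
  · have h2 : Real.exp (-(4 * n / r)) ≤ r / (r + 4 * n) := by
      have h3 := Real.add_one_le_exp (4 * n / r)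
      have h4 : r / (r + 4 * n) = (4 * n / r + 1)⁻¹ := by field_simp; ring
      rw [Real.exp_neg, h4]
      gcongr
    have h3 : r ^ 2 / (r + n) ^ 2 ≤ r ^ 2 / m ^ 2 := by gcongr
    have h4 : 1 - n ^ 2 / r ^ 2 ≤ E := (le_abs_self _).trans h1
    have h5 : 0 ≤ 1 - n ^ 2 / r ^ 2 := by linarith [(hsmall (by linarith)).2]
    have h6 : (1 - n ^ 2 / r ^ 2) * (r ^ 2 / (r + n) ^ 2) = (r - n) / (r + n) := by
      field_simp
      ring
    have h7 : r / (r + 4 * n) ≤ (r - n) / (r + n) := by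
      rw [div_le_div_iff₀ (by positivity) (by positivity)]
      nlinarith
    have h8 := mul_le_mul h4 h3 (by positivity) hE0
    linarith

end Pool.Agent.P.MP_56bcbf_an.R

end

section

/-! Step EB. -/

namespace Pool.Agent.P.MP_56bcbf_an.R

open Set Metric Filter Topology Complex MeasureTheory Real
open scoped ENNReal

namespace EBa

theorem sq_div {r : ℝ} {b : ℂ} (hr : 0 < r) (hb : ‖b‖ = r) :
    b ≠ 0 ∧ (r : ℂ) ^ 2 / b = (starRingEnd ℂ) b := by
  have h0 : b ≠ 0 := norm_pos_iff.1 (hb ▸ hr)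
  exact ⟨h0, by rw [div_eq_iff h0, mul_comm, Complex.mul_conj', hb]⟩

theorem norm_gE {r : ℝ} (τ : ℝ) {b : ℂ} (hr : 0 < r) (hb : ‖b‖ = r) : ‖gE r τ b‖ = 1 := by
  rw [gE, (sq_div hr hb).2, norm_mul, norm_pow, norm_div, hb, Complex.norm_exp, Complex.norm_real,
    Real.norm_of_nonneg hr.le, div_self hr.ne']
  simp

theorem lip {r τ : ℝ} (hr : 1 ≤ r) (hτ : 1 ≤ τ) (b v : ℂ) (η : ℝ) (hb : ‖b‖ = r)
    (hv : ‖v - b‖ ≤ η) (h : 3 * τ * η ≤ 1) : ‖EE r τ v - EE r τ b‖ ≤ 15 * τ * η := by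
  have hr0 : 0 < r := by linarith
  have hη : 0 ≤ η := (norm_nonneg _).trans hv
  have h1 : η ≤ τ * η := le_mul_of_one_le_left hη hτ
  have h2 : 2 * r / 3 ≤ ‖v‖ := by
    have := norm_sub_norm_le b v
    rw [norm_sub_rev] at this
    linarith
  have hv0 : v ≠ 0 := norm_pos_iff.1 (by linarith)
  have hb0 := (sq_div hr0 hb).1
  have hr1 : (r : ℂ) ≠ 0 := ofReal_ne_zero.2 hr0.ne'
  obtain ⟨z, hz⟩ : ∃ z : ℂ, z = τ * (v - b) * (1 + r ^ 2 / (v * b)) := ⟨_, rfl⟩
  have e : EE r τ v - EE r τ b = -gE r τ b * (((v / b) ^ 2 - 1) * cexp z + (cexp z - 1)) := by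
    have : cexp (τ * (v - r ^ 2 / v)) = cexp (τ * (b - r ^ 2 / b)) * cexp z := by
      rw [← Complex.exp_add, hz]
      congr 1
      field_simp
      ring
    rw [EE, EE, gE, gE, this]
    field_simp
    ring
  have h3 : ‖(r : ℂ) ^ 2 / (v * b)‖ ≤ 3 / 2 := by
    rw [norm_div, norm_mul, norm_pow, Complex.norm_real, Real.norm_of_nonneg hr0.le, hb,
      div_le_iff₀ (mul_pos (norm_pos_iff.2 hv0) hr0)]
    nlinarith
  have h4 : ‖z‖ ≤ τ * η * (1 + 3 / 2) := by
    rw [hz, norm_mul, norm_mul, Complex.norm_real, Real.norm_of_nonneg (by linarith)]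
    have := (norm_add_le (1 : ℂ) _).trans (add_le_add norm_one.le h3)
    gcongr
  have h5 : ‖cexp z - 1‖ ≤ 5 * (τ * η) :=
    (Complex.norm_exp_sub_one_le (by linarith)).trans (by linarith)
  have h6 : ‖cexp z‖ ≤ 3 := by
    have := norm_sub_norm_le (cexp z) 1
    rw [norm_one] at this
    linarith
  have h7 : ‖(v - b) / b‖ ≤ η := by
    rw [norm_div, hb]
    exact (div_le_self (norm_nonneg _) hr).trans hv
  have h8 : ‖(v / b) ^ 2 - 1‖ ≤ η * 3 := by
    rw [show (v / b) ^ 2 - 1 = (v - b) / b * (2 + (v - b) / b) by field_simp; ring, norm_mul]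
    have := norm_add_le (2 : ℂ) ((v - b) / b)
    rw [Complex.norm_two] at this
    exact mul_le_mul h7 (by linarith) (norm_nonneg _) hη
  rw [e, norm_mul, norm_neg, norm_gE τ hr0 hb, one_mul]
  refine (norm_add_le _ _).trans ?_
  rw [norm_mul]
  have := mul_le_mul h8 h6 (norm_nonneg _) (by linarith)
  linarith

theorem der (r τ : ℝ) {v : ℂ} (hr : 0 < r) (hv : v ≠ 0) :
    HasDerivAt (EE r τ) (-(gE r τ v * (2 / v + τ * (1 + r ^ 2 / v ^ 2)))) v := by
  have hr1 : (r : ℂ) ≠ 0 := ofReal_ne_zero.2 hr.ne'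
  have h1 := ((hasDerivAt_id v).div_const (r : ℂ)).pow 2
  have h2 := (((hasDerivAt_id v).sub ((hasDerivAt_inv hv).const_mul ((r : ℂ) ^ 2))).const_mul
    (τ : ℂ)).cexp
  refine HasDerivAt.congr_deriv (f := EE r τ) ((h1.mul h2).const_sub 1) ?_
  simp only [gE, id, Pi.sub_apply, Pi.pow_apply, ← div_eq_mul_inv, Nat.cast_ofNat,
    Nat.add_one_sub_one, pow_one]
  generalize cexp _ = c
  field_simp
  ring

theorem two {r τ y : ℝ} {m : ℕ} (hr : 0 < r) (hm : τ * r = π * m) (hy : y = r ∨ y = -r) :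
    ‖(y : ℂ) * I‖ = r ∧ EE r τ (y * I) = 2 := by
  have hr1 : (r : ℂ) ≠ 0 := ofReal_ne_zero.2 hr.ne'
  have h1 : ‖(y : ℂ) * I‖ = r := by rcases hy with rfl | rfl <;> simp [abs_of_pos hr]
  have hm' : (τ : ℂ) * r = π * m := by exact_mod_cast hm
  refine ⟨h1, ?_⟩
  rw [EE, gE, (sq_div hr h1).2, map_mul, conj_ofReal, conj_I]
  rcases hy with rfl | rfl
  · rw [show (τ : ℂ) * (y * I - y * -I) = m * (2 * π * I) by linear_combination 2 * I * hm',
      exp_nat_mul_two_pi_mul_I, mul_div_cancel_left₀ _ hr1, I_sq]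
    norm_num
  · rw [show (τ : ℂ) * ((-r : ℝ) * I - (-r : ℝ) * -I) = -(m * (2 * π * I)) by
      push_cast; linear_combination -2 * I * hm', Complex.exp_neg, exp_nat_mul_two_pi_mul_I,
      ofReal_neg, neg_mul, neg_div, mul_div_cancel_left₀ _ hr1, neg_sq, I_sq]
    norm_num

end EBa

open EBa in
theorem p_EB (hEA : S_EA) :
    S_EB := by
  intro r τ hr hτ
  have hr0 : 0 < r := by linarith
  have hτ0 : 0 < τ := by linarith
  refine ⟨lip hr hτ, fun v hv => (der r τ hr0 hv).differentiableAt, fun b hb h0 => ?_,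
    fun ⟨m, hm⟩ => ?_⟩
  · have hb0 : b ≠ 0 := fun h => by simp [h] at hb
    have h1 := (hEA r τ b hr0 hτ0.le hb.le hb0).1
    rw [h0, norm_zero, abs_nonpos_iff, sub_eq_zero, eq_div_iff (by positivity), one_mul] at h1
    have h2 : ‖b‖ = r := ((pow_left_inj₀ hr0.le (norm_nonneg _) two_ne_zero).1 h1).symm
    have h3 : gE r τ b = 1 := (sub_eq_zero.1 h0).symm
    have h4 : b * (2 / b + τ * (1 + r ^ 2 / b ^ 2)) = ((2 + τ * (2 * b.re) : ℝ) : ℂ) := by
      rw [ofReal_add, ofReal_mul, ← Complex.add_conj, ← (sq_div hr0 h2).2]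
      push_cast
      field_simp
    have h5 := congrArg norm h4
    rw [norm_mul, h2, Complex.norm_real, Real.norm_of_nonneg (by positivity)] at h5
    refine ⟨h2, ?_⟩
    rw [(der r τ hr0 hb0).deriv, h3, one_mul, norm_neg, div_le_iff₀' hr0, h5]
    exact le_add_of_nonneg_right (by positivity)
  have key : ∀ v : ℂ, v ≠ 0 → 0 ≤ v.re → v.re ≤ 1 / (60 * τ) →
      1 / (30 * τ * r) ≤ ‖EE r τ v‖ := fun v hv h0 h1 => by
    obtain ⟨y, hy, hy'⟩ : ∃ y : ℝ, (y = r ∨ y = -r) ∧ |v.im - y| = |(|v.im|) - r| := by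
      rcases le_total 0 v.im with h | h
      · exact ⟨r, Or.inl rfl, by rw [abs_of_nonneg h]⟩
      · exact ⟨-r, Or.inr rfl, by rw [abs_of_nonpos h, ← abs_neg]; congr 1; ring⟩
    obtain ⟨a1, a2⟩ := two hr0 hm hy
    obtain ⟨k, hk⟩ : ∃ k : ℝ, k = 1 / (60 * τ) := ⟨_, rfl⟩
    have k1 : τ * k = 1 / 60 := by rw [hk]; field_simp
    have k2 : 1 / (30 * τ * r) = 2 * k / r := by rw [hk]; field_simp; norm_num
    have k0 : 0 < k := by rw [hk]; positivity
    rw [← hk] at h1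
    rw [k2]
    by_cases hc : ‖v - y * I‖ ≤ 4 * k
    · have h2 := lip hr hτ _ v _ a1 hc (by linarith)
      have h3 := norm_sub_norm_le (EE r τ (y * I)) (EE r τ v)
      rw [norm_sub_rev, a2, Complex.norm_two] at h3
      rw [a2] at h2
      have : 2 * k / r ≤ 1 := by rw [div_le_one hr0]; nlinarith
      linarith
    · have h2 := norm_le_abs_re_add_abs_im (v - y * I)
      have h3 := norm_le_abs_re_add_abs_im v
      have h4 := abs_im_le_norm v
      simp only [sub_re, mul_re, ofReal_re, I_re, mul_zero, ofReal_im, I_im, mul_one, sub_self,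
        sub_zero, sub_im, mul_im, add_zero, hy'] at h2
      rw [abs_of_nonneg h0] at h2 h3
      have h5 : 2 * k ≤ |r - ‖v‖| := by
        rcases abs_cases (|v.im| - r) with h | h <;> rcases abs_cases (r - ‖v‖) with h' | h' <;>
          linarith [h.1, h'.1, h.2, h'.2, not_le.1 hc]
      refine le_trans ?_ (hEA r τ v hr0 hτ0.le h0 hv).1
      rw [show 1 - ‖v‖ ^ 2 / r ^ 2 = (r - ‖v‖) / r * (1 + ‖v‖ / r) by field_simp; ring, abs_mul,
        abs_div, abs_of_pos hr0, abs_of_pos (by positivity : 0 < 1 + ‖v‖ / r)]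
      exact le_trans (by gcongr) (le_mul_of_one_le_right (by positivity)
        (le_add_of_nonneg_right (by positivity)))
  refine ⟨key, fun b hb h0 => not_le.1 fun h => ?_⟩
  have := key b (fun h => by simp [h] at hb) hb.le h
  rw [h0, norm_zero] at this
  exact absurd this (not_le.2 (by positivity))

end Pool.Agent.P.MP_56bcbf_an.R

end

section

/-! Step EZ. -/

namespace Pool.Agent.P.MP_56bcbf_an.R

open Set Metric Filter Topology Complex MeasureTheory Real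
open scoped ENNReal

namespace EZa

theorem polar (hEA : S_EA) {r τ : ℝ} {b : ℂ} (hr : 0 < r) (hτ : 0 ≤ τ) (hb : 0 < b.re)
    (h : EE r τ b = 0) : ‖b‖ = r ∧ |arg b| < π / 2 ∧ b.im = r * Real.sin (arg b) ∧
      ∃ j : ℤ, arg b + τ * b.im = π * j := by
  have h0 : b ≠ 0 := fun e => by simp [e] at hb
  have h1 := (hEA r τ b hr hτ hb.le h0).1
  rw [h, norm_zero, abs_nonpos_iff, sub_eq_zero, eq_div_iff (by positivity), one_mul] at h1
  have h2 : ‖b‖ = r := (pow_left_inj₀ (norm_nonneg b) hr.le two_ne_zero).1 h1.symm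
  refine ⟨h2, abs_arg_lt_pi_div_two_iff.2 (.inl hb), by rw [← h2, norm_mul_sin_arg], ?_⟩
  have h3 : b / r = cexp (arg b * I) := by
    rw [div_eq_iff (ofReal_ne_zero.2 hr.ne'), mul_comm, ← h2, norm_mul_exp_arg_mul_I]
  have h4 : (r : ℂ) ^ 2 / b = (starRingEnd ℂ) b := by
    rw [div_eq_iff h0, mul_comm, mul_conj, normSq_eq_norm_sq, h2, ofReal_pow]
  rw [EE, sub_eq_zero, gE, h3, h4, sub_conj, sq, ← Complex.exp_add, ← Complex.exp_add, eq_comm,
    Complex.exp_eq_one_iff] at h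
  obtain ⟨j, hj⟩ := h
  have := congrArg Complex.im hj
  simp at this
  exact ⟨j, by linarith⟩

theorem sep {r τ a a' : ℝ} {j j' : ℤ} (hr : 1 ≤ r) (hτ : 1 ≤ τ) (h : |a| < π / 2)
    (h' : |a'| < π / 2) (hl : a' < a) (e : a + τ * (r * Real.sin a) = π * j)
    (e' : a' + τ * (r * Real.sin a') = π * j') : 1 / τ ≤ r * Real.sin a - r * Real.sin a' := by
  rw [abs_lt] at h h'
  have h1 : Real.sin a' ≤ Real.sin a := sin_le_sin_of_le_of_le_pi_div_two h'.1.le h.2.le hl.le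
  have h2 : 0 ≤ τ * (r * Real.sin a - r * Real.sin a') := by
    rw [← mul_sub]
    exact mul_nonneg (by linarith) (mul_nonneg (by linarith) (by linarith))
  have h3 : (j' : ℝ) < j := lt_of_mul_lt_mul_left (a := π) (by linarith) pi_pos.le
  have h4 : (j' : ℝ) + 1 ≤ j := by exact_mod_cast (by exact_mod_cast h3 : j' < j)
  have h5 := mul_le_mul_of_nonneg_left h4 pi_pos.le
  rw [div_le_iff₀' (by linarith)]
  by_contra h6
  have h7 : a' + π / 2 ≤ a := by linarith [pi_gt_three]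
  have h8 := sin_le_sin_of_le_of_le_pi_div_two (by linarith [pi_pos]) h.2.le h7
  rw [Real.sin_add_pi_div_two] at h8
  have h9 := cos_nonneg_of_neg_pi_div_two_le_of_le h'.1.le h'.2.le
  have h10 := sin_nonpos_of_nonpos_of_neg_pi_le (x := a') (by linarith) (by linarith [pi_pos])
  have h11 : 1 ≤ Real.cos a' - Real.sin a' := by
    nlinarith [Real.sin_sq_add_cos_sq a', Real.cos_le_one a', Real.neg_one_le_sin a']
  have h12 : 1 ≤ r * (Real.sin a - Real.sin a') := one_le_mul_of_one_le_of_one_le hr (by linarith)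
  have h13 := one_le_mul_of_one_le_of_one_le hτ h12
  rw [mul_sub r] at h13
  exact h6 h13

end EZa

open EZa in
theorem p_EZ (hEA : S_EA) :
    S_EZ := by
  intro r τ hr hτ
  have r0 : 0 < r := by linarith
  have t0 : 0 < τ := by linarith
  have A : ∀ b b' : ℂ, 0 < b.re → EE r τ b = 0 → 0 < b'.re → EE r τ b' = 0 → b ≠ b' →
      1 / τ ≤ |b.im - b'.im| := fun b b' h1 h2 h3 h4 h5 => by
    obtain ⟨a1, a2, a3, j, a4⟩ := polar hEA r0 t0.le h1 h2
    obtain ⟨b1, b2, b3, j', b4⟩ := polar hEA r0 t0.le h3 h4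
    rw [a3] at a4
    rw [b3] at b4
    rw [a3, b3]
    rcases lt_trichotomy (arg b) (arg b') with c | c | c
    · rw [abs_sub_comm]
      exact (sep hr hτ b2 a2 c b4 a4).trans (le_abs_self _)
    · exact absurd (ext_norm_arg (a1.trans b1.symm) c) h5
    · exact (sep hr hτ a2 b2 c a4 b4).trans (le_abs_self _)
  have B : ∀ b ∈ {v : ℂ | 0 < v.re ∧ EE r τ v = 0}, |b.im| ≤ r := fun b hb =>
    (abs_im_le_norm b).trans_eq (polar hEA r0 t0.le hb.1 hb.2).1
  have M : MapsTo (fun b : ℂ => ⌊τ * (b.im + r)⌋₊) {v : ℂ | 0 < v.re ∧ EE r τ v = 0}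
      (Finset.range (⌊2 * τ * r⌋₊ + 1)) := fun b hb => by
    have := (abs_le.1 (B b hb)).2
    exact Finset.mem_coe.2 (Finset.mem_range.2 (Nat.lt_succ_of_le (Nat.floor_mono (by nlinarith))))
  have J : InjOn (fun b : ℂ => ⌊τ * (b.im + r)⌋₊) {v : ℂ | 0 < v.re ∧ EE r τ v = 0} :=
    fun b hb b' hb' e => by_contra fun c => by
      have h1 := A b b' hb.1 hb.2 hb'.1 hb'.2 c
      have h2 := Nat.floor_le (mul_nonneg t0.le (show 0 ≤ b.im + r by
        linarith [(abs_le.1 (B b hb)).1]))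
      have h3 := Nat.floor_le (mul_nonneg t0.le (show 0 ≤ b'.im + r by
        linarith [(abs_le.1 (B b' hb')).1]))
      have h4 := Nat.lt_floor_add_one (τ * (b.im + r))
      have h5 := Nat.lt_floor_add_one (τ * (b'.im + r))
      dsimp only at e
      rw [e] at h2 h4
      rw [div_le_iff₀' t0, ← abs_of_pos t0, ← abs_mul] at h1
      exact h1.not_gt (abs_lt.2 ⟨by linarith, by linarith⟩)
  refine ⟨A, Finite.of_injOn M J (Finset.finite_toSet _), ?_⟩
  have h1 := ncard_le_ncard_of_injOn _ M J (Finset.finite_toSet _)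
  rw [ncard_coe_finset, Finset.card_range] at h1
  have h2 := Nat.floor_le (show 0 ≤ 2 * τ * r by positivity)
  have h3 := one_le_mul_of_one_le_of_one_le hτ hr
  have h4 : (({v : ℂ | 0 < v.re ∧ EE r τ v = 0}.ncard : ℕ) : ℝ) ≤ ⌊2 * τ * r⌋₊ + 1 := by
    exact_mod_cast h1
  linarith

end Pool.Agent.P.MP_56bcbf_an.R

end

section

/-! Step BEAD. -/

namespace Pool.Agent.P.MP_56bcbf_an.R

open Set Metric Filter Topology Complex MeasureTheory Real
open scoped ENNReal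

namespace BEADa

theorem key (l : ℕ) : 1000 * tau l * rr l * Real.exp (-rr l) ≤ 1 := by
  have h := poly_le l (c := 1000 * π) (a := 3) (n := 8) (by nlinarith [pi_lt_four]) (by norm_num)
  have e : 1000 * tau l * rr l = 1000 * π * sg l ^ 8 := by
    rw [tau, rr]
    ring
  rw [e, Real.exp_neg, ← div_eq_mul_inv, div_le_one (Real.exp_pos _)]
  exact h

theorem ej_le {t : ℕ → ℝ} (ht : ∀ l, 1 / 2 ≤ t l) (j : JJ) : ej t j ≤ Real.exp (-rr j.1) := by
  refine Real.exp_le_exp.2 (neg_le_neg ?_)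
  have h1 := sg_32 j.1
  have h2 : 0 < j.2.1.re := j.2.2.1
  have h3 : 3 * sg j.1 ^ 2 ≤ TT j.1 := by
    rw [TT]
    exact mul_le_mul pi_gt_three.le (pow_le_pow_right₀ (by linarith) (by norm_num))
      (by positivity) pi_pos.le
  have h4 : 1 / 4 * (3 * sg j.1 ^ 2) * 32 ≤ t j.1 / 2 * TT j.1 * (j.2.1.re + sg j.1) := by
    have := ht j.1
    have := TT_pos j.1
    refine mul_le_mul (mul_le_mul (by linarith) h3 (by positivity) (by linarith)) (by linarith)
      (by norm_num) (mul_nonneg (by linarith) (by linarith))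
  rw [rr]
  nlinarith [sq_nonneg (sg j.1)]

theorem sq_bd (v : ℂ) : ‖v + I / 2‖ ^ 2 = ‖v‖ ^ 2 + v.im + 1 / 4 := by
  rw [Complex.sq_norm, Complex.sq_norm, normSq_apply, normSq_apply]
  simp
  ring

end BEADa

theorem p_BEAD (hEB : S_EB) (hEZ : S_EZ) :
    S_BEAD := by
  have r1 : ∀ l, 1 ≤ rr l := fun l => by linarith [rr_ge l]
  have A : ∀ j : JJ, ‖j.2.1‖ = rr j.1 ∧ |‖bd j‖ - rr j.1| ≤ 1 / 2 ∧
      1 / (60 * tau j.1) < (bd j).re := by
    rintro ⟨l, v, h1, h2⟩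
    obtain ⟨-, -, a3, a4⟩ := hEB _ _ (r1 l) (tau_ge l)
    have a5 := (a3 v h1 h2).1
    refine ⟨a5, ?_, ?_⟩
    · have := abs_norm_sub_norm_le (v + I / 2) v
      rw [a5] at this
      simpa [bd] using this
    · simpa [bd] using (a4 (tau_rr l)).2 v h1 h2
  have Z : ∀ l, (ZZ l).Finite ∧ ((ZZ l).ncard : ℝ) ≤ 3 * tau l * rr l := fun l =>
    (hEZ _ _ (r1 l) (tau_ge l)).2
  have tr : ∀ l, 0 < tau l * rr l := fun l => mul_pos (tau_pos l) (rr_pos l)
  have hle : ∀ j : JJ, hj j ≤ 1 / 2 := fun j => by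
    refine one_div_le_one_div_of_le (by norm_num) ?_
    nlinarith [tau_ge j.1, rr_ge j.1]
  refine ⟨A, Z, fun t ht => ?_⟩
  have K : ∀ j : JJ, 1000 * (tau j.1 * rr j.1 * ej t j) ≤ 1 := fun j => by
    have h1 := BEADa.key j.1
    have h2 := mul_le_mul_of_nonneg_left (BEADa.ej_le ht j) (tr j.1).le
    linarith
  have P : ∀ j : JJ, 0 < ej t j := fun j => Real.exp_pos _
  have K0 : ∀ j : JJ, 0 < tau j.1 * rr j.1 * ej t j := fun j => mul_pos (tr _) (P j)
  have far : ∀ j k : JJ, j.1 < k.1 → hj j + hj k < ‖bd k‖ - ‖bd j‖ := fun j k h => by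
    have h1 := abs_le.1 (A j).2.1
    have h2 := abs_le.1 (A k).2.1
    linarith [hle j, hle k, rr_lt h, rr_ge j.1]
  refine ⟨⟨P, fun j => ?_, hle, fun j => ?_, fun j k hjk => ?_, fun R => ?_, fun j => ?_⟩,
    fun j => by linarith [K j, K0 j]⟩
  · rw [hj, le_div_iff₀ (by linarith [tr j.1])]
    linarith [K j, K0 j]
  · linarith [(abs_le.1 (A j).2.1).1, rr_ge j.1]
  · rcases lt_trichotomy j.1 k.1 with h | h | h
    · rw [abs_sub_comm]
      exact (far j k h).trans_le (le_abs_self _)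
    · have a1 := A j
      have a2 := A k
      obtain ⟨l, v, hv⟩ := j
      obtain ⟨l', v', hv'⟩ := k
      obtain rfl : l = l' := h
      have hne : v ≠ v' := fun e => hjk (by subst e; rfl)
      have b1 := (hEZ _ _ (r1 l) (tau_ge l)).1 v v' hv.1 hv.2 hv'.1 hv'.2 hne
      have b2 := BEADa.sq_bd v
      have b3 := BEADa.sq_bd v'
      simp only [bd, hj] at a1 a2 ⊢
      rw [a1.1] at b2
      rw [a2.1] at b3
      have b4 : v.im - v'.im = (‖v + I / 2‖ - ‖v' + I / 2‖) * (‖v + I / 2‖ + ‖v' + I / 2‖) := by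
        linarith
      have b5 : ‖v + I / 2‖ + ‖v' + I / 2‖ ≤ 3 * rr l := by
        linarith [(abs_le.1 a1.2.1).2, (abs_le.1 a2.2.1).2, r1 l]
      rw [b4, abs_mul, abs_of_nonneg (add_nonneg (norm_nonneg _) (norm_nonneg _)),
        div_le_iff₀ (tau_pos l)] at b1
      have b6 := mul_le_mul_of_nonneg_right (mul_le_mul_of_nonneg_left b5
        (abs_nonneg (‖v + I / 2‖ - ‖v' + I / 2‖))) (tau_pos l).le
      rw [← add_div, div_lt_iff₀ (by linarith [tr l])]
      linarith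
    · rw [add_comm]
      exact (far k j h).trans_le (le_abs_self _)
  · obtain ⟨L, hL⟩ := eventually_atTop.1 (sg_tendsto.eventually_gt_atTop (R + 1))
    refine Set.Finite.subset ((Set.finite_lt_nat L).biUnion fun l _ =>
      have := (Z l).1.to_subtype
      Set.finite_range (Sigma.mk (β := fun l => ZZ l) l)) fun j hj => ?_
    refine Set.mem_biUnion (x := j.1) ?_ ⟨j.2, rfl⟩
    by_contra hc
    have h1 := hL (j.1 + 1) (by simp only [Set.mem_ofPred_eq] at hc; omega)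
    rw [← rr_eq] at h1
    have h2 : ‖bd j‖ ≤ R := hj
    linarith [(abs_le.1 (A j).2.1).1]
  · refine lt_of_le_of_lt ?_ (A j).2.2
    have h1 := abs_le.1 (A j).2.1
    have h2 := rr_ge j.1
    have h3 : Real.exp (4 - (‖bd j‖ - 1) ^ 2) ≤ Real.exp (-rr j.1) :=
      Real.exp_le_exp.2 (by nlinarith)
    have h4 := BEADa.key j.1
    have h5 := tau_pos j.1
    have h6 : tau j.1 * Real.exp (-rr j.1) * 1 ≤ tau j.1 * Real.exp (-rr j.1) * rr j.1 :=
      mul_le_mul_of_nonneg_left (r1 _) (by positivity)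
    have h7 := mul_le_mul_of_nonneg_left h3 h5.le
    have h8 : tau j.1 * ej t j * ‖bd j‖ ≤ tau j.1 * ej t j * (2 * rr j.1) :=
      mul_le_mul_of_nonneg_left (by linarith) (mul_pos h5 (P j)).le
    rw [le_div_iff₀ (by linarith)]
    linarith [K j]

end Pool.Agent.P.MP_56bcbf_an.R

end

section

/-! Step PROD. -/

namespace Pool.Agent.P.MP_56bcbf_an.R

open Set Metric Filter Topology Complex MeasureTheory Real
open scoped ENNReal

namespace PRODa

/-- The small ratios. -/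
noncomputable def uu (c : ℝ) (k : ℕ) : ℝ := if c / rr k ^ 2 ≤ 1 / 4 then c / rr k ^ 2 else 0

theorem uu_nonneg {c : ℝ} (hc : 0 ≤ c) (k : ℕ) : 0 ≤ uu c k := by
  unfold uu
  split_ifs
  · positivity
  · exact le_rfl

theorem uu_le (c : ℝ) (k : ℕ) : uu c k ≤ 1 / 4 := by
  unfold uu
  split_ifs with h
  · exact h
  · norm_num

theorem step {c : ℝ} (hc : 0 ≤ c) (k : ℕ) : 2 * (c / rr (k + 1) ^ 2) ≤ c / rr k ^ 2 := by
  have h1 := rr_lt (show k < k + 1 by omega)
  have h2 := rr_pos k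
  have h3 := rr_pos (k + 1)
  rw [← mul_div_assoc, div_le_div_iff₀ (by positivity) (by positivity), mul_comm 2 c, mul_assoc]
  gcongr
  nlinarith

theorem sum_range {c : ℝ} (hc : 0 ≤ c) (n : ℕ) :
    ∑ k ∈ Finset.range n, uu c k + 2 * min (1 / 4) (c / rr n ^ 2) ≤ 1 / 2 := by
  induction n with
  | zero =>
    have := min_le_left (1 / 4 : ℝ) (c / rr 0 ^ 2)
    simp only [Finset.range_zero, Finset.sum_empty]
    linarith
  | succ n ih =>
    rw [Finset.sum_range_succ]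
    have h1 := step hc n
    have h2 := min_le_left (1 / 4 : ℝ) (c / rr (n + 1) ^ 2)
    have h3 := min_le_right (1 / 4 : ℝ) (c / rr (n + 1) ^ 2)
    by_cases h : c / rr n ^ 2 ≤ 1 / 4
    · rw [min_eq_right h] at ih
      have : uu c n = c / rr n ^ 2 := if_pos h
      linarith
    · rw [min_eq_left (not_le.1 h).le] at ih
      have : uu c n = 0 := if_neg h
      linarith

theorem sum_le {c : ℝ} (hc : 0 ≤ c) (A : Finset ℕ) : ∑ k ∈ A, uu c k ≤ 1 / 2 := by
  obtain ⟨n, hn⟩ := A.exists_nat_subset_range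
  have h1 := sum_range hc n
  have h2 : 0 ≤ min (1 / 4 : ℝ) (c / rr n ^ 2) := le_min (by norm_num) (by positivity)
  have h3 := Finset.sum_le_sum_of_subset_of_nonneg hn fun k _ _ => uu_nonneg hc k
  linarith

theorem prod_ge {u : ℕ → ℝ} (h0 : ∀ k, 0 ≤ u k) (h1 : ∀ k, u k ≤ 1) (A : Finset ℕ) :
    1 - ∑ k ∈ A, u k ≤ ∏ k ∈ A, (1 - u k) := by
  induction A using Finset.induction_on with
  | empty => simp
  | insert a s ha ih =>
    rw [Finset.sum_insert ha, Finset.prod_insert ha]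
    have h2 : 0 ≤ ∑ k ∈ s, u k := Finset.sum_nonneg fun k _ => h0 k
    have h3 := mul_le_mul_of_nonneg_left ih (sub_nonneg.2 (h1 a))
    nlinarith [h0 a]

end PRODa

open PRODa in
theorem p_PROD (hEA : S_EA) :
    S_PROD := by
  intro v A hv hv0
  have hc : 0 ≤ ‖v‖ ^ 2 := by positivity
  have hs := sum_le hc A
  have hE := fun k => hEA (rr k) (tau k) v (rr_pos k) (tau_pos k).le hv hv0
  have hu := fun k => (uu_le (‖v‖ ^ 2) k).trans (show (1 / 4 : ℝ) ≤ 1 by norm_num)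
  rw [norm_prod]
  refine ⟨fun h => ?_, fun h => ?_⟩
  · have h1 := prod_ge (uu_nonneg hc) hu A
    refine le_trans (by linarith) (Finset.prod_le_prod (f := fun k => 1 - uu (‖v‖ ^ 2) k)
      (fun k _ => sub_nonneg.2 (hu k)) fun k hk => le_trans ?_ (hE k).1)
    have h2 := rr_pos k
    unfold uu
    split_ifs with h3
    · exact le_abs_self _
    · refine le_trans ?_ (neg_le_abs _)
      rcases h k hk with h4 | h4
      · refine absurd ?_ h3
        rw [div_le_iff₀ (by positivity)]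
        nlinarith [norm_nonneg v]
      · have : 4 ≤ ‖v‖ ^ 2 / rr k ^ 2 := by
          rw [le_div_iff₀ (by positivity)]
          nlinarith
        linarith
  · calc ∏ k ∈ A, ‖EE (rr k) (tau k) v‖ ≤ ∏ k ∈ A, Real.exp (uu (‖v‖ ^ 2) k) := by
          refine Finset.prod_le_prod (fun k _ => norm_nonneg _) fun k _ => ?_
          have h2 := rr_ge k
          have h3 : ‖v‖ ^ 2 / rr k ^ 2 ≤ 1 / 4 := by
            rw [div_le_iff₀ (by positivity)]
            nlinarith [norm_nonneg v]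
          have h4 := ((hE k).2.2.1 (by linarith)).1
          have h5 := Real.add_one_le_exp (uu (‖v‖ ^ 2) k)
          have h6 : uu (‖v‖ ^ 2) k = ‖v‖ ^ 2 / rr k ^ 2 := if_pos h3
          linarith
      _ ≤ Real.exp (1 / 2) := by
          rw [← Real.exp_sum]
          exact Real.exp_le_exp.2 hs
      _ ≤ 2 := by
          have h1 : Real.exp (1 / 2) ^ 2 = Real.exp 1 := by
            rw [← Real.exp_nat_mul]
            norm_num
          nlinarith [Real.exp_one_lt_three, Real.exp_pos (1 / 2)]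

end Pool.Agent.P.MP_56bcbf_an.R

end
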