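import Pool.Agent.P.MP_56bcbf_an.R.BGeo
import Pool.Agent.P.MP_56bcbf_an.R.BPin
import Pool.Agent.P.MP_56bcbf_an.R.BZero
import Pool.Agent.P.MP_56bcbf_an.R.BEval
import Pool.Agent.P.MP_56bcbf_an.R.BRes
import Pool.Agent.P.MP_56bcbf_an.R.BMult
import Pool.Agent.P.MP_56bcbf_an.R.BBound
import Pool.Agent.P.MP_56bcbf_an.R.BWid
import Pool.Agent.P.MP_56bcbf_an.R.BLow

/-! Assembly. -/

namespace Pool.Agent.P.MP_56bcbf_an.R

theorem all_JOR : S_JOR := p_JOR

theorem all_POL : S_POL := p_POL all_JOR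

theorem all_PINR : S_PINR := p_PINR

theorem all_PIN : S_PIN := p_PIN all_POL all_PINR

theorem all_EA : S_EA := p_EA

theorem all_EB : S_EB := p_EB all_EA

theorem all_EZ : S_EZ := p_EZ all_EA

theorem all_BEAD : S_BEAD := p_BEAD all_EB all_EZ

theorem all_POLES : S_POLES := p_POLES

theorem all_MV : S_MV := p_MV

theorem all_PROD : S_PROD := p_PROD all_EA

theorem all_INCL : S_INCL := p_INCL all_EA all_EB all_PROD

theorem all_INCB : S_INCB := p_INCB all_EA all_EB all_PROD all_BEAD

theorem all_INC : S_INC := p_INC all_EB all_BEAD all_POLES all_MV all_INCL all_INCB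

theorem all_MULT : S_MULT := p_MULT

theorem all_TAIL : S_TAIL := p_TAIL all_BEAD

theorem all_SCHED : S_SCHED := p_SCHED

theorem all_QA : S_QA := p_QA all_EA

theorem all_QB : S_QB := p_QB all_EA all_EB all_BEAD

theorem all_QC : S_QC := p_QC all_BEAD all_QA all_QB

theorem all_COMP : S_COMP := p_COMP all_MULT all_TAIL all_SCHED all_QA all_QC

theorem all_WID : S_WID := p_WID all_BEAD all_TAIL

theorem all_CHAR : S_CHAR := p_CHAR

theorem all_KATO : S_KATO := p_KATO

theorem all_PRULE : S_PRULE := p_PRULE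

theorem all_PEXP : S_PEXP := p_PEXP all_PRULE

theorem all_PA : S_PA := p_PA all_KATO all_PRULE all_PEXP

theorem all_CLS : S_CLS := p_CLS all_CHAR all_PA

theorem all_CON : S_CON := p_CON all_POL all_PIN all_BEAD all_MV all_INC all_TAIL all_COMP all_WID all_CHAR

theorem all_CASE : S_CASE := p_CASE all_CON

end Pool.Agent.P.MP_56bcbf_an.R
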