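import Pool.Agent.P.MP_56bcbf_an.R.Iface

section

/-! Step JOR. -/

namespace Pool.Agent.P.MP_56bcbf_an.R

open Set Metric Filter Topology Complex MeasureTheory Real
open scoped ENNReal

namespace JORa

theorem curve {g : ℝ → ℂ} (hc : Continuous g) (hi : g.Injective) (h0 : ∀ t, g t ≠ 0)
    (ht : Tendsto g (cocompact ℝ) (𝓝 0)) :
    ∃ γ : Circle → ℂ, Continuous γ ∧ γ.Injective ∧ insert 0 (range g) = range γ := by
  have : Fact (Module.finrank ℝ ℂ = 1 + 1) := ⟨finrank_real_complex⟩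
  obtain ⟨e⟩ := FiniteDimensional.nonempty_continuousLinearEquiv_of_finrank_eq
    ((Module.finrank_self ℝ).trans
      (Submodule.finrank_orthogonal_span_singleton (𝕜 := ℝ) (one_ne_zero (α := ℂ))).symm)
  let φ : OnePoint ℝ ≃ₜ Circle :=
    e.toHomeomorph.onePointCongr.trans (onePointHyperplaneHomeoUnitSphere norm_one)
  let F := OnePoint.continuousMapMk ⟨g, hc⟩ 0 (coclosedCompact_eq_cocompact (X := ℝ) ▸ ht)
  refine ⟨F ∘ φ.symm, F.continuous.comp φ.symm.continuous, .comp ?_ φ.symm.injective, ?_⟩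
  · rintro (_ | a) (_ | b) h
    exacts [rfl, absurd h.symm (h0 b), absurd h (h0 a), congrArg _ (hi h)]
  · rw [φ.symm.surjective.range_comp]
    exact (Option.range_eq F).symm

/-- The boundary of the half strip. -/
noncomputable def G (t : ℝ) : ℝ × ℝ := (max 0 (min 1 ((1 - t) / 2)), max (|t| - 1) 0)

theorem G1 {t : ℝ} (h : 1 ≤ t) : G t = (0, t - 1) := by
  rw [G, max_eq_left (min_le_of_right_le (by linarith)), abs_of_nonneg (by linarith),
    max_eq_left (by linarith)]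

theorem G2 {t : ℝ} (h : t ≤ -1) : G t = (1, -t - 1) := by
  rw [G, min_eq_left (by linarith), max_eq_right zero_le_one, abs_of_nonpos (by linarith),
    max_eq_left (by linarith)]

theorem G3 {t : ℝ} (h : -1 ≤ t) (h' : t ≤ 1) : G t = ((1 - t) / 2, 0) := by
  rw [G, min_eq_right (by linarith), max_eq_right (by linarith),
    max_eq_right (sub_nonpos.2 (abs_le.2 ⟨h, h'⟩))]

theorem key (t : ℝ) : (1 - 2 * (G t).1) * (1 + (G t).2) = t ∧ G t ∉ Ioo 0 1 ×ˢ Ioi 0 := by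
  rcases le_total 1 t with h | h
  · simp [G1 h]
  rcases le_total t (-1) with h' | h'
  · simp [G2 h']
    ring
  · simp [G3 h' h]
    ring

theorem mem (t : ℝ) : G t ∈ Icc 0 1 ×ˢ Ici 0 :=
  ⟨⟨le_max_left _ _, max_le zero_le_one (min_le_left _ _)⟩, le_max_right (|t| - 1) 0⟩

theorem rng : range G = Icc 0 1 ×ˢ Ici 0 \ Ioo 0 1 ×ˢ Ioi 0 := by
  refine Subset.antisymm (range_subset_iff.2 fun t => ⟨mem t, (key t).2⟩) ?_
  rintro ⟨x, y⟩ ⟨⟨⟨a, b⟩, c : 0 ≤ y⟩, d⟩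
  rcases a.eq_or_lt with (rfl : 0 = x) | a
  · exact ⟨y + 1, by rw [G1 (by linarith), add_sub_cancel_right]⟩
  rcases b.eq_or_lt with (rfl : x = 1) | b
  · exact ⟨-(y + 1), by rw [G2 (by linarith), neg_neg, add_sub_cancel_right]⟩
  obtain rfl : 0 = y := c.eq_or_lt.resolve_right fun e => d ⟨⟨a, b⟩, e⟩
  exact ⟨1 - 2 * x, by rw [G3 (by linarith) (by linarith)]; simp⟩

end JORa

open JORa in
theorem p_JOR :
    S_JOR := by
  intro Θ hc hi hn hW
  have sub : Ioo (0 : ℝ) 1 ×ˢ Ioi (0 : ℝ) ⊆ Icc 0 1 ×ˢ Ici 0 :=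
    prod_mono Ioo_subset_Icc_self Ioi_subset_Ici_self
  have h1 : ∀ x ∈ Icc (0 : ℝ) 1 ×ˢ Ici (0 : ℝ), 1 ≤ ‖Θ x‖ := fun x hx =>
    (le_add_of_nonneg_left hx.2).trans (hn x hx)
  have h0 : ∀ x ∈ Icc (0 : ℝ) 1 ×ˢ Ici (0 : ℝ), Θ x ≠ 0 := fun x hx =>
    norm_pos_iff.1 (one_pos.trans_le (h1 x hx))
  have e : ∀ T, {z | z⁻¹ ∈ Θ '' T} = (fun x => (Θ x)⁻¹) '' T := fun T =>
    Set.ext fun z => exists_congr fun x => and_congr_right fun _ => inv_eq_iff_eq_inv.symm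
  have ho : IsOpen {z | z⁻¹ ∈ Θ '' Ioo 0 1 ×ˢ Ioi 0} := isOpen_iff_mem_nhds.2 fun z hz =>
    (continuousAt_inv₀ fun e => by
      obtain ⟨x, a, b⟩ := hz
      exact h0 x (sub a) (by rw [b, e, inv_zero])).preimage_mem_nhds (hW.mem_nhds hz)
  have fc := hc.inv₀ h0
  have fi : InjOn (fun x => (Θ x)⁻¹) (Icc 0 1 ×ˢ Ici 0) := fun x a y b h => hi a b (inv_inj.1 h)
  have lim : ∀ {X : Type} {l : Filter X} {u : X → ℝ × ℝ} {v : X → ℝ},
      (∀ i, u i ∈ Icc 0 1 ×ˢ Ici 0) → (∀ i, v i ≤ (u i).2 + 1) → Tendsto v l atTop →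
      Tendsto (fun i => (Θ (u i))⁻¹) l (𝓝 0) := fun a b c => tendsto_inv₀_cobounded.comp
    (tendsto_norm_atTop_iff_cobounded.1 (tendsto_atTop_mono (fun i => (b i).trans (hn _ (a i))) c))
  have l1 := lim mem (fun t => sub_le_iff_le_add.1 (le_max_left _ _))
    tendsto_norm_cocompact_atTop
  have l2 : IsCompact (insert 0 ((fun x => (Θ x)⁻¹) '' Icc 0 1 ×ˢ Ici 0)) := by
    rw [image_eq_range]
    refine Tendsto.isCompact_insert_range_of_cocompact (lim (v := fun x => ‖x.1‖) (fun x => x.2)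
      (fun x => max_le ?_ ?_) (tendsto_norm_cocompact_atTop.comp (isClosed_Icc.prod
      isClosed_Ici).isClosedEmbedding_subtypeVal.tendsto_cocompact)) fc.domRestrict
    · exact (Real.norm_of_nonneg x.2.1.1).trans_le (x.2.1.2.trans (le_add_of_nonneg_left x.2.2))
    · exact (Real.norm_of_nonneg x.2.2).trans_le (le_add_of_nonneg_right zero_le_one)
  have c1 : (fun x => (Θ x)⁻¹) '' Icc 0 1 ×ˢ Ici 0 ⊆
      closure ((fun x => (Θ x)⁻¹) '' Ioo 0 1 ×ˢ Ioi 0) := by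
    have c : closure (Ioo (0 : ℝ) 1 ×ˢ Ioi (0 : ℝ)) = Icc 0 1 ×ˢ Ici 0 := by
      rw [closure_prod_eq, closure_Ioo zero_ne_one, closure_Ioi]
    rw [← c] at fc ⊢
    exact fc.image_closure
  have c2 : closure ((fun x => (Θ x)⁻¹) '' Ioo 0 1 ×ˢ Ioi 0) =
      insert 0 ((fun x => (Θ x)⁻¹) '' Icc 0 1 ×ˢ Ici 0) :=
    (closure_minimal ((image_mono sub).trans (subset_insert _ _)) l2.isClosed).antisymm
      (insert_subset (isClosed_closure.mem_of_tendsto l1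
        (.of_forall fun t => c1 ⟨_, mem t, rfl⟩)) c1)
  have c3 : frontier {z | z⁻¹ ∈ Θ '' Ioo 0 1 ×ˢ Ioi 0} =
      insert 0 (range fun t => (Θ (G t))⁻¹) := by
    rw [ho.frontier_eq, e, c2, insert_sdiff_of_notMem, ← fi.image_sdiff_subset sub, ← rng,
      ← range_comp]
    exacts [rfl, fun ⟨x, a, b⟩ => h0 x (sub a) (inv_eq_zero.1 b)]
  refine ⟨⟨ho, ?_, ?_, ?_⟩, c3 ▸ mem_insert _ _, ?_⟩
  · rw [e]
    exact ((isConnected_Ioo one_pos).prod isConnected_Ioi).image _ (fc.mono sub)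
  · rw [e]
    exact l2.isBounded.subset ((image_mono sub).trans (subset_insert _ _))
  · rw [c3]
    exact curve (fc.comp_continuous (by unfold G; fun_prop) mem)
      (fun s t h => by rw [← (key s).1, fi (mem s) (mem t) h, (key t).1])
      (fun t => inv_ne_zero (h0 _ (mem t))) l1
  · rw [c3, e]
    exact insert_subset_insert (range_subset_iff.2 fun t => ⟨_, mem t, rfl⟩)

end Pool.Agent.P.MP_56bcbf_an.R

end

section

/-! Step POL. -/

namespace Pool.Agent.P.MP_56bcbf_an.R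

open Set Metric Filter Topology Complex MeasureTheory Real
open scoped ENNReal

namespace POLa

theorem pa {r φ : ℝ} (hr : 0 < r) (h1 : -(π / 2) ≤ φ) (h2 : φ ≤ π / 2) :
    arg (r * cexp (φ * I)) = φ ∧ ‖r * cexp (φ * I)‖ = r := by
  refine ⟨?_, by simp [hr.le]⟩
  rw [exp_mul_I]
  exact arg_mul_cos_add_sin_mul_I hr ⟨by linarith [pi_pos], by linarith [pi_pos]⟩

theorem op {ψ : ℝ → ℝ → ℝ} (hc : Continuous (Function.uncurry ψ)) (hm : ∀ φ, StrictMono (ψ φ)) :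
    IsOpenMap fun x : ℝ × ℝ => (x.1, ψ x.1 x.2) := by
  intro V hV
  rw [isOpen_iff_forall_mem_open]
  rintro _ ⟨⟨φ, s⟩, hx, rfl⟩
  obtain ⟨η, h0, hη⟩ := Metric.isOpen_iff.1 hV _ hx
  have c : ∀ t, Continuous fun y : ℝ × ℝ => ψ y.1 t := fun t =>
    hc.comp (continuous_fst.prodMk continuous_const)
  refine ⟨{y | dist y.1 φ < η ∧ ψ y.1 (s - η / 2) < y.2 ∧ y.2 < ψ y.1 (s + η / 2)}, ?_,
    (isOpen_lt (continuous_fst.dist continuous_const) continuous_const).inter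
      ((isOpen_lt (c _) continuous_snd).inter (isOpen_lt continuous_snd (c _))),
    by simpa using h0, hm φ (by linarith), hm φ (by linarith)⟩
  rintro ⟨a, b⟩ ⟨h1, h2, h3⟩
  obtain ⟨t, ⟨t1, t2⟩, e⟩ := intermediate_value_Ioo (f := ψ a)
    (show s - η / 2 ≤ s + η / 2 by linarith) (hc.uncurry_left a).continuousOn ⟨h2, h3⟩
  refine ⟨(a, t), hη ?_, Prod.ext rfl e⟩
  rw [mem_ball, Prod.dist_eq, max_lt_iff, Real.dist_eq t, abs_lt]
  exact ⟨h1, by linarith, by linarith⟩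

theorem main (hJOR : S_JOR) (s₀ : ℝ) (X Z : ℝ → ℝ) (ψ : ℝ → ℝ → ℝ) (cX : Continuous X)
    (cZ : Continuous Z) (hc : Continuous (Function.uncurry ψ))
    (hb : ∀ s, s₀ ≤ s → -(π / 2) ≤ X s ∧ X s < Z s ∧ Z s ≤ π / 2) (hm : ∀ φ, StrictMono (ψ φ))
    (hl : ∀ φ s, s₀ ≤ s → s - s₀ + 1 ≤ ψ φ s) :
    IsJordanDomain (Pol s₀ X Z ψ) ∧ 0 ∈ frontier (Pol s₀ X Z ψ) ∧
      ∀ z ∈ frontier (Pol s₀ X Z ψ), z = 0 ∨
        ∃ φ s : ℝ, s₀ ≤ s ∧ X s ≤ φ ∧ φ ≤ Z s ∧ z⁻¹ = ψ φ s * cexp (φ * I) := by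
  obtain ⟨f, hf⟩ : ∃ f : ℝ × ℝ → ℝ, f = fun x =>
    X (s₀ + x.2) + x.1 * (Z (s₀ + x.2) - X (s₀ + x.2)) := ⟨_, rfl⟩
  have cf : Continuous f := by rw [hf]; fun_prop
  have p0 : ∀ φ s, s₀ ≤ s → 0 < ψ φ s := fun φ s h => by linarith [hl φ s h]
  have h1 : ∀ x ∈ Icc (0 : ℝ) 1 ×ˢ Ici (0 : ℝ), s₀ ≤ s₀ + x.2 ∧ X (s₀ + x.2) ≤ f x ∧
      f x ≤ Z (s₀ + x.2) := fun x ⟨⟨a, b⟩, c⟩ => by
    have k := le_add_of_nonneg_right (a := s₀) c
    have := (hb _ k).2.1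
    rw [hf]
    exact ⟨k, by nlinarith, by nlinarith⟩
  have h2 : ∀ x ∈ Icc (0 : ℝ) 1 ×ˢ Ici (0 : ℝ), arg (ψ (f x) (s₀ + x.2) * cexp (f x * I)) = f x ∧
      ‖ψ (f x) (s₀ + x.2) * cexp (f x * I)‖ = ψ (f x) (s₀ + x.2) := fun x hx =>
    have ⟨a, b, c⟩ := h1 x hx
    pa (p0 _ _ a) ((hb _ a).1.trans b) (c.trans (hb _ a).2.2)
  have h3 : (fun x : ℝ × ℝ => ψ (f x) (s₀ + x.2) * cexp (f x * I)) '' Ioo 0 1 ×ˢ Ioi 0 =
      {w | ∃ φ s : ℝ, s₀ < s ∧ X s < φ ∧ φ < Z s ∧ w = ψ φ s * cexp (φ * I)} := by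
    ext w
    constructor
    · rintro ⟨x, ⟨⟨a, b⟩, c⟩, rfl⟩
      have k := lt_add_of_pos_right s₀ c
      have := (hb _ k.le).2.1
      exact ⟨f x, _, k, by rw [hf]; nlinarith, by rw [hf]; nlinarith, rfl⟩
    · rintro ⟨φ, s, a, b, c, rfl⟩
      have k : 0 < Z s - X s := by linarith
      have e : f ((φ - X s) / (Z s - X s), s - s₀) = φ := by
        simp only [hf, add_sub_cancel, div_mul_cancel₀ _ k.ne']
      refine ⟨((φ - X s) / (Z s - X s), s - s₀), ⟨⟨div_pos (by linarith) k, ?_⟩, sub_pos.2 a⟩, ?_⟩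
      · exact (div_lt_one k).2 (by linarith)
      · simp only [e, add_sub_cancel]
  have h4 : {w : ℂ | ∃ φ s : ℝ, s₀ < s ∧ X s < φ ∧ φ < Z s ∧ w = ψ φ s * cexp (φ * I)} =
      {w | 0 < w.re} ∩ (fun w => (arg w, ‖w‖)) ⁻¹' ((fun x : ℝ × ℝ => (x.1, ψ x.1 x.2)) ''
        {x | s₀ < x.2 ∧ X x.2 < x.1 ∧ x.1 < Z x.2}) := by
    ext w
    constructor
    · rintro ⟨φ, s, a, b, c, rfl⟩
      obtain ⟨k1, -, k2⟩ := hb s a.le
      obtain ⟨e1, e2⟩ := pa (p0 φ s a.le) (k1.trans b.le) (c.le.trans k2)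
      refine ⟨(abs_arg_lt_pi_div_two_iff.1 ?_).resolve_right fun e => ?_,
        (φ, s), ⟨a, b, c⟩, Prod.ext e1.symm e2.symm⟩
      · rw [e1, abs_lt]
        exact ⟨by linarith, by linarith⟩
      · rw [e, norm_zero] at e2
        exact (p0 φ s a.le).ne e2
    · rintro ⟨-, ⟨φ, s⟩, ⟨a, b, c⟩, e⟩
      obtain ⟨e1, e2⟩ := Prod.ext_iff.1 e
      refine ⟨φ, s, a, b, c, ?_⟩
      rw [show ψ φ s = ‖w‖ from e2, show φ = arg w from e1, norm_mul_exp_arg_mul_I]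
  have h5 := hJOR (fun x => ψ (f x) (s₀ + x.2) * cexp (f x * I))
    (Continuous.continuousOn (((continuous_ofReal.comp (hc.comp
      (cf.prodMk (continuous_const.add continuous_snd)))).mul (by fun_prop))))
    (fun x hx y hy e => by
      have e1 : f x = f y := (h2 x hx).1.symm.trans ((congrArg arg e).trans (h2 y hy).1)
      have e2 := (h2 x hx).2.symm.trans ((congrArg norm e).trans (h2 y hy).2)
      rw [e1] at e2
      have e3 := (hm _).injective e2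
      simp only [hf, e3, add_right_inj] at e1
      exact Prod.ext (mul_right_cancel₀ (sub_pos.2 (hb _ (h1 y hy).1).2.1).ne' e1)
        (add_left_cancel e3))
    (fun x hx => by
      rw [(h2 x hx).2]
      simpa using hl (f x) _ (h1 x hx).1)
    (by
      rw [h3, h4]
      refine ContinuousOn.isOpen_inter_preimage (fun w hw => ((continuousAt_arg (Or.inl hw)).prodMk
        continuous_norm.continuousAt).continuousWithinAt) (isOpen_lt continuous_const continuous_re)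
        (op hc hm _ ((isOpen_lt continuous_const continuous_snd).inter
          ((isOpen_lt (by fun_prop) continuous_fst).inter (isOpen_lt continuous_fst (by fun_prop))))))
  rw [h3] at h5
  refine ⟨h5.1, h5.2.1, fun z hz => (h5.2.2 hz).imp_right ?_⟩
  rintro ⟨x, hx, e⟩
  exact ⟨f x, _, (h1 x hx).1, (h1 x hx).2.1, (h1 x hx).2.2, e.symm⟩

theorem dd : DD = Pol 1 (fun _ => -(π / 2)) (fun _ => π / 2) fun _ s => s := by
  ext z
  rw [mem_DD]
  constructor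
  · rintro ⟨a, b⟩
    have := abs_lt.1 (abs_arg_lt_pi_div_two_iff.2 (Or.inl a))
    exact ⟨arg z⁻¹, ‖z⁻¹‖, b, this.1, this.2, (norm_mul_exp_arg_mul_I _).symm⟩
  · rintro ⟨φ, s, a, b, c, e⟩
    obtain ⟨e1, e2⟩ := pa (zero_lt_one.trans a) b.le c.le
    rw [← e] at e1 e2
    refine ⟨(abs_arg_lt_pi_div_two_iff.1 ?_).resolve_right fun e => ?_, e2 ▸ a⟩
    · rw [e1, abs_lt]
      exact ⟨b, c⟩
    · rw [e, norm_zero] at e2
      linarith

end POLa

theorem p_POL (hJOR : S_JOR) :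
    S_POL := by
  have := POLa.main hJOR 1 (fun _ => -(π / 2)) (fun _ => π / 2) (fun _ s => s) continuous_const
    continuous_const continuous_snd (fun _ _ => ⟨le_rfl, by linarith [pi_pos], le_rfl⟩)
    (fun _ => strictMono_id) fun _ _ _ => by simp
  rw [← POLa.dd] at this
  exact ⟨POLa.main hJOR, this.1, this.2.1⟩

end Pool.Agent.P.MP_56bcbf_an.R

end

section

/-! Step PIN. -/

namespace Pool.Agent.P.MP_56bcbf_an.R

open Set Metric Filter Topology Complex MeasureTheory Real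
open scoped ENNReal

namespace PINa

/-- The opening angle. -/
noncomputable def al (s : ℝ) : ℝ := arccos (Real.exp (4 - s ^ 2) / max s 1)

theorem al_cont : Continuous al :=
  continuous_arccos.comp (Continuous.div (by fun_prop) (by fun_prop) fun s => by positivity)

theorem al_lt (s : ℝ) : al s < π / 2 := arccos_lt_pi_div_two.2 (by positivity)

theorem lt_al {s x : ℝ} (hs : 3 ≤ s) (hx : |x| ≤ π) :
    |x| < al s ↔ Real.exp (4 - s ^ 2) < s * Real.cos x := by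
  have h1 : Real.exp (4 - s ^ 2) ≤ 1 := Real.exp_le_one_iff.2 (by nlinarith)
  have h2 : 0 < Real.exp (4 - s ^ 2) / s := by positivity
  rw [al, max_eq_left (by linarith), ← strictAntiOn_cos.lt_iff_gt ⟨arccos_nonneg _, arccos_le_pi _⟩
    ⟨abs_nonneg x, hx⟩, cos_arccos (by linarith) ((div_le_one (by linarith)).2 (by linarith)),
    Real.cos_abs, div_lt_iff₀' (by linarith)]

theorem al_pos {s : ℝ} (hs : 3 ≤ s) : 0 < al s := by
  have h1 : Real.exp (4 - s ^ 2) ≤ 1 := Real.exp_le_one_iff.2 (by nlinarith)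
  simpa using (lt_al (x := 0) hs (by simpa using pi_pos.le)).2 (by rw [Real.cos_zero]; linarith)

theorem pol_norm {r : ℝ} (hr : 0 ≤ r) (φ : ℝ) : ‖r * cexp (φ * I)‖ = r := by
  rw [norm_mul, norm_exp_ofReal_mul_I, mul_one, norm_real, norm_of_nonneg hr]

theorem pol_re (r φ : ℝ) : (r * cexp (φ * I)).re = r * Real.cos φ := by
  rw [re_ofReal_mul, exp_ofReal_mul_I_re]

theorem arg_lt {w : ℂ} (h : 3 < ‖w‖) (h' : gw w < w.re) : |arg w| < al ‖w‖ :=
  (lt_al h.le (abs_arg_le_pi w)).2 (by rwa [norm_mul_cos_arg])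

theorem dist_le (r φ : ℝ) (b : ℂ) :
    ‖r * cexp (φ * I) - b‖ ≤ |r - ‖b‖| + ‖b‖ * |φ - arg b| := by
  have e : r * cexp (φ * I) - b = (r - ‖b‖ : ℝ) * cexp (φ * I) +
      b * (cexp (I * (φ - arg b : ℝ)) - 1) := by
    have : b * cexp (I * (φ - arg b : ℝ)) = ‖b‖ * cexp (φ * I) := by
      nth_rw 1 [← norm_mul_exp_arg_mul_I b]
      rw [mul_assoc, ← Complex.exp_add]
      push_cast
      ring_nf
    rw [mul_sub b, this]
    push_cast
    ring
  rw [e]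
  refine (norm_add_le _ _).trans (add_le_add ?_ ?_)
  · rw [norm_mul, norm_exp_ofReal_mul_I, mul_one, norm_real, norm_eq_abs]
  · rw [norm_mul]
    exact mul_le_mul_of_nonneg_left norm_exp_I_mul_ofReal_sub_one_le (norm_nonneg b)

theorem le_dist {r φ : ℝ} {b : ℂ} (hr : 3 ≤ r) (hb : 4 ≤ ‖b‖) (h : |φ - arg b| ≤ π) :
    |φ - arg b| ≤ ‖r * cexp (φ * I) - b‖ := by
  refine abs_le_of_sq_le_sq ?_ (norm_nonneg _)
  have h1 := cos_le_one_sub_mul_cos_sq h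
  have h2 : 1 / 8 ≤ 2 / π ^ 2 := by
    rw [div_le_div_iff₀ (by norm_num) (by positivity)]
    nlinarith [pi_le_four, pi_pos]
  have h3 := mul_le_mul_of_nonneg_right h2 (sq_nonneg (φ - arg b))
  have e : ‖r * cexp (φ * I) - b‖ ^ 2 =
      (r - ‖b‖) ^ 2 + 2 * (r * ‖b‖) * (1 - Real.cos (φ - arg b)) := by
    rw [Complex.sq_norm, normSq_apply, sub_re, sub_im, pol_re, im_ofReal_mul, exp_ofReal_mul_I_im,
      ← norm_mul_cos_arg b, ← norm_mul_sin_arg b, Real.cos_sub]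
    linear_combination r ^ 2 * Real.cos_sq_add_sin_sq φ + ‖b‖ ^ 2 * Real.cos_sq_add_sin_sq (arg b)
  have h4 := mul_le_mul (show 12 ≤ r * ‖b‖ by nlinarith)
    (show 1 / 8 * (φ - arg b) ^ 2 ≤ 1 - Real.cos (φ - arg b) by linarith) (by positivity)
    (by positivity)
  rw [e]
  nlinarith [sq_nonneg (r - ‖b‖), sq_nonneg (φ - arg b)]

end PINa

open PINa in
theorem p_PIN (hPOL : S_POL) (hPINR : S_PINR) :
    S_PIN := by
  intro ι b ε h hB
  have hθ : ∀ j s, |s - ‖b j‖| ≤ h j → |arg (b j)| + 2 * ε j < al s := by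
    intro j s hs
    have h1 := hB.pos j
    have h2 := hB.le j
    have h3 := hB.hle j
    have h4 := hB.big j
    have h5 := hB.away j
    have h6 := (abs_le.1 hs).1
    have h7 := Real.exp_pos (4 - (‖b j‖ - 1) ^ 2)
    have h8 := abs_arg_lt_pi_div_two_iff.2 (.inl (show 0 < (b j).re by nlinarith))
    have h9 : 0 ≤ |arg (b j)| + 2 * ε j := by positivity
    rw [← abs_of_nonneg h9, lt_al (by linarith) (by rw [abs_of_nonneg h9]; linarith [pi_gt_three])]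
    have g1 := (abs_le.1 (abs_cos_sub_cos_le (|arg (b j)| + 2 * ε j) |arg (b j)|)).1
    rw [add_sub_cancel_left, abs_of_pos (by linarith), Real.cos_abs] at g1
    have g2 : Real.exp (4 - s ^ 2) ≤ Real.exp (4 - (‖b j‖ - 1) ^ 2) :=
      Real.exp_le_exp.2 (by nlinarith)
    rw [← norm_mul_cos_arg] at h5
    have g3 := mul_le_mul_of_nonneg_left g1 (norm_nonneg (b j))
    have g4 : 0 < Real.cos (|arg (b j)| + 2 * ε j) := pos_of_mul_pos_left
      (show 0 < Real.cos (|arg (b j)| + 2 * ε j) * ‖b j‖ by linarith) (norm_nonneg _)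
    nlinarith
  obtain ⟨Z', c1, c2, c3, c4⟩ := hPINR ι (fun j => arg (b j)) (fun j => ‖b j‖) ε h al al_cont
    (fun s hs => ⟨al_pos hs, (al_lt s).le⟩) (fun j => ⟨hB.pos j, hB.le j, hB.hle j, hB.big j⟩)
    hB.sep hB.fin hθ
  have hX : ∀ Z : ℝ → ℝ, (∀ s, 3 ≤ s → -al s < Z s ∧ Z s ≤ al s) → ∀ s, 3 ≤ s →
      -(π / 2) ≤ -al s ∧ -al s < Z s ∧ Z s ≤ π / 2 := fun Z hZ s hs =>
    ⟨neg_le_neg (al_lt s).le, (hZ s hs).1, (hZ s hs).2.trans (al_lt s).le⟩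
  have p1 := (hPOL.1 3 (fun s => -al s) Z' (fun _ s => s) al_cont.neg c1 continuous_snd (hX Z' c2)
    (fun _ => strictMono_id) fun _ s _ => by linarith).1
  refine ⟨_, p1.1, p1.2.1.2, fun z h1 h2 h3 => ?_, fun ω hω => ?_⟩
  · have := abs_lt.1 (arg_lt h1 h2)
    exact ⟨_, _, h1, this.1, (c3 _ h3).symm ▸ this.2, (norm_mul_exp_arg_mul_I _).symm⟩
  obtain ⟨Z, ψ, d1, d2, d3, d4, d5, d6, d7, d8⟩ := c4 ω hω
  obtain ⟨p2, p3, p4⟩ := hPOL.1 3 (fun s => -al s) Z ψ al_cont.neg d1 d2 (hX Z d5) d3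
    fun φ s _ => by linarith [d4 φ s]
  have hD : ∀ (z : ℂ) (r φ : ℝ), 1 < r → |φ| < π / 2 → z⁻¹ = r * cexp (φ * I) → z ∈ DD :=
    fun z r φ h1 h2 e => by
      rw [mem_DD, e, pol_re, pol_norm (by linarith)]
      exact ⟨mul_pos (by linarith) (cos_pos_of_mem_Ioo (abs_lt.1 h2)), h1⟩
  refine ⟨_, p2, ?_, ?_, ?_, ?_, fun z _ hz => ?_⟩
  · rintro z ⟨φ, r, h1, h2, h3, e⟩
    obtain ⟨s, g1, g2, g3, rfl⟩ := d6 φ r h1 h2 h3
    exact ⟨φ, s, g1, g2, g3, e⟩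
  · rintro z ⟨φ, s, h1, h2, h3, e⟩
    obtain ⟨g1, g2, -⟩ := d7 φ s h1 h2 h3
    exact hD z _ φ (by linarith) (g2.trans (al_lt _)) e
  · refine Subset.antisymm (fun z hz => (p4 z hz.2).resolve_right ?_)
      (singleton_subset_iff.2 ⟨hPOL.2.2, p3⟩)
    rintro ⟨φ, s, h1, h2, h3, e⟩
    exact DD_open.inter_frontier_eq.le ⟨hD z _ φ (by linarith [d4 φ s])
      ((abs_le.2 ⟨h2, h3.trans (d5 s h1).2⟩).trans_lt (al_lt s)) e, hz.1⟩
  · rintro z ⟨φ, s, h1, h2, h3, e⟩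
    obtain ⟨g1, g2, g3⟩ := d7 φ s h1 h2 h3
    have g4 := g2.trans (al_lt _)
    rw [e, gw, pol_re, pol_norm (by linarith)]
    refine ⟨(lt_al g1.le (by linarith [pi_pos])).1 g2, fun j => (g3 j).elim
      (fun k => k.le.trans (le_dist g1.le (hB.big j) ((abs_sub _ _).trans ?_))) fun k => k.le.trans ?_⟩
    · have := (hθ j ‖b j‖ (by simpa using by linarith [hB.pos j, hB.le j])).trans (al_lt _)
      linarith [hB.pos j]
    · simpa only [pol_norm (show 0 ≤ ψ φ s by linarith)] using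
        abs_norm_sub_norm_le (ψ φ s * cexp (φ * I)) (b j)
  · by_contra k
    simp only [not_or, not_le, not_exists] at k
    rcases d8 _ _ k.1 (arg_lt k.1 k.2.1) with ⟨s, g1, g2, g3, e⟩ | ⟨j, g | g⟩
    · exact hz ⟨_, s, g1, g2, g3, e.symm ▸ (norm_mul_exp_arg_mul_I _).symm⟩
    · have g1 := dist_le ‖z⁻¹‖ (arg z⁻¹) (b j)
      rw [norm_mul_exp_arg_mul_I] at g1
      have g2 := mul_le_mul_of_nonneg_left g.1 (norm_nonneg (b j))
      nlinarith [(k.2.2 j).1, g.2, hB.big j, hB.pos j]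
    · exact (k.2.2 j).2.not_ge g

end Pool.Agent.P.MP_56bcbf_an.R

end
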