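import Pool.Agent.P.MP_56bcbf_an.R.Defs
import Pool.Agent.P.MP_56bcbf_an.Main

/-! Objects of the construction and facts on the parameters. -/

namespace Pool.Agent.P.MP_56bcbf_an.R

open Set Metric Filter Topology Complex MeasureTheory Real
open scoped ENNReal

/-- The admissible sets of exponents. -/
def Adm (S : Set ℝ) : Prop :=
  S = ∅ ∨ S = Ici 1 ∨ ∃ p₀ : ℝ, 2 ≤ p₀ ∧ (S = Ico 1 p₀ ∨ S = Icc 1 p₀)

/-- An annihilator of the polynomials in `L^q` that lives on `Ω`. -/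
def Ann (q : ℝ≥0∞) (Ω : Set ℂ) (k : ℂ → ℂ) : Prop :=
  Measurable k ∧ Integrable k ∧ MemLp k q volume ∧ (∀ w ∉ Ω, k w = 0) ∧
    ∀ n : ℕ, ∫ w, w ^ n * k w = 0

/-- The exponent conjugate to `p`. -/
noncomputable def cj (p : ℝ) : ℝ≥0∞ := (ENNReal.ofReal p).conjExponent

theorem cj_conj {p : ℝ} (hp : 1 ≤ p) : (ENNReal.ofReal p).HolderConjugate (cj p) :=
  ENNReal.HolderConjugate.conjExponent (ENNReal.one_le_ofReal.2 hp)

/-- The norm of a polynomial. -/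
noncomputable def Np (p : ℝ) (Ω : Set ℂ) (P : Polynomial ℂ) : ℝ :=
  (eLpNorm (fun z => P.eval z) (ENNReal.ofReal p) (volume.restrict Ω)).toReal

/-- Densities with a bounded Cauchy transform. -/
def Kato (f : ℂ → ℂ) : Prop :=
  Measurable f ∧ ∃ M : ℝ≥0∞, M ≠ ∞ ∧ ∀ z, ∫⁻ w, ‖f w / (w - z)‖ₑ ≤ M

theorem sub_compl {D U : Set ℂ} (hU : IsOpen U) : U ⊆ (closure (interior (D \ U)))ᶜ :=
  fun _ hz h => by
    obtain ⟨w, hw, hw'⟩ := mem_closure_iff.1 h U hU hz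
    exact (interior_subset hw').2 hw

/-- The half disc. -/
def DD : Set ℂ := {z | 0 < z.re ∧ ‖z‖ < 1}

theorem DD_open : IsOpen DD :=
  (isOpen_lt continuous_const continuous_re).inter (isOpen_lt continuous_norm continuous_const)

theorem DD_ball : DD ⊆ ball 0 1 := fun _ h => mem_ball_zero_iff.2 h.2

theorem DD_bdd : Bornology.IsBounded DD := isBounded_ball.subset DD_ball

theorem mem_DD {z : ℂ} : z ∈ DD ↔ 0 < (z⁻¹).re ∧ 1 < ‖z⁻¹‖ := by
  by_cases h : z = 0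
  · simp [h, DD]
  have h1 := norm_pos_iff.2 h
  rw [inv_re, norm_inv, one_lt_inv₀ h1, div_pos_iff_of_pos_right (normSq_pos.2 h)]
  rfl

/-- The width of the layer. -/
noncomputable def gw (w : ℂ) : ℝ := Real.exp (4 - ‖w‖ ^ 2)

/-- A region given in polar coordinates of `1 / z`. -/
def Pol (s₀ : ℝ) (X Z : ℝ → ℝ) (ψ : ℝ → ℝ → ℝ) : Set ℂ :=
  {z | ∃ φ s : ℝ, s₀ < s ∧ X s < φ ∧ φ < Z s ∧ z⁻¹ = ψ φ s * cexp (φ * I)}

/-- Centres, sizes and strips of the beads. -/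
structure Beads {ι : Type} (b : ι → ℂ) (ε h : ι → ℝ) : Prop where
  pos : ∀ j, 0 < ε j
  le : ∀ j, 4 * ε j ≤ h j
  hle : ∀ j, h j ≤ 1 / 2
  big : ∀ j, 4 ≤ ‖b j‖
  sep : ∀ j k, j ≠ k → h j + h k < |‖b j‖ - ‖b k‖|
  fin : ∀ R : ℝ, {j | ‖b j‖ ≤ R}.Finite
  away : ∀ j, 2 * Real.exp (4 - (‖b j‖ - 1) ^ 2) + 2 * ‖b j‖ * ε j < (b j).re

/-- The exponential term. -/
noncomputable def gE (r τ : ℝ) (v : ℂ) : ℂ := (v / r) ^ 2 * cexp (τ * (v - r ^ 2 / v))

/-- The function whose zeros in the right half plane form a row of beads. -/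
noncomputable def EE (r τ : ℝ) (v : ℂ) : ℂ := 1 - gE r τ v

/-- The normalised function. -/
noncomputable def ET (r τ : ℝ) (v : ℂ) : ℂ := EE r τ v * (r / (r + v)) ^ 2

/-- The basic sequence. -/
noncomputable def sg (l : ℕ) : ℝ := 32 ^ 2 ^ l

/-- The radius of a row. -/
noncomputable def rr (l : ℕ) : ℝ := sg l ^ 2

/-- The type of a row. -/
noncomputable def tau (l : ℕ) : ℝ := π * sg l ^ 6

/-- The type of the row before. -/
noncomputable def TT (l : ℕ) : ℝ := π * sg l ^ 3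

/-- The zeros of a row. -/
def ZZ (l : ℕ) : Set ℂ := {v | 0 < v.re ∧ EE (rr l) (tau l) v = 0}

/-- The index set of the beads. -/
abbrev JJ : Type := Σ l : ℕ, ZZ l

/-- The centre of a bead. -/
noncomputable def bd (j : JJ) : ℂ := j.2.1 + I / 2

/-- The size of a bead. -/
noncomputable def ep (t : ℕ → ℝ) (l : ℕ) (v : ℂ) : ℝ :=
  Real.exp (-(t l / 2 * TT l * (v.re + sg l)))

/-- The size of a bead. -/
noncomputable def ej (t : ℕ → ℝ) (j : JJ) : ℝ := ep t j.1 j.2.1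

/-- The half width of a strip. -/
noncomputable def hj (j : JJ) : ℝ := 1 / (7 * tau j.1 * rr j.1)

/-- The meromorphic function of the maximum modulus argument. -/
noncomputable def FL (L : ℕ) (w : ℂ) : ℂ :=
  cexp (17 * (w - I / 2) ^ 2) / ∏ k ∈ Finset.range (L + 1), EE (rr k) (tau k) (w - I / 2)

/-- Its residues. -/
noncomputable def res (L l : ℕ) (v : ℂ) : ℂ :=
  cexp (17 * v ^ 2) /
    (deriv (EE (rr l) (tau l)) v * ∏ k ∈ (Finset.range (L + 1)).erase l, EE (rr k) (tau k) v)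

/-- The multiplier. -/
noncomputable def QQ (n L : ℕ) (m : ℕ → ℕ) (w : ℂ) : ℂ :=
  cexp (n * w) * ∏ l ∈ Finset.range L, ET (rr l) (tau l) (w - I / 2) ^ m l

/-- The old part, the layer and the new beads. -/
def OM (t : ℕ → ℝ) (i : ℕ) : Set ℂ :=
  {z | z ∈ DD ∧ (‖z⁻¹‖ ≤ rr i + 2 ∨ (z⁻¹).re ≤ gw z⁻¹ ∨
    ∃ j : JJ, i < j.1 ∧ ‖z⁻¹ - bd j‖ ≤ 2 * ‖bd j‖ * ej t j)}

/-- Densities that decay fast at `0` and whose Cauchy transform vanishes to the left. -/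
def Good (Ω : Set ℂ) (k : ℂ → ℂ) : Prop :=
  Measurable k ∧ (∀ w ∉ Ω, k w = 0) ∧
    (∀ τ : ℝ, Integrable fun z => Real.exp (τ * ‖z⁻¹‖) * ‖k z‖) ∧
    ∀ c : ℂ, c.re < 0 → cauchy k c = 0

/-- The exponent `p` is good for the rows after `i`. -/
def GoodP (t : ℕ → ℝ) (p : ℝ) (i : ℕ) : Prop :=
  1 ≤ p ∧ (∀ l, i < l → p ≤ t l) ∧
    ∀ n : ℕ, ∀ᶠ l in atTop, n * (1 / sg l + max (2 - t l) 0) ≤ t l / p - 1

/-- The test points. -/
noncomputable def am (m : ℕ) : ℂ := (4 + 1 / ((m : ℂ) + 1))⁻¹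

theorem sg_succ (l : ℕ) : sg (l + 1) = sg l ^ 2 := by
  rw [sg, sg, pow_succ, pow_mul]

theorem sg_pow (l : ℕ) : (32 : ℝ) ^ (l + 1) ≤ sg l :=
  pow_le_pow_right₀ (by norm_num) Nat.lt_two_pow_self

theorem sg_ge (l : ℕ) : 32 * 2 ^ l ≤ sg l := by
  refine le_trans ?_ (sg_pow l)
  rw [pow_succ, mul_comm]
  gcongr
  norm_num

theorem sg_32 (l : ℕ) : 32 ≤ sg l :=
  (le_mul_of_one_le_right (by norm_num) (one_le_pow₀ one_le_two)).trans (sg_ge l)

theorem sg_pos (l : ℕ) : 0 < sg l := by linarith [sg_32 l]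

theorem sg_mono : Monotone sg := fun _ _ h =>
  pow_le_pow_right₀ (by norm_num) (Nat.pow_le_pow_right two_pos h)

theorem sg_tendsto : Tendsto sg atTop atTop :=
  tendsto_atTop_mono sg_ge
    ((tendsto_pow_atTop_atTop_of_one_lt one_lt_two).const_mul_atTop (by norm_num))

theorem rr_eq (l : ℕ) : rr l = sg (l + 1) := (sg_succ l).symm

theorem rr_succ (l : ℕ) : rr (l + 1) = rr l ^ 2 := by rw [rr, rr_eq]

theorem rr_ge (l : ℕ) : 1024 ≤ rr l := by
  rw [rr]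
  nlinarith [sg_32 l]

theorem rr_pos (l : ℕ) : 0 < rr l := by linarith [rr_ge l]

theorem rr_mono : Monotone rr := fun _ _ h => by
  rw [rr_eq, rr_eq]
  exact sg_mono (Nat.succ_le_succ h)

theorem rr_sq_le {k l : ℕ} (h : k < l) : rr k ^ 2 ≤ rr l := (rr_succ k).ge.trans (rr_mono h)

theorem rr_lt {k l : ℕ} (h : k < l) : 1024 * rr k ≤ rr l := by
  nlinarith [rr_sq_le h, rr_ge k]

theorem rr_add (k d : ℕ) : 1024 ^ d * rr k ≤ rr (k + d) := by
  induction d with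
  | zero => simp
  | succ d ih =>
    have := rr_lt (show k + d < k + (d + 1) by omega)
    rw [pow_succ]
    linarith

theorem TT_succ (l : ℕ) : TT (l + 1) = tau l := by
  rw [TT, tau, sg_succ, ← pow_mul]

theorem TT_pos (l : ℕ) : 0 < TT l := mul_pos pi_pos (pow_pos (sg_pos l) _)

theorem tau_ge (l : ℕ) : 1 ≤ tau l :=
  one_le_mul_of_one_le_of_one_le (by linarith [pi_gt_three])
    (one_le_pow₀ (by linarith [sg_32 l]))

theorem tau_pos (l : ℕ) : 0 < tau l := by linarith [tau_ge l]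

theorem tau_rr (l : ℕ) : ∃ m : ℕ, tau l * rr l = π * m :=
  ⟨(32 ^ 2 ^ l) ^ 8, by
    rw [tau, rr, sg]
    push_cast
    ring⟩

/-- Every polynomial in `sg l` is below `exp (sg l ^ 2)`. -/
theorem poly_le (l : ℕ) {c : ℝ} {a n : ℕ} (hc : c ≤ 32 ^ a) (h : a + n ≤ 32) :
    c * sg l ^ n ≤ Real.exp (rr l) := by
  have h1 := sg_32 l
  have h2 : sg l ≤ Real.exp (sg l) := by linarith [Real.add_one_le_exp (sg l)]
  calc c * sg l ^ n ≤ sg l ^ a * sg l ^ n := by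
        gcongr
        exact hc.trans (by gcongr)
    _ ≤ Real.exp (sg l) ^ 32 := by
        rw [← pow_add]
        exact (pow_le_pow_right₀ (by linarith) h).trans (by gcongr)
    _ ≤ Real.exp (rr l) := by
        rw [← Real.exp_nat_mul, rr]
        gcongr
        push_cast
        nlinarith

theorem exp_sg_le (l : ℕ) : Real.exp (-sg l) ≤ (1 / 2) ^ (l + 5) := by
  rw [Real.exp_neg, one_div, inv_pow]
  gcongr
  have := sg_ge l
  have h2 := Real.add_one_le_exp (sg l)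
  rw [pow_add]
  linarith

end Pool.Agent.P.MP_56bcbf_an.R
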