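import Pool.Agent.P.MP_56bcbf_an.Defs

/-! The set of exponents for which the polynomials are complete. -/

namespace Pool.Agent.P.MP_56bcbf_an.R

/-- The real exponents `p ≥ 1` with `H^p = L^p_a` on the interior of `D \ U`. -/
def CRange (D U : Set ℂ) : Set ℝ :=
  {p | 1 ≤ p ∧ Hp (ENNReal.ofReal p) (interior (D \ U)) = Lpa (ENNReal.ofReal p) (interior (D \ U))}

end Pool.Agent.P.MP_56bcbf_an.R
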