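import Pool.Agent.P.MP_56bcbf_an.R.Basic

/-! Statements of the steps. -/

namespace Pool.Agent.P.MP_56bcbf_an.R

open Set Metric Filter Topology Complex MeasureTheory Real
open scoped ENNReal

-- deps:
def S_JOR : Prop :=
  ∀ Θ : ℝ × ℝ → ℂ, ContinuousOn Θ (Icc 0 1 ×ˢ Ici 0) → InjOn Θ (Icc 0 1 ×ˢ Ici 0) →
    (∀ x ∈ Icc (0 : ℝ) 1 ×ˢ Ici (0 : ℝ), x.2 + 1 ≤ ‖Θ x‖) → IsOpen (Θ '' Ioo 0 1 ×ˢ Ioi 0) →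
    IsJordanDomain {z | z⁻¹ ∈ Θ '' Ioo 0 1 ×ˢ Ioi 0} ∧
      0 ∈ frontier {z : ℂ | z⁻¹ ∈ Θ '' Ioo 0 1 ×ˢ Ioi 0} ∧
      frontier {z : ℂ | z⁻¹ ∈ Θ '' Ioo 0 1 ×ˢ Ioi 0} ⊆
        insert 0 {z : ℂ | z⁻¹ ∈ Θ '' Icc 0 1 ×ˢ Ici 0}

-- deps: JOR
def S_POL : Prop :=
  (∀ (s₀ : ℝ) (X Z : ℝ → ℝ) (ψ : ℝ → ℝ → ℝ), Continuous X → Continuous Z →
    Continuous (Function.uncurry ψ) →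
    (∀ s, s₀ ≤ s → -(π / 2) ≤ X s ∧ X s < Z s ∧ Z s ≤ π / 2) → (∀ φ, StrictMono (ψ φ)) →
    (∀ φ s, s₀ ≤ s → s - s₀ + 1 ≤ ψ φ s) →
    IsJordanDomain (Pol s₀ X Z ψ) ∧ 0 ∈ frontier (Pol s₀ X Z ψ) ∧
      ∀ z ∈ frontier (Pol s₀ X Z ψ), z = 0 ∨
        ∃ φ s : ℝ, s₀ ≤ s ∧ X s ≤ φ ∧ φ ≤ Z s ∧ z⁻¹ = ψ φ s * cexp (φ * I)) ∧
  IsJordanDomain DD ∧ 0 ∈ frontier DD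

-- deps:
def S_PINR : Prop :=
  ∀ (ι : Type) (θ ρ ε h : ι → ℝ) (α : ℝ → ℝ), Continuous α →
    (∀ s, 3 ≤ s → 0 < α s ∧ α s ≤ π / 2) → (∀ j, 0 < ε j ∧ 4 * ε j ≤ h j ∧ h j ≤ 1 / 2 ∧ 4 ≤ ρ j) →
    (∀ j k, j ≠ k → h j + h k < |ρ j - ρ k|) → (∀ R : ℝ, {j | ρ j ≤ R}.Finite) →
    (∀ j s, |s - ρ j| ≤ h j → |θ j| + 2 * ε j < α s) →
    ∃ Z' : ℝ → ℝ, Continuous Z' ∧ (∀ s, 3 ≤ s → -α s < Z' s ∧ Z' s ≤ α s) ∧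
      (∀ s, (∀ j, h j < |s - ρ j|) → Z' s = α s) ∧
      ∀ ω : ι → ℝ, (∀ j, 0 < ω j ∧ ω j ≤ ε j) →
        ∃ (Z : ℝ → ℝ) (ψ : ℝ → ℝ → ℝ), Continuous Z ∧ Continuous (Function.uncurry ψ) ∧
          (∀ φ, StrictMono (ψ φ)) ∧ (∀ φ s, s - 1 ≤ ψ φ s) ∧
          (∀ s, 3 ≤ s → -α s < Z s ∧ Z s ≤ α s) ∧
          (∀ φ r, 3 < r → -α r < φ → φ < Z' r →
            ∃ s, 3 < s ∧ -α s < φ ∧ φ < Z s ∧ ψ φ s = r) ∧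
          (∀ φ s, 3 < s → -α s < φ → φ < Z s → 3 < ψ φ s ∧ |φ| < α (ψ φ s) ∧
            ∀ j, ε j / 2 < |φ - θ j| ∨ ε j / 2 < |ψ φ s - ρ j|) ∧
          ∀ φ r, 3 < r → |φ| < α r → (∃ s, 3 < s ∧ -α s < φ ∧ φ < Z s ∧ ψ φ s = r) ∨
            ∃ j, (|φ - θ j| ≤ ε j ∧ |r - ρ j| ≤ 2 * ε j) ∨ |r - ρ j| ≤ ω j

-- deps: POL PINR
def S_PIN : Prop :=
  ∀ (ι : Type) (b : ι → ℂ) (ε h : ι → ℝ), Beads b ε h →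
    ∃ U' : Set ℂ, IsOpen U' ∧ IsPreconnected U' ∧
      (∀ z : ℂ, 3 < ‖z⁻¹‖ → gw z⁻¹ < (z⁻¹).re → (∀ j, h j < |‖z⁻¹‖ - ‖b j‖|) → z ∈ U') ∧
      ∀ ω : ι → ℝ, (∀ j, 0 < ω j ∧ ω j ≤ ε j) →
        ∃ U : Set ℂ, IsJordanDomain U ∧ U' ⊆ U ∧ U ⊆ DD ∧ frontier DD ∩ frontier U = {0} ∧
          (∀ z ∈ U, gw z⁻¹ < (z⁻¹).re ∧ ∀ j, ε j / 2 ≤ ‖z⁻¹ - b j‖) ∧
          ∀ z ∈ DD, z ∉ U → ‖z⁻¹‖ ≤ 3 ∨ (z⁻¹).re ≤ gw z⁻¹ ∨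
            ∃ j, ‖z⁻¹ - b j‖ ≤ 2 * ‖b j‖ * ε j ∨ |‖z⁻¹‖ - ‖b j‖| ≤ ω j

-- deps:
def S_EA : Prop :=
  ∀ (r τ : ℝ) (v : ℂ), 0 < r → 0 ≤ τ → 0 ≤ v.re → v ≠ 0 →
    |1 - ‖v‖ ^ 2 / r ^ 2| ≤ ‖EE r τ v‖ ∧
    (2 * r ≤ ‖v‖ → Real.exp (τ * v.re * (1 - r ^ 2 / ‖v‖ ^ 2)) ≤ ‖EE r τ v‖) ∧
    (‖v‖ ≤ r → ‖EE r τ v‖ ≤ 1 + ‖v‖ ^ 2 / r ^ 2 ∧ ‖ET r τ v‖ ≤ 1) ∧
    ‖ET r τ v‖ ≤ Real.exp (τ * v.re) ∧ ‖ET r τ v‖ ≤ ‖EE r τ v‖ ∧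
    (2 * ‖v‖ ≤ r → Real.exp (-(4 * ‖v‖ / r)) ≤ ‖ET r τ v‖)

-- deps: EA
def S_EB : Prop :=
  ∀ r τ : ℝ, 1 ≤ r → 1 ≤ τ →
    (∀ (b v : ℂ) (η : ℝ), ‖b‖ = r → ‖v - b‖ ≤ η → 3 * τ * η ≤ 1 →
      ‖EE r τ v - EE r τ b‖ ≤ 15 * τ * η) ∧
    (∀ v ≠ 0, DifferentiableAt ℂ (EE r τ) v) ∧
    (∀ b : ℂ, 0 < b.re → EE r τ b = 0 → ‖b‖ = r ∧ 2 / r ≤ ‖deriv (EE r τ) b‖) ∧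
    ((∃ m : ℕ, τ * r = π * m) →
      (∀ v : ℂ, v ≠ 0 → 0 ≤ v.re → v.re ≤ 1 / (60 * τ) → 1 / (30 * τ * r) ≤ ‖EE r τ v‖) ∧
      ∀ b : ℂ, 0 < b.re → EE r τ b = 0 → 1 / (60 * τ) < b.re)

-- deps: EA
def S_EZ : Prop :=
  ∀ r τ : ℝ, 1 ≤ r → 1 ≤ τ →
    (∀ b b' : ℂ, 0 < b.re → EE r τ b = 0 → 0 < b'.re → EE r τ b' = 0 → b ≠ b' →
      1 / τ ≤ |b.im - b'.im|) ∧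
    {v : ℂ | 0 < v.re ∧ EE r τ v = 0}.Finite ∧
    ({v : ℂ | 0 < v.re ∧ EE r τ v = 0}.ncard : ℝ) ≤ 3 * τ * r

-- deps: EB EZ
def S_BEAD : Prop :=
  (∀ j : JJ, ‖j.2.1‖ = rr j.1 ∧ |‖bd j‖ - rr j.1| ≤ 1 / 2 ∧ 1 / (60 * tau j.1) < (bd j).re) ∧
    (∀ l, (ZZ l).Finite ∧ ((ZZ l).ncard : ℝ) ≤ 3 * tau l * rr l) ∧
    ∀ t : ℕ → ℝ, (∀ l, 1 / 2 ≤ t l) → Beads bd (ej t) hj ∧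
      ∀ j : JJ, 12 * tau j.1 * rr j.1 * ej t j ≤ 1

-- deps:
def S_POLES : Prop :=
  ∀ (V : Set ℂ) (S : Finset ℂ) (H c : ℂ → ℂ) (M : ℝ), IsOpen V → Bornology.IsBounded V →
    (S : Set ℂ) ⊆ V → (∀ w ∈ closure V, w ∉ S → DifferentiableAt ℂ H w) →
    (∀ b ∈ S, Tendsto (fun w => (w - b) * H w) (𝓝[≠] b) (𝓝 (c b))) →
    (∀ w ∈ frontier V, ‖H w‖ + ∑ b ∈ S, ‖c b‖ / ‖w - b‖ ≤ M) →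
    ∀ a ∈ V, a ∉ S → ‖H a‖ ≤ M + ∑ b ∈ S, ‖c b‖ / ‖a - b‖

-- deps:
def S_MV : Prop :=
  (∀ (Ω : Set ℂ) (p : ℝ) (P : Polynomial ℂ) (w : ℂ) (η : ℝ), 1 ≤ p → Bornology.IsBounded Ω →
    MeasurableSet Ω → 0 < η → η ≤ ‖w‖ → (∀ z : ℂ, ‖z⁻¹ - w‖ < η → z ∈ Ω) →
    ‖P.eval w⁻¹‖ ≤ (2 * ‖w‖ ^ 2 / η) ^ (2 / p) * Np p Ω P) ∧
  ∀ (Ω : Set ℂ) (p : ℝ) (a : ℂ) (C : ℝ), 1 ≤ p → IsOpen Ω → Bornology.IsBounded Ω →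
    a ∉ closure Ω → (∀ P : Polynomial ℂ, ‖P.eval a‖ ≤ C * Np p Ω P) →
    Hp (ENNReal.ofReal p) Ω ≠ Lpa (ENNReal.ofReal p) Ω

-- deps: EA
def S_PROD : Prop :=
  ∀ (v : ℂ) (A : Finset ℕ), 0 ≤ v.re → v ≠ 0 →
    ((∀ k ∈ A, 2 * ‖v‖ ≤ rr k ∨ 2 * rr k ≤ ‖v‖) → 1 / 2 ≤ ‖∏ k ∈ A, EE (rr k) (tau k) v‖) ∧
    (‖v‖ ≤ 5 → ‖∏ k ∈ A, EE (rr k) (tau k) v‖ ≤ 2)

-- deps: EA EB PROD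
def S_INCL : Prop :=
  (∀ w : ℂ, w.re = gw w / 2 → 3 / 2 ≤ ‖w‖ ∧ ∀ w' : ℂ, ‖w' - w‖ < Real.exp (-(3 * ‖w‖ ^ 2)) →
    1 < ‖w'‖ ∧ 0 < w'.re ∧ w'.re < gw w') ∧
  (∃ C : ℝ, ∀ (L : ℕ) (w : ℂ), w.re = gw w / 2 →
    ‖FL L w‖ * (2 * ‖w‖ ^ 2 / Real.exp (-(3 * ‖w‖ ^ 2))) ^ 2 ≤ C) ∧
  (∀ (L : ℕ) (w : ℂ), 0 ≤ w.re → ‖w - I / 2‖ = 3 * rr L → ‖FL L w‖ ≤ Real.exp (-rr L)) ∧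
  ∃ c : ℝ, 0 < c ∧ ∀ L : ℕ, c ≤ ‖FL L 4‖

-- deps: EA EB PROD BEAD
def S_INCB : Prop :=
  (∀ (L l : ℕ) (v : ℂ), l ≤ L → v ∈ ZZ l →
    Tendsto (fun w => (w - (v + I / 2)) * FL L w) (𝓝[≠] (v + I / 2)) (𝓝 (res L l v))) ∧
  ∀ (t : ℕ → ℝ) (p : ℝ), 1 ≤ p → (∀ᶠ l in atTop, t l / p ≤ 1 - 12 / sg l) →
    ∃ s : ℕ → ℝ, Summable s ∧ ∀ (L l : ℕ) (S : Finset ℂ), l ≤ L → (S : Set ℂ) ⊆ ZZ l →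
      ∑ v ∈ S, ‖res L l v‖ * (2 * ‖v + I / 2‖ ^ 2 / (ep t l v / 2)) ^ (2 / p) * (120 * tau l) ≤ s l

-- deps: EB BEAD POLES MV INCL INCB
def S_INC : Prop :=
  ∀ (t : ℕ → ℝ) (p : ℝ) (Ω : Set ℂ), (∀ l, 1 / 2 ≤ t l) → 1 ≤ p →
    (∀ᶠ l in atTop, t l / p ≤ 1 - 12 / sg l) → IsOpen Ω → Ω ⊆ DD →
    (∀ z : ℂ, 1 < ‖z⁻¹‖ → 0 < (z⁻¹).re → (z⁻¹).re < gw z⁻¹ → z ∈ Ω) →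
    (∀ (j : JJ) (z : ℂ), ‖z⁻¹ - bd j‖ < ej t j / 2 → z ∈ Ω) →
    ∃ C : ℝ, ∀ P : Polynomial ℂ, ‖P.eval (4 : ℂ)⁻¹‖ ≤ C * Np p Ω P

-- deps:
def S_MULT : Prop :=
  ∀ (Ω : Set ℂ) (k : ℂ → ℂ) (a : ℂ), Ω ⊆ DD → a ∈ DD → a ∉ closure Ω → Good Ω k →
    ∀ (n L : ℕ) (m : ℕ → ℕ),
      cauchy (fun z => QQ n L m z⁻¹ * k z) a = QQ n L m a⁻¹ * cauchy k a

-- deps: BEAD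
def S_TAIL : Prop :=
  ∀ (t : ℕ → ℝ) (i : ℕ), (∀ l, 1 ≤ t l) → MeasurableSet (OM t i) ∧ ∀ p τ : ℝ, 1 ≤ p →
    MemLp (fun z : ℂ => Real.exp (τ * ‖z⁻¹‖)) (ENNReal.ofReal p) (volume.restrict (OM t i))

-- deps:
def S_SCHED : Prop :=
  ∀ (t : ℕ → ℝ) (p : ℝ) (i : ℕ), (∀ l, 2 - (1 / 2) ^ (l + 2) ≤ t l) → GoodP t p i → ∀ n : ℕ,
    ∃ (L : ℕ) (m : ℕ → ℕ), (∀ l, m l ≤ 2 * n) ∧ (∀ l, l ≤ i ∨ L ≤ l → m l = 0) ∧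
      ∀ l, i < l → n + ∑ k ∈ Finset.range l, m k * tau k ≤ (m l + 2 / p) * (t l / 2) * TT l

-- deps: EA
def S_QA : Prop :=
  ∀ (i n L : ℕ) (m : ℕ → ℕ), (∀ l, m l ≤ 2 * n) → (∀ l, l ≤ i → m l = 0) →
    (∀ w : ℂ, ‖w - 3 * rr i‖ ≤ 1 → Real.exp (n * (3 * rr i - 2)) ≤ ‖QQ n L m w‖) ∧
    ∀ w : ℂ, 0 < w.re → 1 < ‖w‖ → ‖w‖ ≤ rr i + 2 ∨ w.re ≤ gw w →
      ‖QQ n L m w‖ ≤ Real.exp (n * (rr i + 2))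

-- deps: EA EB BEAD
def S_QB : Prop :=
  ∀ (t : ℕ → ℝ) (p : ℝ) (n L : ℕ) (m : ℕ → ℕ) (j : JJ) (w : ℂ), (∀ l, 1 ≤ t l) → 1 ≤ p →
    (∀ l, L ≤ l → m l = 0) →
    n + ∑ k ∈ Finset.range j.1, m k * tau k ≤ (m j.1 + 2 / p) * (t j.1 / 2) * TT j.1 →
    0 ≤ w.re → ‖w - bd j‖ ≤ 2 * ‖bd j‖ * ej t j →
    ‖QQ n L m w‖ ^ p * (π * (2 * ‖bd j‖ * ej t j) ^ 2) * (3 * tau j.1 * rr j.1) ≤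
      (1 / 2) ^ (j.1 + 1)

-- deps: BEAD QA QB
def S_QC : Prop :=
  ∀ (t : ℕ → ℝ) (p : ℝ) (i n L : ℕ) (m : ℕ → ℕ), (∀ l, 1 ≤ t l) → 1 ≤ p → (∀ l, m l ≤ 2 * n) →
    (∀ l, l ≤ i ∨ L ≤ l → m l = 0) →
    (∀ l, i < l → n + ∑ k ∈ Finset.range l, m k * tau k ≤ (m l + 2 / p) * (t l / 2) * TT l) →
    eLpNorm (fun z : ℂ => QQ n L m z⁻¹) (ENNReal.ofReal p) (volume.restrict (OM t i)) ≤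
      ENNReal.ofReal (5 * Real.exp (n * (rr i + 2)))

-- deps: MULT TAIL SCHED QA QC
def S_COMP : Prop :=
  ∀ (t : ℕ → ℝ) (p : ℝ) (i : ℕ) (U' : Set ℂ), (∀ l, 2 - (1 / 2) ^ (l + 2) ≤ t l) → GoodP t p i →
    IsOpen U' → IsPreconnected U' → (∀ z : ℂ, ‖z⁻¹ - 3 * rr i‖ < 1 → z ∈ U') →
    ∀ k, Ann (cj p) (OM t i \ U') k → ∀ u ∈ U', cauchy k u = 0

-- deps: BEAD TAIL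
def S_WID : Prop :=
  ∀ (t P : ℕ → ℝ) (U' : Set ℂ), (∀ l, 1 ≤ t l) → (∀ i, 1 ≤ P i) → IsOpen U' →
    (∀ i m, (fun z => (z - am m)⁻¹) ∈ Hp (ENNReal.ofReal (P i)) (OM t i \ U')) →
    ∃ ω : JJ → ℝ, (∀ j, 0 < ω j ∧ ω j ≤ ej t j) ∧ ∀ Ω : Set ℂ, MeasurableSet Ω → Ω ⊆ DD \ U' →
      (∀ z ∈ Ω, ‖z⁻¹‖ ≤ 3 ∨ (z⁻¹).re ≤ gw z⁻¹ ∨
        ∃ j, ‖z⁻¹ - bd j‖ ≤ 2 * ‖bd j‖ * ej t j ∨ |‖z⁻¹‖ - ‖bd j‖| ≤ ω j) →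
      ∀ p : ℝ, 1 ≤ p → (∀ᶠ i in atTop, p ≤ P i) → ∀ (m : ℕ) (ε : ℝ≥0∞), 0 < ε →
        ∃ Q : Polynomial ℂ,
          eLpNorm (fun z => (z - am m)⁻¹ - Q.eval z) (ENNReal.ofReal p) (volume.restrict Ω) < ε

-- deps:
def S_CHAR : Prop :=
  (∀ (Ω : Set ℂ) (p : ℝ≥0∞) (a : ℂ), MeasurableSet Ω → Bornology.IsBounded Ω → a ∉ closure Ω →
    MemLp (fun z => (z - a)⁻¹) p (volume.restrict Ω)) ∧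
  (∀ (Ω : Set ℂ) (p : ℝ) (a : ℂ) (k : ℂ → ℂ), 1 ≤ p → MeasurableSet Ω → Bornology.IsBounded Ω →
    (fun z => (z - a)⁻¹) ∈ Hp (ENNReal.ofReal p) Ω → Ann (cj p) Ω k → cauchy k a = 0) ∧
  ∀ (D U : Set ℂ) (p : ℝ), IsJordanDomain D → IsJordanDomain U → U ⊆ D → 1 ≤ p →
    (p ∈ CRange D U ↔ ∀ k, Ann (cj p) (interior (D \ U)) k → ∀ u ∈ U, cauchy k u = 0)

-- deps: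
def S_KATO : Prop :=
  (∀ (f : ℂ → ℂ) (R : ℝ) (r : ℝ≥0∞), 2 < r → Measurable f → MemLp f r volume →
    (∀ w, R ≤ ‖w‖ → f w = 0) → Kato f) ∧
  ∀ (k : ℂ → ℂ) (R : ℝ), Measurable k → Integrable k → (∀ w, R ≤ ‖w‖ → k w = 0) →
    (∀ z, R < ‖z‖ → cauchy k z = 0) → ∀ n : ℕ, ∫ w, w ^ n * k w = 0

-- deps:
def S_PRULE : Prop :=
  (∀ f, Kato f → Measurable (cauchy f) ∧ (∃ M : ℝ, ∀ z, ‖cauchy f z‖ ≤ M) ∧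
    (∀ z, Integrable fun w => f w / (w - z)) ∧
    ∀ (g : ℂ → ℂ) (C : ℝ), Measurable g → (∀ w, ‖g w‖ ≤ C * ‖f w‖) → Kato g) ∧
  ∀ f g, Kato f → Kato g → ∀ z,
    cauchy f z * cauchy g z = cauchy (fun w => f w * cauchy g w + g w * cauchy f w) z

-- deps: PRULE
def S_PEXP : Prop :=
  ∀ f, Kato f → ∀ z,
    (∀ m : ℕ, cauchy f z ^ (m + 1) = cauchy (fun w => (m + 1) * cauchy f w ^ m * f w) z) ∧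
    cexp (-cauchy f z) - 1 = cauchy (fun w => -(cexp (-cauchy f w) * f w)) z

-- deps: KATO PRULE PEXP
def S_PA : Prop :=
  ∀ (Ω : Set ℂ) (q : ℝ≥0∞) (k : ℂ → ℂ) (u : ℂ), Bornology.IsBounded Ω → 2 < q → Ann q Ω k →
    cauchy k u ≠ 0 → ∃ k', Ann ∞ Ω k' ∧ cauchy k' u ≠ 0

-- deps: CHAR PA
def S_CLS : Prop :=
  ∀ D U : Set ℂ, IsJordanDomain D → IsJordanDomain U → U ⊆ D → Adm (CRange D U)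

-- deps: POL PIN BEAD MV INC TAIL COMP WID CHAR
def S_CON : Prop :=
  ∀ t P : ℕ → ℝ, (∀ l, 1 / 2 ≤ t l) →
    ∃ U : Set ℂ, IsJordanDomain U ∧ U ⊆ DD ∧ frontier DD ∩ frontier U = {0} ∧
      (∀ p : ℝ, (∀ᶠ l in atTop, t l / p ≤ 1 - 12 / sg l) → p ∉ CRange DD U) ∧
      ((∀ l, 2 - (1 / 2) ^ (l + 2) ≤ t l) → (∀ i, GoodP t (P i) i) →
        ∀ p : ℝ, 1 ≤ p → (∀ᶠ i in atTop, p ≤ P i) → p ∈ CRange DD U)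

-- deps: CON
def S_CASE : Prop :=
  ∀ S : Set ℝ, Adm S → ∃ U : Set ℂ, IsJordanDomain U ∧ U ⊆ DD ∧
    frontier DD ∩ frontier U = {0} ∧ CRange DD U = S

end Pool.Agent.P.MP_56bcbf_an.R
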